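import Pool.Agent.H4.Singer.JTop
import Pool.Agent.H4.Singer.MV

/-!
# Singer project, second part: the comparability graph of a graded poset
-/

set_option autoImplicit false
set_option linter.unusedSectionVars false

open Finset

namespace Pool.Agent.H4.Singer2

open Pool.Agent.H4.Singer

variable {V C : Type} [PartialOrder V] [DecidableEq V] [Fintype V] [DecidableEq C]

/-- `G` is the comparability graph of the poset `V`, the colours only depend on the rank -/
structure PosGraph (G : ColGraph V C) (rk : V → ℕ) : Prop where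
  adj_iff : ∀ u v, G.adj u v ↔ u < v ∨ v < u
  lt : ∀ u v, u < v → rk u < rk v
  pos : ∀ v, 1 ≤ rk v
  col : ∀ u v, rk u = rk v → G.col u = G.col v

/-- the rank on `V` with a least element (of rank zero) added -/
def rb (rk : V → ℕ) : WithBot V → ℕ
  | ⊥ => 0
  | (v : V) => rk v

theorem rb_bot (rk : V → ℕ) : rb rk ⊥ = 0 := rfl

theorem rb_coe (rk : V → ℕ) (v : V) : rb rk (v : WithBot V) = rk v := rfl

theorem PosGraph.rb_lt {G : ColGraph V C} {rk : V → ℕ} (h : PosGraph G rk) (σ : WithBot V) (v : V)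
    (hv : σ < (v : WithBot V)) : rb rk σ < rk v := by
  induction σ using WithBot.recBotCoe with
  | bot => exact h.pos v
  | coe u => exact h.lt u v (WithBot.coe_lt_coe.1 hv)

open Classical in
/-- elements larger than `σ` -/
noncomputable def Up (σ : WithBot V) : Finset V := univ.filter fun v => σ < (v : WithBot V)

open Classical in
/-- elements larger than `σ`, of odd relative rank -/
noncomputable def UpOdd (rk : V → ℕ) (σ : WithBot V) : Finset V :=
  univ.filter fun v => σ < (v : WithBot V) ∧ Odd (rk v - rb rk σ)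

open Classical in
/-- elements strictly between `σ` and `w`, of odd relative rank -/
noncomputable def Btw (rk : V → ℕ) (σ : WithBot V) (w : V) : Finset V :=
  univ.filter fun v => σ < (v : WithBot V) ∧ v < w ∧ Odd (rk v - rb rk σ)

theorem mem_Up {σ : WithBot V} {v : V} : v ∈ Up σ ↔ σ < (v : WithBot V) := by
  classical
  simp [Up]

theorem mem_UpOdd {rk : V → ℕ} {σ : WithBot V} {v : V} :
    v ∈ UpOdd rk σ ↔ σ < (v : WithBot V) ∧ Odd (rk v - rb rk σ) := by
  classical
  simp [UpOdd]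

theorem mem_Btw {rk : V → ℕ} {σ : WithBot V} {w v : V} :
    v ∈ Btw rk σ w ↔ σ < (v : WithBot V) ∧ v < w ∧ Odd (rk v - rb rk σ) := by
  classical
  simp [Btw]

variable {G : ColGraph V C} {rk : V → ℕ}

theorem sizes_injOn (h : PosGraph G rk) (σ : WithBot V) (β : Finset V) (hβ : G.Cl β)
    (h1 : ∀ v ∈ β, σ < (v : WithBot V)) :
    Set.InjOn (fun v => rk v - rb rk σ) (β : Set V) := by
  intro u hu v hv huv
  have hu1 : u ∈ β := hu
  have hv1 : v ∈ β := hv
  have hc : rk u - rb rk σ = rk v - rb rk σ := huv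
  by_contra hne
  have hadj := (h.adj_iff u v).1 (hβ u hu1 v hv1 hne)
  have l1 := h.rb_lt σ u (h1 u hu1)
  have l2 := h.rb_lt σ v (h1 v hv1)
  rcases hadj with hh | hh
  · have := h.lt _ _ hh
    omega
  · have := h.lt _ _ hh
    omega

theorem sizes_image_subset (σ : WithBot V) (r : ℕ) (β : Finset V)
    (h1 : ∀ v ∈ β, σ < (v : WithBot V) ∧ Odd (rk v - rb rk σ) ∧ rk v - rb rk σ ≤ 2 * r) :
    (β.image fun v => rk v - rb rk σ) ⊆ (range r).image fun i => 2 * i + 1 := by
  intro k hk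
  rw [mem_image] at hk
  obtain ⟨v, hv, rfl⟩ := hk
  obtain ⟨_, ⟨i, hi⟩, hle⟩ := h1 v hv
  rw [mem_image]
  refine ⟨i, ?_, hi.symm⟩
  rw [mem_range]
  omega

theorem card_le_of_odd (h : PosGraph G rk) (σ : WithBot V) (r : ℕ) (β : Finset V) (hβ : G.Cl β)
    (h1 : ∀ v ∈ β, σ < (v : WithBot V) ∧ Odd (rk v - rb rk σ) ∧ rk v - rb rk σ ≤ 2 * r) :
    β.card ≤ r := by
  have hi := sizes_injOn h σ β hβ fun v hv => (h1 v hv).1
  have hs := sizes_image_subset σ r β h1
  rw [← Finset.card_image_of_injOn hi]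
  refine (Finset.card_le_card hs).trans ?_
  exact Finset.card_image_le.trans (by simp)

theorem exists_col_of_odd (h : PosGraph G rk) (σ : WithBot V) (r : ℕ) (β : Finset V)
    (hβ : G.Cl β)
    (h1 : ∀ v ∈ β, σ < (v : WithBot V) ∧ Odd (rk v - rb rk σ) ∧ rk v - rb rk σ ≤ 2 * r)
    (hr : β.card = r) (v : V)
    (hv : σ < (v : WithBot V) ∧ Odd (rk v - rb rk σ) ∧ rk v - rb rk σ ≤ 2 * r) :
    ∃ u ∈ β, G.col u = G.col v := by
  have hi := sizes_injOn h σ β hβ fun v hv => (h1 v hv).1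
  have hs := sizes_image_subset σ r β h1
  have hle : ((range r).image fun i => 2 * i + 1).card ≤
      (β.image fun v => rk v - rb rk σ).card := by
    rw [Finset.card_image_of_injOn hi, hr]
    exact Finset.card_image_le.trans (by simp)
  have heq := Finset.eq_of_subset_of_card_le hs hle
  obtain ⟨hσ, ⟨i, hi2⟩, hle2⟩ := hv
  have hmem : rk v - rb rk σ ∈ β.image fun v => rk v - rb rk σ := by
    rw [heq, mem_image]
    refine ⟨i, ?_, hi2.symm⟩
    rw [mem_range]
    omega
  rw [mem_image] at hmem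
  obtain ⟨u, hu, huc⟩ := hmem
  refine ⟨u, hu, h.col u v ?_⟩
  have l1 := h.rb_lt σ u (h1 u hu).1
  have l2 := h.rb_lt σ v hσ
  omega

variable {K : Type} [Field K]

/-- stress-freeness of the flags of odd rank in the intervals below the elements of `V` -/
def GoodB (G : ColGraph V C) (rk : V → ℕ) (t : V → K) : Prop :=
  ∀ (w : V) (σ : WithBot V), σ < (w : WithBot V) → Even (rk w - rb rk σ) →
    StressFree t (clq G (Btw rk σ w) ((rk w - rb rk σ) / 2))

/-- stress-freeness of the flags of odd rank in the upper intervals (`2 m + 1` is the maximal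
rank) -/
def GoodU (G : ColGraph V C) (rk : V → ℕ) (t : V → K) (m : ℕ) : Prop :=
  ∀ σ : WithBot V, Even (rb rk σ) → rb rk σ ≤ 2 * m →
    StressFree t (clq G (UpOdd rk σ) (m + 1 - rb rk σ / 2))

variable [CharP K 2]

theorem van_btw (G : ColGraph V C) (rk : V → ℕ) (h : PosGraph G rk) (t : V → K)
    (hB : GoodB G rk t) (σ : WithBot V) (v : V) (hv : σ < (v : WithBot V))
    (hev : Even (rk v - rb rk σ))
    (A : Finset V) (hA : ∀ u ∈ A, ∀ w ∈ Up σ, G.adj u w) (a₀ : ℕ) (ha : 1 ≤ a₀)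
    (hV : ∀ j, a₀ ≤ j → Van G t A j) (j : ℕ) (hj : a₀ + (rk v - rb rk σ) / 2 ≤ j + 1) :
    Van G t (A ∪ Btw rk σ v) j := by
  obtain ⟨r, hr⟩ := hev
  have hpos := h.rb_lt σ v hv
  have hr1 : 1 ≤ r := by omega
  have hr2 : (rk v - rb rk σ) / 2 = r := by omega
  have key : ∀ w ∈ Btw rk σ v, σ < (w : WithBot V) ∧ Odd (rk w - rb rk σ) ∧
      rk w - rb rk σ ≤ 2 * r := by
    intro w hw
    rw [mem_Btw] at hw
    refine ⟨hw.1, hw.2.2, ?_⟩
    have h1 := h.lt _ _ hw.2.1
    omega
  have h1 := hB v σ hv ⟨r, hr⟩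
  rw [hr2] at h1 hj
  refine van_join_sf G t A (Btw rk σ v) ?_ a₀ ha hV r hr1 ?_ ?_ h1 j hj
  · intro u hu w hw
    exact hA u hu w (mem_Up.2 (mem_Btw.1 hw).1)
  · intro β hβ hcl
    exact card_le_of_odd h σ r β hcl fun w hw => key w (hβ hw)
  · intro β hβ w hw
    rw [mem_clq] at hβ
    exact exists_col_of_odd h σ r β hβ.2.1 (fun w hw => key w (hβ.1 hw)) hβ.2.2 w (key w hw)

open Classical in
/-- the link of an element of even relative rank in the union of `A`, the elements of odd relative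
rank and an upper closed set `O` of elements of even relative rank containing it as a minimal
element -/
private theorem lk_add_even (G : ColGraph V C) (rk : V → ℕ) (h : PosGraph G rk)
    (σ : WithBot V) (A : Finset V) (hA : ∀ u ∈ A, ∀ v ∈ Up σ, G.adj u v) (O : Finset V)
    (hO : ∀ v ∈ O, σ < (v : WithBot V) ∧ Even (rk v - rb rk σ))
    (hup : ∀ v ∈ O, ∀ w : V, σ < (w : WithBot V) → Even (rk w - rb rk σ) → rk v < rk w → w ∈ O)
    (v : V) (hv : v ∈ O) (hmin : ∀ u ∈ O, rk v ≤ rk u) :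
    lk G ((A ∪ UpOdd rk σ) ∪ O) v = (A ∪ Btw rk σ v) ∪ Up (v : WithBot V) := by
  have hvσ := (hO v hv).1
  ext u
  simp only [lk, mem_filter, mem_union, mem_UpOdd, mem_Btw, mem_Up, WithBot.coe_lt_coe]
  constructor
  · rintro ⟨(hu | ⟨hu1, hu2⟩) | hu, hadj⟩
    · exact Or.inl (Or.inl hu)
    · rcases (h.adj_iff v u).1 hadj with h1 | h1
      · exact Or.inr h1
      · exact Or.inl (Or.inr ⟨hu1, h1, hu2⟩)
    · rcases (h.adj_iff v u).1 hadj with h1 | h1
      · exact Or.inr h1
      · exact absurd (h.lt _ _ h1) (not_lt.2 (hmin u hu))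
  · rintro ((hu | ⟨hu1, hu2, hu3⟩) | hu)
    · exact ⟨Or.inl (Or.inl hu), G.symm u v (hA u hu v (mem_Up.2 hvσ))⟩
    · exact ⟨Or.inl (Or.inr ⟨hu1, hu3⟩), (h.adj_iff v u).2 (Or.inr hu2)⟩
    · have h1 : σ < (u : WithBot V) := hvσ.trans (WithBot.coe_lt_coe.2 hu)
      refine ⟨?_, (h.adj_iff v u).2 (Or.inl hu)⟩
      rcases Nat.even_or_odd (rk u - rb rk σ) with h2 | h2
      · exact Or.inr (hup v hv u h1 h2 (h.lt _ _ hu))
      · exact Or.inl (Or.inr ⟨h1, h2⟩)

theorem van_add_even (G : ColGraph V C) (rk : V → ℕ) (h : PosGraph G rk) (t : V → K)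
    (σ : WithBot V) (A : Finset V) (hA : ∀ u ∈ A, ∀ v ∈ Up σ, G.adj u v) (N : ℕ) (hN : 1 ≤ N)
    (hE : ∀ j, N ≤ j → Van G t (A ∪ UpOdd rk σ) j)
    (hL : ∀ v : V, σ < (v : WithBot V) → Even (rk v - rb rk σ) → ∀ j, N ≤ j + 1 →
      Van G t ((A ∪ Btw rk σ v) ∪ Up (v : WithBot V)) j) :
    ∀ j, N ≤ j → Van G t (A ∪ Up σ) j := by
  classical
  have key : ∀ (m : ℕ) (O : Finset V), O.card = m →
      (∀ v ∈ O, σ < (v : WithBot V) ∧ Even (rk v - rb rk σ)) →
      (∀ v ∈ O, ∀ w : V, σ < (w : WithBot V) → Even (rk w - rb rk σ) → rk v < rk w → w ∈ O) →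
      ∀ j, N ≤ j → Van G t ((A ∪ UpOdd rk σ) ∪ O) j := by
    intro m
    induction m with
    | zero =>
      intro O hc _ _ j hj
      rw [card_eq_zero.1 hc, union_empty]
      exact hE j hj
    | succ m ih =>
      intro O hc hO hup j hj
      have hne : O.Nonempty := card_pos.1 (by omega)
      obtain ⟨v, hv, hmin⟩ := exists_min_image O rk hne
      have hvσ := (hO v hv).1
      have hlk := lk_add_even G rk h σ A hA O hO hup v hv hmin
      have hvA : v ∉ A := fun hmem => G.irrefl v (hA v hmem v (mem_Up.2 hvσ))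
      have hvU : v ∉ UpOdd rk σ := fun hmem => by
        rw [mem_UpOdd] at hmem
        exact (Nat.not_even_iff_odd.2 hmem.2) (hO v hv).2
      have herase : ((A ∪ UpOdd rk σ) ∪ O).erase v = (A ∪ UpOdd rk σ) ∪ O.erase v := by
        ext u
        simp only [mem_erase, mem_union]
        constructor
        · rintro ⟨h1, h2 | h2⟩
          · exact Or.inl h2
          · exact Or.inr ⟨h1, h2⟩
        · rintro (h2 | ⟨h1, h2⟩)
          · refine ⟨fun h3 => ?_, Or.inl h2⟩
            rw [h3] at h2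
            rcases h2 with h2 | h2
            · exact hvA h2
            · exact hvU h2
          · exact ⟨h1, Or.inr h2⟩
      have h1 := ih (O.erase v) (by rw [card_erase_of_mem hv]; omega)
        (fun u hu => hO u (mem_of_mem_erase hu))
        (fun u hu w hw1 hw2 hw3 => mem_erase.2 ⟨fun h3 => by
          have h4 := hmin u (mem_of_mem_erase hu)
          rw [h3] at hw3
          omega, hup u (mem_of_mem_erase hu) w hw1 hw2 hw3⟩) j hj
      obtain ⟨i, rfl⟩ : ∃ i, j = i + 1 := ⟨j - 1, by omega⟩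
      apply van_step G t _ v (mem_union_right _ hv) i
      · rw [herase]
        exact h1
      · rw [hlk]
        exact hL v hvσ (hO v hv).2 i hj
  intro j hj
  have h1 := key _ (univ.filter fun v => σ < (v : WithBot V) ∧ Even (rk v - rb rk σ)) rfl
    (fun v hv => (mem_filter.1 hv).2)
    (fun v _ w hw1 hw2 _ => mem_filter.2 ⟨mem_univ _, hw1, hw2⟩) j hj
  have h2 : (A ∪ UpOdd rk σ) ∪ (univ.filter fun v => σ < (v : WithBot V) ∧
      Even (rk v - rb rk σ)) = A ∪ Up σ := by
    ext u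
    simp only [mem_union, mem_UpOdd, mem_Up, mem_filter, mem_univ, true_and]
    constructor
    · rintro ((h3 | h3) | h3)
      · exact Or.inl h3
      · exact Or.inr h3.1
      · exact Or.inr h3.1
    · rintro (h3 | h3)
      · exact Or.inl (Or.inl h3)
      · rcases Nat.even_or_odd (rk u - rb rk σ) with h4 | h4
        · exact Or.inr ⟨h3, h4⟩
        · exact Or.inl (Or.inr ⟨h3, h4⟩)
  rwa [h2] at h1

/-- Strong induction on `n`. -/
theorem van_even (G : ColGraph V C) (rk : V → ℕ) (h : PosGraph G rk) (t : V → K)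
    (hB : GoodB G rk t) (n : ℕ) : ∀ (σ : WithBot V), Even n →
    (∀ v : V, σ < (v : WithBot V) → rk v - rb rk σ ≤ n) →
    ∀ (A : Finset V), (∀ u ∈ A, ∀ v ∈ Up σ, G.adj u v) → ∀ a₀, 1 ≤ a₀ →
    (∀ j, a₀ ≤ j → Van G t A j) → ∀ j, a₀ + n / 2 ≤ j → Van G t (A ∪ Up σ) j := by
  induction n using Nat.strong_induction_on with
  | _ n ih =>
  intro σ hn hdim A hA a₀ ha hV
  refine van_add_even G rk h t σ A hA (a₀ + n / 2) (by omega) ?_ ?_
  · intro j hj
    refine van_join_dim G t A (UpOdd rk σ) ?_ a₀ hV (n / 2) ?_ j hj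
    · intro u hu w hw
      exact hA u hu w (mem_Up.2 (mem_UpOdd.1 hw).1)
    · intro β hβ hcl
      refine card_le_of_odd h σ (n / 2) β hcl fun w hw => ?_
      have h1 := mem_UpOdd.1 (hβ hw)
      refine ⟨h1.1, h1.2, ?_⟩
      have := hdim w h1.1
      obtain ⟨n', hn'⟩ := hn
      omega
  · intro v hv hev j hj
    obtain ⟨r, hr⟩ := hev
    have hpos := h.rb_lt σ v hv
    have hle := hdim v hv
    have hr2 : (rk v - rb rk σ) / 2 = r := by omega
    obtain ⟨n', hn'⟩ := hn
    refine ih (n - 2 * r) (by omega) (v : WithBot V) ⟨n' - r, by omega⟩ ?_ (A ∪ Btw rk σ v) ?_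
      (a₀ + r - 1) (by omega) ?_ j (by omega)
    · intro w hw
      have h1 := hdim w (hv.trans hw)
      have h2 := h.lt _ _ (WithBot.coe_lt_coe.1 hw)
      rw [rb_coe]
      omega
    · intro u hu w hw
      rw [mem_Up] at hw
      rcases mem_union.1 hu with hu | hu
      · exact hA u hu w (mem_Up.2 (hv.trans hw))
      · exact (h.adj_iff u w).2 (Or.inl ((mem_Btw.1 hu).2.1.trans (WithBot.coe_lt_coe.1 hw)))
    · intro j hj
      exact van_btw G rk h t hB σ v hv ⟨r, hr⟩ A hA a₀ ha hV j (by omega)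

/-- The same with `van_join_sf` and `GoodU` for the start: all ranks are at most `2 m + 1`,
`rb σ = 2 s` with `s ≤ m`; conclusion for `j ≥ a₀ + (m - s)`. -/
theorem van_odd (G : ColGraph V C) (rk : V → ℕ) (h : PosGraph G rk) (t : V → K)
    (hB : GoodB G rk t) (m : ℕ) (hU : GoodU G rk t m) (hdim : ∀ v, rk v ≤ 2 * m + 1) (k : ℕ) :
    ∀ (σ : WithBot V) (s : ℕ), rb rk σ = 2 * s → s + k = m →
    ∀ (A : Finset V), (∀ u ∈ A, ∀ v ∈ Up σ, G.adj u v) → ∀ a₀, 1 ≤ a₀ →
    (∀ j, a₀ ≤ j → Van G t A j) → ∀ j, a₀ + k ≤ j → Van G t (A ∪ Up σ) j := by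
  induction k using Nat.strong_induction_on with
  | _ k ih =>
  intro σ s hs hsk A hA a₀ ha hV
  refine van_add_even G rk h t σ A hA (a₀ + k) (by omega) ?_ ?_
  · intro j hj
    have key : ∀ w ∈ UpOdd rk σ, σ < (w : WithBot V) ∧ Odd (rk w - rb rk σ) ∧
        rk w - rb rk σ ≤ 2 * (k + 1) := by
      intro w hw
      rw [mem_UpOdd] at hw
      refine ⟨hw.1, hw.2, ?_⟩
      have h2 := hdim w
      omega
    have h1 := hU σ ⟨s, by omega⟩ (by omega)
    have h2 : m + 1 - rb rk σ / 2 = k + 1 := by omega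
    rw [h2] at h1
    refine van_join_sf G t A (UpOdd rk σ) ?_ a₀ ha hV (k + 1) (by omega) ?_ ?_ h1 j (by omega)
    · intro u hu w hw
      exact hA u hu w (mem_Up.2 (mem_UpOdd.1 hw).1)
    · intro β hβ hcl
      exact card_le_of_odd h σ (k + 1) β hcl fun w hw => key w (hβ hw)
    · intro β hβ w hw
      rw [mem_clq] at hβ
      exact exists_col_of_odd h σ (k + 1) β hβ.2.1 (fun w hw => key w (hβ.1 hw)) hβ.2.2 w
        (key w hw)
  · intro v hv hev j hj
    obtain ⟨r, hr⟩ := hev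
    have hpos := h.rb_lt σ v hv
    have hle := hdim v
    have hr2 : (rk v - rb rk σ) / 2 = r := by omega
    refine ih (k - r) (by omega) (v : WithBot V) (s + r) (by rw [rb_coe]; omega) (by omega)
      (A ∪ Btw rk σ v) ?_ (a₀ + r - 1) (by omega) ?_ j (by omega)
    · intro u hu w hw
      rw [mem_Up] at hw
      rcases mem_union.1 hu with hu | hu
      · exact hA u hu w (mem_Up.2 (hv.trans hw))
      · exact (h.adj_iff u w).2 (Or.inl ((mem_Btw.1 hu).2.1.trans (WithBot.coe_lt_coe.1 hw)))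
    · intro j hj
      exact van_btw G rk h t hB σ v hv ⟨r, hr⟩ A hA a₀ ha hV j (by omega)

/-- the empty complex has no homology in positive degrees -/
theorem van_empty (G : ColGraph V C) (t : V → K) (j : ℕ) (hj : 1 ≤ j) : Van G t ∅ j := by
  intro z hz _
  refine ⟨0, IsChain.zero, ?_⟩
  rw [bd_zero]
  funext σ a
  by_contra hne
  have h1 := hz.supp σ a (fun h => hne (by rw [h]; rfl))
  have h2 : σ = ∅ := Finset.subset_empty.1 h1.1
  have h3 := h1.2.2
  rw [h2, Finset.card_empty] at h3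
  omega

theorem empty_union_Up : (∅ : Finset V) ∪ Up (⊥ : WithBot V) = univ := by
  ext v
  simp only [mem_union, notMem_empty, mem_Up, false_or, mem_univ, iff_true]
  exact WithBot.bot_lt_coe v

theorem van_univ_even (G : ColGraph V C) (rk : V → ℕ) (h : PosGraph G rk) (t : V → K)
    (hB : GoodB G rk t) (n : ℕ) (hn : Even n) (hdim : ∀ v, rk v ≤ n) (j : ℕ)
    (hj : n < 2 * j) : Van G t univ j := by
  have h1 := van_even G rk h t hB n ⊥ hn (fun v _ => by rw [rb_bot]; simpa using hdim v) ∅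
    (by simp) 1 le_rfl (fun j hj => van_empty G t j hj) j (by omega)
  rwa [empty_union_Up] at h1

theorem van_univ_odd (G : ColGraph V C) (rk : V → ℕ) (h : PosGraph G rk) (t : V → K)
    (hB : GoodB G rk t) (m : ℕ) (hU : GoodU G rk t m) (hdim : ∀ v, rk v ≤ 2 * m + 1) (j : ℕ)
    (hj : 2 * m + 1 < 2 * j) : Van G t univ j := by
  have h1 := van_odd G rk h t hB m hU hdim m ⊥ 0 (by simp [rb_bot]) (by simp) ∅ (by simp) 1 le_rfl
    (fun j hj => van_empty G t j hj) j (by omega)
  rwa [empty_union_Up] at h1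

end Pool.Agent.H4.Singer2
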