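import Pool.Agent.H4.Singer2.PTransfer
import Pool.Agent.H4.Singer2.PGraph
import Pool.Agent.H4.Singer.Core

/-!
# Singer project, second part: the main theorems
-/

set_option autoImplicit false
set_option linter.unusedSectionVars false

open Finset

namespace Pool.Agent.H4.Singer2

open Pool.Agent.H4.Singer

section

variable {B : Type} [PartialOrder B] [Fintype B] {rk : B → ℕ} {V : Type} [PartialOrder V]
  [DecidableEq V] [Fintype V]

/-- `ι` identifies `V` with a set of elements of `B` different from the least element `b₀` of `B` -/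
structure LowEmb (b₀ : B) (ι : V → B) : Prop where
  bot : ∀ x, b₀ ≤ x
  lt_iff : ∀ u v, ι u < ι v ↔ u < v
  inj : Function.Injective ι
  ne : ∀ v, b₀ < ι v

/-- the coloured comparability graph, the colour is the rank -/
def posCol (rk : B → ℕ) (h : IsSpherical rk) (n : ℕ) (ι : V → B) (hι : ∀ u v, ι u < ι v ↔ u < v)
    (hdim : ∀ v, rk (ι v) ≤ n) : ColGraph V (Fin (n + 1)) where
  adj a b := a < b ∨ b < a
  symm _ _ h := h.symm
  col a := ⟨rk (ι a), Nat.lt_succ_of_le (hdim a)⟩
  ne a b hab := by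
    intro heq
    have h1 : rk (ι a) = rk (ι b) := congrArg Fin.val heq
    rcases hab with hab | hab
    · exact absurd h1 (h.lt ((hι a b).2 hab)).ne
    · exact absurd h1 (h.lt ((hι b a).2 hab)).ne'

theorem posCol_posGraph (h : IsSpherical rk) (n : ℕ) {b₀ : B} {ι : V → B} (hι : LowEmb b₀ ι)
    (hdim : ∀ v, rk (ι v) ≤ n) :
    PosGraph (posCol rk h n ι hι.lt_iff hdim) (fun v => rk (ι v)) where
  adj_iff _ _ := Iff.rfl
  lt u v huv := h.lt ((hι.lt_iff u v).2 huv)
  pos v := Nat.one_le_iff_ne_zero.2 fun h0 => by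
    have := h.lt (hι.ne v)
    omega
  col u v huv := Fin.ext huv

/-- the element of `B` corresponding to `σ` -/
def bet' (b₀ : B) (ι : V → B) : WithBot V → B
  | ⊥ => b₀
  | (v : V) => ι v

theorem bet'_lt {b₀ : B} {ι : V → B} (hι : LowEmb b₀ ι) (σ : WithBot V) (v : V)
    (h : σ < (v : WithBot V)) : bet' b₀ ι σ < ι v := by
  induction σ using WithBot.recBotCoe with
  | bot => exact hι.ne v
  | coe u => exact (hι.lt_iff u v).2 (WithBot.coe_lt_coe.1 h)

theorem rk_bet' {b₀ : B} (hb : rk b₀ = 0) (ι : V → B) (σ : WithBot V) :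
    rk (bet' b₀ ι σ) = rb (fun v => rk (ι v)) σ := by
  induction σ using WithBot.recBotCoe with
  | bot => exact hb
  | coe u => rfl

theorem goodB_of (h : IsSpherical rk) (n : ℕ) {b₀ : B} (hb : rk b₀ = 0) {ι : V → B}
    (hι : LowEmb b₀ ι) (hdim : ∀ v, rk (ι v) ≤ n) :
    GoodB (posCol rk h n ι hι.lt_iff hdim) (fun v => rk (ι v)) (fun v => xv (ι v)) := by
  intro w σ hσ hev
  have h1 := bet'_lt hι σ w hσ
  have h2 := h.lt h1
  rw [rk_bet' hb ι σ] at h2
  have hev' : Even (rk (ι w) - rb (fun v => rk (ι v)) σ) := hev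
  change StressFree _ (clq _ _ ((rk (ι w) - rb (fun v => rk (ι v)) σ) / 2))
  obtain ⟨r, hr⟩ := hev'
  obtain ⟨m, rfl⟩ : ∃ m, r = m + 1 := ⟨r - 1, by omega⟩
  have h3 : (rk (ι w) - rb (fun v => rk (ι v)) σ) / 2 = m + 1 := by omega
  rw [h3]
  refine stressFree_interval h h1 m (by rw [rk_bet' hb ι σ]; omega) ι hι.inj _ ?_ _ ?_
  · intro u v huv
    exact huv.imp (hι.lt_iff u v).2 (hι.lt_iff v u).2
  · intro v hv
    rw [mem_Btw] at hv
    refine ⟨bet'_lt hι σ v hv.1, (hι.lt_iff v w).2 hv.2.1, ?_⟩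
    rw [rk_bet' hb ι σ]
    exact hv.2.2

theorem goodU_of (h : IsSpherical rk) (m : ℕ) {b₀ b₁ : B} (hb : rk b₀ = 0)
    (hb1 : rk b₁ = 2 * m + 2) {ι : V → B} (hι : LowEmb b₀ ι) (hι1 : ∀ v, ι v < b₁)
    (hdim : ∀ v, rk (ι v) ≤ 2 * m + 1) :
    GoodU (posCol rk h (2 * m + 1) ι hι.lt_iff hdim) (fun v => rk (ι v)) (fun v => xv (ι v)) m := by
  intro σ hev hle
  obtain ⟨s, hs⟩ := hev
  have h1 : bet' b₀ ι σ < b₁ := by
    induction σ using WithBot.recBotCoe with
    | bot =>
      refine lt_of_le_of_ne (hι.bot b₁) ?_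
      intro h2
      have h3 : rk b₀ = rk b₁ := congrArg rk h2
      omega
    | coe u => exact hι1 u
  have h3 : m + 1 - rb (fun v => rk (ι v)) σ / 2 = (m - s) + 1 := by omega
  rw [h3]
  refine stressFree_interval h h1 (m - s) (by rw [rk_bet' hb ι σ]; omega) ι hι.inj _ ?_ _ ?_
  · intro u v huv
    exact huv.imp (hι.lt_iff u v).2 (hι.lt_iff v u).2
  · intro v hv
    rw [mem_UpOdd] at hv
    refine ⟨bet'_lt hι σ v hv.1, hι1 v, ?_⟩
    rw [rk_bet' hb ι σ]
    exact hv.2

end

/-- **Theorem (even case).** `D` is a finite poset such that `D` with a least element added is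
spherical (for instance the set of nonempty faces of a regular cell complex) and has ranks at most
`n`, where `n` is even; `P` is any subset of `D`. -/
theorem l2_even {D : Type} [PartialOrder D] [Fintype D] [DecidableEq D] (n : ℕ) (hn : Even n)
    (rk : WithBot D → ℕ) (h0 : rk ⊥ = 0) (hd : ∀ x : D, rk x ≤ n) (h : IsSpherical rk)
    (P : Finset D) (i : ℕ) (hi : n < 2 * i) :
    L2HomologyZero (compGraph {x : D // x ∈ P}) i := by
  have hι : LowEmb (⊥ : WithBot D) (fun v : {x : D // x ∈ P} => (v.1 : WithBot D)) := by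
    refine ⟨fun x => bot_le, fun u v => ?_, fun u v huv => ?_, fun v => ?_⟩
    · rw [WithBot.coe_lt_coe]
      rfl
    · exact Subtype.ext (WithBot.coe_injective huv)
    · exact WithBot.bot_lt_coe v.1
  have hdim : ∀ v : {x : D // x ∈ P}, rk (v.1 : WithBot D) ≤ n := fun v => hd v.1
  exact core (compGraph {x : D // x ∈ P}) (posCol rk h n _ hι.lt_iff hdim) (fun _ _ => Iff.rfl) _ i
    (van_univ_even _ _ (posCol_posGraph h n hι hdim) _ (goodB_of h n h0 hι hdim) n hn hdim i hi)

/-- **Theorem (spheres).** `P` is any subset of a poset `D` such that `D` with a least element and a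
largest element (of rank `n + 1`) added is spherical. -/
theorem l2_sphere {D : Type} [PartialOrder D] [Fintype D] [DecidableEq D] (n : ℕ)
    (rk : WithTop (WithBot D) → ℕ) (h0 : rk ⊥ = 0) (h1 : rk ⊤ = n + 1) (h : IsSpherical rk)
    (P : Finset D) (i : ℕ) (hi : n < 2 * i) :
    L2HomologyZero (compGraph {x : D // x ∈ P}) i := by
  have hlt : ∀ x : D, (((x : WithBot D) : WithTop (WithBot D))) < ⊤ := fun x =>
    WithTop.coe_lt_top _
  have hι : LowEmb (⊥ : WithTop (WithBot D))
      (fun v : {x : D // x ∈ P} => ((v.1 : WithBot D) : WithTop (WithBot D))) := by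
    refine ⟨fun x => bot_le, fun u v => ?_, fun u v huv => ?_, fun v => ?_⟩
    · rw [WithTop.coe_lt_coe, WithBot.coe_lt_coe]
      rfl
    · exact Subtype.ext (WithBot.coe_injective (WithTop.coe_injective huv))
    · exact WithTop.coe_lt_coe.2 (WithBot.bot_lt_coe v.1)
  have hdim : ∀ v : {x : D // x ∈ P},
      rk (((v.1 : WithBot D) : WithTop (WithBot D))) ≤ n := by
    intro v
    have := h.lt (hlt v.1)
    omega
  rcases Nat.even_or_odd n with hn | ⟨m, rfl⟩
  · exact core (compGraph {x : D // x ∈ P}) (posCol rk h n _ hι.lt_iff hdim)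
      (fun _ _ => Iff.rfl) _ i
      (van_univ_even _ _ (posCol_posGraph h n hι hdim) _ (goodB_of h n h0 hι hdim) n hn hdim i hi)
  · exact core (compGraph {x : D // x ∈ P}) (posCol rk h (2 * m + 1) _ hι.lt_iff hdim)
      (fun _ _ => Iff.rfl) _ i
      (van_univ_odd _ _ (posCol_posGraph h _ hι hdim) _ (goodB_of h _ h0 hι hdim) m
        (goodU_of h m h0 h1 hι (fun v => hlt v.1) hdim) hdim i hi)

end Pool.Agent.H4.Singer2
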