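import Pool.Agent.H4.Singer.TopDefs

/-!
# Singer project, second part: the definitions for the final statement
-/

set_option autoImplicit false

open Finset

namespace Pool.Agent.H4.Singer2

/-- the comparability graph of a poset: two elements are adjacent if one of them is strictly
smaller than the other. Its flag complex is the order complex of the poset. -/
def compGraph (P : Type) [PartialOrder P] : SimpleGraph P where
  Adj a b := a < b ∨ b < a
  symm := ⟨fun _ _ h => h.symm⟩
  loopless := ⟨fun _ h => h.elim (fun h => lt_irrefl _ h) (fun h => lt_irrefl _ h)⟩

section

variable {B : Type} [PartialOrder B] [Fintype B]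

open Classical in
/-- the boundary operator, with coefficients in the field of two elements, of the closed interval
below `b`: `(∂ z) x` is the sum of `z y` over all `y ≤ b` that cover `x` -/
noncomputable def bdI (b : B) (z : B → ZMod 2) (x : B) : ZMod 2 :=
  ∑ y ∈ univ.filter (fun y => x ⋖ y ∧ y ≤ b), z y

/-- The complex of the functions on the closed interval `[a, b]` with the boundary operator `∂` is
exact: `ker ∂ = im ∂`. For the set of faces of a regular cell complex, with `a` the empty face, this
says that the boundary sphere of the cell `b` has the reduced homology of a sphere. -/
def ExactInterval (a b : B) : Prop :=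
  ∀ z : B → ZMod 2, (∀ x, a ≤ x → x ≤ b → bdI b z x = 0) ↔
    ∃ y : B → ZMod 2, ∀ x, a ≤ x → x ≤ b → bdI b y x = z x

/-- `rk` is a rank function and all closed intervals with more than one element are exact. -/
structure IsSpherical (rk : B → ℕ) : Prop where
  covBy : ∀ x y : B, x ⋖ y → rk y = rk x + 1
  exact : ∀ a b : B, a < b → ExactInterval a b

end

end Pool.Agent.H4.Singer2
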