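import Pool.Agent.H4.Singer2.GBasic

/-!
# Singer project, second part: anisotropy, the start
-/

set_option autoImplicit false
set_option linter.unusedSectionVars false

open Finset

namespace Pool.Agent.H4.Singer2

/-- the field of rational functions over `𝔽₂` in variables indexed by `I` -/
abbrev RF (I : Type) : Type := FractionRing (MvPolynomial I (ZMod 2))

/-- the variables -/
noncomputable def xv {I : Type} (i : I) : RF I := algebraMap (MvPolynomial I (ZMod 2)) _ (MvPolynomial.X i)

instance {I : Type} : CharP (RF I) 2 :=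
  charP_of_injective_algebraMap (IsFractionRing.injective (MvPolynomial I (ZMod 2)) (RF I)) 2

private theorem indic_apply {I : Type} [DecidableEq I] (S : Finset I) (i : I) :
    (∑ j ∈ S, Finsupp.single j 1 : I →₀ ℕ) i = if i ∈ S then 1 else 0 := by
  rw [Finsupp.finsetSum_apply]
  simp only [Finsupp.single_apply]
  rw [Finset.sum_ite_eq']

private theorem prod_X {I : Type} [DecidableEq I] (S : Finset I) :
    (∏ i ∈ S, (MvPolynomial.X i : MvPolynomial I (ZMod 2))) =
      MvPolynomial.monomial (∑ j ∈ S, Finsupp.single j 1 : I →₀ ℕ) 1 := by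
  rw [MvPolynomial.monomial_eq, MvPolynomial.C_1, one_mul]
  rw [Finsupp.prod]
  have h : (∑ j ∈ S, Finsupp.single j 1 : I →₀ ℕ).support = S := by
    ext i
    rw [Finsupp.mem_support_iff, indic_apply]
    simp
  rw [h]
  refine Finset.prod_congr rfl fun i hi => ?_
  rw [indic_apply, if_pos hi, pow_one]

/-- the statement for polynomials -/
private theorem poly_sq {I : Type} [DecidableEq I] (A : Finset (Finset I))
    (p : Finset I → MvPolynomial I (ZMod 2))
    (h : ∑ S ∈ A, (∏ i ∈ S, MvPolynomial.X i) * p S ^ 2 = 0) (T : Finset I) (hT : T ∈ A) :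
    p T = 0 := by
  ext m
  rw [MvPolynomial.coeff_zero]
  have h1 := congrArg (MvPolynomial.coeff (2 • m + ∑ j ∈ T, Finsupp.single j 1)) h
  rw [MvPolynomial.coeff_sum, MvPolynomial.coeff_zero, Finset.sum_eq_single T] at h1
  · rw [prod_X, ← MvPolynomial.expand_zmod, MvPolynomial.coeff_monomial_mul',
      if_pos (le_add_of_nonneg_left zero_le), add_tsub_cancel_right, one_mul,
      MvPolynomial.coeff_expand_smul 2 two_ne_zero] at h1
    exact h1
  · intro S _ hST
    rw [prod_X, ← MvPolynomial.expand_zmod, MvPolynomial.coeff_monomial_mul']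
    split_ifs with hle
    · rw [one_mul]
      obtain ⟨i, hi⟩ : ∃ i, ¬ (i ∈ S ↔ i ∈ T) := by
        by_contra hcon
        push Not at hcon
        exact hST (Finset.ext hcon)
      apply MvPolynomial.coeff_expand_of_not_dvd (i := i)
      rw [Finsupp.tsub_apply, Finsupp.add_apply, Finsupp.smul_apply, indic_apply, indic_apply,
        smul_eq_mul]
      have hi2 := hle i
      rw [Finsupp.add_apply, Finsupp.smul_apply, indic_apply, indic_apply, smul_eq_mul] at hi2
      by_cases h2 : i ∈ S
      · have h3 : i ∉ T := fun h3 => hi ⟨fun _ => h3, fun _ => h2⟩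
        rw [if_pos h2, if_neg h3] at hi2 ⊢
        omega
      · have h3 : i ∈ T := by
          by_contra h3
          exact hi ⟨fun h => absurd h h2, fun h => absurd h h3⟩
        rw [if_neg h2, if_pos h3]
        omega
    · rfl
  · exact fun h2 => absurd hT h2

/-- The products of distinct variables are linearly independent over the field of squares. Proof:
multiply with the square of a common denominator, so that all `x S` are polynomials. The square of a
polynomial over `𝔽₂` is a polynomial in the squares of the variables (`MvPolynomial.expand` and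
`frobenius`), so in `(∏ i ∈ S, X i) * (x S) ^ 2` only monomials occur in which exactly the variables
`i ∈ S` have an odd exponent. -/
theorem sum_prod_sq {I : Type} [DecidableEq I] (A : Finset (Finset I)) (x : Finset I → RF I)
    (h : ∑ S ∈ A, (∏ i ∈ S, xv i) * x S ^ 2 = 0) (S : Finset I) (hS : S ∈ A) : x S = 0 := by
  obtain ⟨b, hb⟩ := IsLocalization.exist_integer_multiples
    (nonZeroDivisors (MvPolynomial I (ZMod 2))) A x
  have hb' : ∀ T, ∃ p : MvPolynomial I (ZMod 2), T ∈ A →
      algebraMap (MvPolynomial I (ZMod 2)) (RF I) p =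
        algebraMap (MvPolynomial I (ZMod 2)) (RF I) b * x T := by
    intro T
    by_cases hT : T ∈ A
    · obtain ⟨p, hp⟩ := hb T hT
      exact ⟨p, fun _ => by rw [hp, Algebra.smul_def]⟩
    · exact ⟨0, fun h => absurd h hT⟩
  choose p hp using hb'
  have hinj : Function.Injective (algebraMap (MvPolynomial I (ZMod 2)) (RF I)) :=
    IsFractionRing.injective (MvPolynomial I (ZMod 2)) (RF I)
  have hpoly : ∑ T ∈ A, (∏ i ∈ T, MvPolynomial.X i) * p T ^ 2 = 0 := by
    apply hinj
    rw [map_zero, map_sum]
    have h1 : ∑ T ∈ A, algebraMap (MvPolynomial I (ZMod 2)) (RF I)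
        ((∏ i ∈ T, MvPolynomial.X i) * p T ^ 2) =
        (algebraMap (MvPolynomial I (ZMod 2)) (RF I) b) ^ 2 *
          ∑ T ∈ A, (∏ i ∈ T, xv i) * x T ^ 2 := by
      rw [Finset.mul_sum]
      refine Finset.sum_congr rfl fun T hT => ?_
      rw [map_mul, map_pow, hp T hT, map_prod]
      unfold xv
      ring
    rw [h1, h, mul_zero]
  have h2 := poly_sq A p hpoly S hS
  have h3 := hp S hS
  rw [h2, map_zero] at h3
  rcases mul_eq_zero.1 h3.symm with h4 | h4
  · exfalso
    have h5 : (b : MvPolynomial I (ZMod 2)) = 0 := hinj (by rw [h4, map_zero])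
    exact nonZeroDivisors.coe_ne_zero b h5
  · exact h4

variable {Q : Type} [PartialOrder Q] [Fintype Q]

/-- from `sum_prod_sq`, for `f` injective on the elements of rank at least one -/
theorem aniso_base {I : Type} {rk : Q → ℕ} (f : Q → I) (hf : Set.InjOn f {u | 1 ≤ rk u})
    (t : Q → RF I) (ht : ∀ u, 1 ≤ rk u → t u = xv (f u)) (c : ℕ) :
    Aniso rk t c (fun x : RF I => x ^ 2) := by
  classical
  refine ⟨by simp, fun x y => CharTwo.add_sq x y, ?_⟩
  intro x hsupp hsum
  let F : Finset (Finset Q) := univ.filter fun S => x S ≠ 0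
  have hF : ∀ S, S ∈ F ↔ x S ≠ 0 := fun S => by simp [F]
  have hrk : ∀ S ∈ F, ∀ u ∈ S, 1 ≤ rk u := fun S hS u hu => (hsupp S ((hF S).1 hS) u hu).1
  have hinj : Set.InjOn (fun S : Finset Q => S.image f) F := by
    intro S hS T hT hST
    rw [Finset.mem_coe] at hS hT
    have hST' : S.image f = T.image f := hST
    ext u
    constructor
    · intro hu
      have h1 : f u ∈ T.image f := by rw [← hST']; exact Finset.mem_image_of_mem f hu
      obtain ⟨v, hv, hvu⟩ := Finset.mem_image.1 h1
      rw [← hf (hrk T hT v hv) (hrk S hS u hu) hvu]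
      exact hv
    · intro hu
      have h1 : f u ∈ S.image f := by rw [hST']; exact Finset.mem_image_of_mem f hu
      obtain ⟨v, hv, hvu⟩ := Finset.mem_image.1 h1
      rw [← hf (hrk S hS v hv) (hrk T hT u hu) hvu]
      exact hv
  let y : Finset I → RF I := fun T => if h : ∃ S ∈ F, S.image f = T then x h.choose else 0
  have hy : ∀ S ∈ F, y (S.image f) = x S := by
    intro S hS
    have hex : ∃ S' ∈ F, S'.image f = S.image f := ⟨S, hS, rfl⟩
    have h1 : y (S.image f) = x hex.choose := dif_pos hex
    rw [h1]
    congr 1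
    exact hinj hex.choose_spec.1 hS hex.choose_spec.2
  have hzero : ∑ T ∈ F.image (fun S : Finset Q => S.image f), (∏ i ∈ T, xv i) * y T ^ 2 = 0 := by
    rw [Finset.sum_image hinj, ← hsum, ← Finset.sum_subset (Finset.subset_univ F)]
    · refine Finset.sum_congr rfl fun S hS => ?_
      rw [hy S hS, Finset.prod_image]
      · congr 1
        refine Finset.prod_congr rfl fun u hu => ?_
        rw [ht u (hrk S hS u hu)]
      · intro u hu v hv huv
        exact hf (hrk S hS u hu) (hrk S hS v hv) huv
    · intro S _ hS
      have h1 : x S = 0 := by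
        by_contra h2
        exact hS ((hF S).2 h2)
      rw [h1]
      simp
  funext S
  by_contra hne
  have hS : S ∈ F := (hF S).2 hne
  have h1 := sum_prod_sq _ y hzero (S.image f) (Finset.mem_image_of_mem _ hS)
  rw [hy S hS] at h1
  exact hne h1

end Pool.Agent.H4.Singer2
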