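import Pool.Agent.H4.Singer2.GBasic

/-!
# Singer project, second part: anisotropy, the step
-/

set_option autoImplicit false
set_option linter.unusedSectionVars false

open Finset

namespace Pool.Agent.H4.Singer2

variable {Q : Type} [PartialOrder Q] [Fintype Q] {K : Type} [Field K] {E : Type}
  [AddCommGroup E] [Module K E] {rk : Q → ℕ} {t : Q → K} {c : ℕ} {q : E → K}

/-- the diagonal form of the next step -/
def qn (rk : Q → ℕ) (t : Q → K) (c : ℕ) (q : E → K) (x : Wc rk c → E) : K :=
  ∑ w : Wc rk c, t w.1 * q (x w)

/-- Proof. Let `x' : Finset Q → (Wc rk c → E)` be given, supported on sets `S` of elements of rank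
between `1` and `c' < c`. Define `x R` as `x' (R \ {w}) w` if `R` contains exactly one element `w` of
rank `c`, and `0` otherwise. Then `x R ≠ 0` implies that all elements of `R` have rank between `1`
and `c`, and the sets `R` with `x R ≠ 0` correspond to the pairs `(S, w)` with `x' S w ≠ 0`, by
`R = insert w S` (`w ∉ S` as `rk w = c > c'`), with `∏ u ∈ R, t u = t w * ∏ u ∈ S, t u`. So the sum
for `x` is the sum for `x'`, `x = 0` by `hA.an` and `x' = 0`. -/
theorem aniso_step (hA : Aniso rk t c q) (c' : ℕ) (hc : c' + 2 = c) :
    Aniso rk t c' (qn rk t c q) := by
  classical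
  let qh : E →+ K := { toFun := q, map_zero' := hA.zero, map_add' := hA.add }
  have hqh : ∀ x, qh x = q x := fun _ => rfl
  refine ⟨?_, ?_, ?_⟩
  · unfold qn
    exact Finset.sum_eq_zero fun w _ => by rw [Pi.zero_apply, hA.zero, mul_zero]
  · intro x y
    unfold qn
    rw [← Finset.sum_add_distrib]
    refine Finset.sum_congr rfl fun w _ => ?_
    rw [Pi.add_apply, hA.add, mul_add]
  · intro x' hsupp hsum
    -- the family of the previous step
    let cond : Finset Q → Wc rk c → Prop := fun R w => w.1 ∈ R ∧ ∀ u ∈ R.erase w.1, rk u ≤ c'
    let x : Finset Q → E := fun R => ∑ w : Wc rk c, if cond R w then x' (R.erase w.1) w else 0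
    have hx : ∀ R, x R = ∑ w : Wc rk c, if cond R w then x' (R.erase w.1) w else 0 := fun _ => rfl
    have hq : ∀ R, q (x R) = ∑ w : Wc rk c, if cond R w then q (x' (R.erase w.1) w) else 0 := by
      intro R
      rw [← hqh, hx, map_sum]
      refine Finset.sum_congr rfl fun w _ => ?_
      split_ifs
      · rfl
      · exact map_zero qh
    have hx0 : x = 0 := by
      apply hA.an x
      · intro R hR u hu
        rw [hx] at hR
        obtain ⟨w, _, hw⟩ := Finset.exists_ne_zero_of_sum_ne_zero hR
        by_cases hc' : cond R w
        · rw [if_pos hc'] at hw
          have hne : x' (R.erase w.1) ≠ 0 := fun h0 => hw (by rw [h0]; rfl)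
          by_cases huw : u = w.1
          · have := w.2
            rw [huw]
            omega
          · have := hsupp _ hne u (Finset.mem_erase.2 ⟨huw, hu⟩)
            omega
        · rw [if_neg hc'] at hw
          exact absurd rfl hw
      · -- the sum
        have h1 : ∀ w : Wc rk c, ∑ R : Finset Q, (if cond R w then
            (∏ u ∈ R, t u) * q (x' (R.erase w.1) w) else 0) =
            ∑ S : Finset Q, (∏ u ∈ S, t u) * (t w.1 * q (x' S w)) := by
          intro w
          rw [← Finset.sum_filter]
          have h2 : ∑ R ∈ univ.filter (fun R => cond R w),
              (∏ u ∈ R, t u) * q (x' (R.erase w.1) w) =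
              ∑ S ∈ univ.filter (fun S : Finset Q => ∀ u ∈ S, rk u ≤ c'),
                (∏ u ∈ S, t u) * (t w.1 * q (x' S w)) := by
            refine Finset.sum_nbij' (fun R => R.erase w.1) (fun S => insert w.1 S) ?_ ?_ ?_ ?_ ?_
            · intro R hR
              rw [Finset.mem_filter] at hR ⊢
              exact ⟨Finset.mem_univ _, hR.2.2⟩
            · intro S hS
              rw [Finset.mem_filter] at hS ⊢
              have hwS : w.1 ∉ S := by
                intro h3
                have h4 := hS.2 _ h3
                have h5 := w.2
                omega
              refine ⟨Finset.mem_univ _, Finset.mem_insert_self _ _, ?_⟩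
              rw [Finset.erase_insert hwS]
              exact hS.2
            · intro R hR
              rw [Finset.mem_filter] at hR
              exact Finset.insert_erase hR.2.1
            · intro S hS
              rw [Finset.mem_filter] at hS
              have hwS : w.1 ∉ S := by
                intro h3
                have h4 := hS.2 _ h3
                have h5 := w.2
                omega
              exact Finset.erase_insert hwS
            · intro R hR
              rw [Finset.mem_filter] at hR
              rw [← Finset.mul_prod_erase R t hR.2.1]
              ring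
          rw [h2, Finset.sum_filter]
          refine Finset.sum_congr rfl fun S _ => ?_
          split_ifs with h3
          · rfl
          · have h4 : x' S = 0 := by
              by_contra h5
              exact h3 fun u hu => (hsupp S h5 u hu).2
            rw [h4, Pi.zero_apply, hA.zero, mul_zero, mul_zero]
        have h6 : ∑ S : Finset Q, (∏ u ∈ S, t u) * q (x S) =
            ∑ w : Wc rk c, ∑ R : Finset Q, (if cond R w then
              (∏ u ∈ R, t u) * q (x' (R.erase w.1) w) else 0) := by
          rw [Finset.sum_comm]
          refine Finset.sum_congr rfl fun R _ => ?_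
          rw [hq, Finset.mul_sum]
          refine Finset.sum_congr rfl fun w _ => ?_
          rw [mul_ite, mul_zero]
        rw [h6, Finset.sum_congr rfl fun w _ => h1 w, Finset.sum_comm, ← hsum]
        refine Finset.sum_congr rfl fun S _ => ?_
        unfold qn
        rw [Finset.mul_sum]
    funext S w
    by_contra hne
    have hS : x' S ≠ 0 := fun h0 => hne (by rw [h0]; rfl)
    have hrk := hsupp S hS
    have hwS : w.1 ∉ S := by
      intro h3
      have h4 := (hrk _ h3).2
      have h5 := w.2
      omega
    have h7 : x (insert w.1 S) = x' S w := by
      rw [hx, Finset.sum_eq_single w]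
      · rw [if_pos, Finset.erase_insert hwS]
        refine ⟨Finset.mem_insert_self _ _, ?_⟩
        rw [Finset.erase_insert hwS]
        exact fun u hu => (hrk u hu).2
      · intro w2 _ hw2
        rw [if_neg]
        rintro ⟨_, h8⟩
        have h9 : w.1 ∈ (insert w.1 S).erase w2.1 :=
          Finset.mem_erase.2 ⟨fun h => hw2 (Subtype.ext h).symm, Finset.mem_insert_self _ _⟩
        have h10 := h8 _ h9
        have h11 := w.2
        omega
      · intro h
        exact absurd (Finset.mem_univ _) h
    rw [hx0] at h7
    exact hne (by rw [← h7]; rfl)

end Pool.Agent.H4.Singer2
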