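import Pool.Agent.H4.Singer2.GDefs

/-!
# Singer project, second part: basic facts
-/

set_option autoImplicit false
set_option linter.unusedSectionVars false

open Finset

namespace Pool.Agent.H4.Singer2

section Pd

variable {Q : Type} [PartialOrder Q] [Fintype Q]

open Classical in
/-- the elements `y > x` of rank `rk x + 1` -/
noncomputable def cov (rk : Q → ℕ) (x : Q) : Finset Q :=
  univ.filter fun y => x < y ∧ rk y = rk x + 1

open Classical in
/-- the elements `y > x` of rank `rk x + 2` -/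
noncomputable def cov2 (rk : Q → ℕ) (x : Q) : Finset Q :=
  univ.filter fun y => x < y ∧ rk y = rk x + 2

theorem mem_cov {rk : Q → ℕ} {x y : Q} : y ∈ cov rk x ↔ x < y ∧ rk y = rk x + 1 := by
  classical
  simp [cov]

theorem mem_cov2 {rk : Q → ℕ} {x y : Q} : y ∈ cov2 rk x ↔ x < y ∧ rk y = rk x + 2 := by
  classical
  simp [cov2]

variable {M N : Type} [AddCommMonoid M] [AddCommMonoid N]

theorem pd_eq (rk : Q → ℕ) (f : Q → M) (x : Q) : pd rk f x = ∑ y ∈ cov rk x, f y := by
  classical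
  simp [pd, cov]

theorem pd_add (rk : Q → ℕ) (f g : Q → M) (x : Q) :
    pd rk (f + g) x = pd rk f x + pd rk g x := by
  simp only [pd_eq, Pi.add_apply, Finset.sum_add_distrib]

theorem pd_zero (rk : Q → ℕ) (x : Q) : pd rk (0 : Q → M) x = 0 := by
  simp [pd_eq]

theorem pd_congr {rk : Q → ℕ} {f g : Q → M} {x : Q}
    (h : ∀ y, x < y → rk y = rk x + 1 → f y = g y) : pd rk f x = pd rk g x := by
  rw [pd_eq, pd_eq]
  exact Finset.sum_congr rfl fun y hy => h y (mem_cov.1 hy).1 (mem_cov.1 hy).2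

/-- the boundary commutes with additive maps -/
theorem map_pd (φ : M →+ N) (rk : Q → ℕ) (f : Q → M) (x : Q) :
    φ (pd rk f x) = pd rk (fun y => φ (f y)) x := by
  rw [pd_eq, pd_eq, map_sum]

theorem pd_smul {K : Type} [Field K] {M : Type} [AddCommGroup M] [Module K M] (rk : Q → ℕ) (r : K)
    (f : Q → M) (x : Q) : pd rk (r • f) x = r • pd rk f x := by
  rw [pd_eq, pd_eq, Finset.smul_sum]
  rfl

theorem pd_apply {ι : Type} {M : Type} [AddCommMonoid M] (rk : Q → ℕ) (f : Q → ι → M) (x : Q)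
    (i : ι) : pd rk f x i = pd rk (fun y => f y i) x := by
  rw [pd_eq, pd_eq, Finset.sum_apply]

theorem pd_eq_zero_of_rk {rk : Q → ℕ} {f : Q → M} {r : ℕ} (hf : ∀ y, f y ≠ 0 → rk y = r) {x : Q}
    (hx : rk x + 1 ≠ r) : pd rk f x = 0 := by
  rw [pd_eq]
  refine Finset.sum_eq_zero fun y hy => ?_
  by_contra h
  have h1 := hf y h
  have h2 := (mem_cov.1 hy).2
  omega

theorem pd_mem {K : Type} [Field K] {M : Type} [AddCommGroup M] [Module K M] {rk : Q → ℕ}
    {f : Q → M} {x : Q} {S : Submodule K M} (h : ∀ y, x < y → rk y = rk x + 1 → f y ∈ S) :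
    pd rk f x ∈ S := by
  rw [pd_eq]
  exact Submodule.sum_mem _ fun y hy => h y (mem_cov.1 hy).1 (mem_cov.1 hy).2

/-- in an interval of length two with two middle elements, `∂∂ = 0` in characteristic two -/
theorem pd_pd {rk : Q → ℕ} {n : ℕ} (hQ : GPos rk n) (h2 : ∀ m : M, m + m = 0) (f : Q → M) (x : Q) :
    pd rk (fun y => pd rk f y) x = 0 := by
  classical
  have e1 : pd rk (fun y => pd rk f y) x =
      ∑ z, ∑ y, if (x < y ∧ rk y = rk x + 1) ∧ (y < z ∧ rk z = rk y + 1) then f z else 0 := by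
    rw [Finset.sum_comm, pd_eq]
    rw [← Finset.sum_subset (Finset.subset_univ (cov rk x))]
    · refine Finset.sum_congr rfl fun y hy => ?_
      rw [mem_cov] at hy
      rw [pd_eq, ← Finset.sum_subset (Finset.subset_univ (cov rk y))]
      · refine Finset.sum_congr rfl fun z hz => ?_
        rw [mem_cov] at hz
        rw [if_pos ⟨hy, hz⟩]
      · intro z _ hz
        rw [mem_cov] at hz
        rw [if_neg fun h => hz h.2]
    · intro y _ hy
      rw [mem_cov] at hy
      exact Finset.sum_eq_zero fun z _ => if_neg fun h => hy h.1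
  rw [e1]
  refine Finset.sum_eq_zero fun z _ => ?_
  by_cases hz : x < z ∧ rk z = rk x + 2
  · obtain ⟨a, b, hab, h⟩ := hQ.thin x z hz.1 hz.2
    have key : ∀ y, ((x < y ∧ rk y = rk x + 1) ∧ (y < z ∧ rk z = rk y + 1)) ↔ (y = a ∨ y = b) := by
      intro y
      rw [← h y]
      constructor
      · rintro ⟨h1, h3⟩
        exact ⟨h1.1, h3.1⟩
      · rintro ⟨h1, h3⟩
        have h4 := hQ.lt _ _ h1
        have h5 := hQ.lt _ _ h3
        exact ⟨⟨h1, by omega⟩, h3, by omega⟩
    simp only [key]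
    rw [← Finset.sum_filter]
    have h6 : univ.filter (fun y => y = a ∨ y = b) = {a, b} := by
      ext y
      simp
    rw [h6, Finset.sum_pair hab]
    exact h2 _
  · refine Finset.sum_eq_zero fun y _ => if_neg ?_
    rintro ⟨⟨h1, h3⟩, h4, h5⟩
    exact hz ⟨h1.trans h4, by omega⟩

end Pd

theorem add_self_eq_zero' (K : Type) {M : Type} [Field K] [CharP K 2] [AddCommGroup M] [Module K M]
    (x : M) : x + x = 0 := by
  rw [← two_smul K x, CharTwo.two_eq_zero, zero_smul]

section Spaces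

variable {Q : Type} [PartialOrder Q] [Fintype Q] {K : Type} [Field K] {E : Type} [AddCommGroup E]
  [Module K E] {rk : Q → ℕ} {t : Q → K} {c : ℕ} {G : Q → Submodule K E}
  {B : Q → E →ₗ[K] E →ₗ[K] K} {q : E → K}

theorem PM_mono {σ σ' : Q} (h : σ ≤ σ') : PM rk G c σ' ≤ PM rk G c σ :=
  fun _ hx w => ⟨(hx w).1, fun h1 => h.trans ((hx w).2 h1)⟩

theorem ZZ_mono {σ σ' : Q} (h : σ ≤ σ') : ZZ rk G c σ' ≤ ZZ rk G c σ :=
  inf_le_inf_right _ (PM_mono h)

theorem GG_mono {σ σ' : Q} (h : σ ≤ σ') : GG rk t G c σ' ≤ GG rk t G c σ :=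
  inf_le_inf_right _ (ZZ_mono h)

theorem NN_mono {σ σ' : Q} (h : σ ≤ σ') : NN rk G c σ' ≤ NN rk G c σ :=
  Submodule.map_mono (PM_mono h)

theorem ZZ_le_PM {σ : Q} : ZZ rk G c σ ≤ PM rk G c σ := inf_le_left

theorem GG_le_ZZ {σ : Q} : GG rk t G c σ ≤ ZZ rk G c σ := inf_le_left

theorem TT_mem_PM {σ : Q} {x : Wc rk c → E} (hx : x ∈ PM rk G c σ) :
    TT E rk t c x ∈ PM rk G c σ := by
  intro w
  refine ⟨Submodule.smul_mem _ _ (hx w).1, fun h => (hx w).2 fun h1 => h ?_⟩
  rw [TT_apply, h1, smul_zero]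

theorem sumL_TT (x : Wc rk c → E) : sumL K rk c (TT E rk t c x) = twL E rk t c x := by
  rw [sumL_apply, twL_apply]
  rfl

theorem single_mem_PM {σ : Q} (w : Wc rk c) (hσ : σ ≤ w.1) [DecidableEq (Wc rk c)] (u : E)
    (hu : u ∈ G w.1) : (Pi.single w u : Wc rk c → E) ∈ PM rk G c σ := by
  intro w'
  by_cases h : w' = w
  · subst h
    rw [Pi.single_eq_same]
    exact ⟨hu, fun _ => hσ⟩
  · rw [Pi.single_eq_of_ne h]
    exact ⟨Submodule.zero_mem _, fun h1 => absurd rfl h1⟩

theorem FB_symm (hB : ∀ w x y, B w x y = B w y x) (x y : Wc rk c → E) :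
    FB rk B c x y = FB rk B c y x := by
  rw [FB_apply, FB_apply]
  exact Finset.sum_congr rfl fun w _ => hB _ _ _

theorem FB_TT (x y : Wc rk c → E) :
    FB rk B c x (TT E rk t c y) = FB rk B c (TT E rk t c x) y := by
  rw [FB_apply, FB_apply]
  refine Finset.sum_congr rfl fun w _ => ?_
  rw [TT_apply, TT_apply, map_smul, map_smul, LinearMap.smul_apply]

theorem FB_nondeg (hnd : ∀ w, rk w = c → ∀ x ∈ G w, (∀ y ∈ G w, B w x y = 0) → x = 0) (σ : Q)
    (x : Wc rk c → E) (hx : x ∈ PM rk G c σ) (h : ∀ y ∈ PM rk G c σ, FB rk B c x y = 0) :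
    x = 0 := by
  classical
  funext w
  by_contra hne
  apply hne
  refine hnd w.1 w.2 (x w) (hx w).1 fun u hu => ?_
  have h1 := h _ (single_mem_PM w ((hx w).2 hne) u hu)
  rw [FB_apply, Finset.sum_eq_single w] at h1
  · rwa [Pi.single_eq_same] at h1
  · intro w' _ hw'
    rw [Pi.single_eq_of_ne hw', map_zero]
  · intro h2
    exact absurd (Finset.mem_univ _) h2

theorem res_mem_PM {σ e : Q} {x : Wc rk c → E} (hx : x ∈ PM rk G c σ) :
    res K rk c e x ∈ PM rk G c e := by
  classical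
  intro w
  rw [res_apply]
  by_cases h : e ≤ w.1
  · rw [if_pos h]
    exact ⟨(hx w).1, fun _ => h⟩
  · rw [if_neg h]
    exact ⟨Submodule.zero_mem _, fun h1 => absurd rfl h1⟩

theorem res_eq_self {e : Q} {x : Wc rk c → E} (hx : x ∈ PM rk G c e) : res K rk c e x = x := by
  classical
  funext w
  rw [res_apply]
  split_ifs with h
  · rfl
  · by_contra h1
    exact h ((hx w).2 fun h2 => h1 h2.symm)

/-- restricting one argument of the form to the support of the other one -/
theorem FB_res {e : Q} (x : Wc rk c → E) {z : Wc rk c → E} (hz : z ∈ PM rk G c e) :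
    FB rk B c (res K rk c e x) z = FB rk B c x z := by
  classical
  rw [FB_apply, FB_apply]
  refine Finset.sum_congr rfl fun w _ => ?_
  rw [res_apply]
  split_ifs with h
  · rfl
  · have h1 : z w = 0 := by
      by_contra h2
      exact h ((hz w).2 h2)
    rw [h1, map_zero, map_zero]

/-- families over `e ∈ S` of elements of `ZZ e` -/
def LL (rk : Q → ℕ) (G : Q → Submodule K E) (c : ℕ) (S : Finset Q) :
    Submodule K (Q → Wc rk c → E) where
  carrier := {y | ∀ e, y e ∈ ZZ rk G c e ∧ (y e ≠ 0 → e ∈ S)}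
  zero_mem' := fun _ => ⟨Submodule.zero_mem _, fun h => absurd rfl h⟩
  add_mem' := by
    intro x y hx hy w
    refine ⟨Submodule.add_mem _ (hx w).1 (hy w).1, fun h => ?_⟩
    by_cases h1 : x w = 0
    · by_cases h2 : y w = 0
      · exact absurd (by simp [h1, h2]) h
      · exact (hy w).2 h2
    · exact (hx w).2 h1
  smul_mem' := by
    intro r x hx w
    refine ⟨Submodule.smul_mem _ _ (hx w).1, fun h => (hx w).2 fun h1 => h ?_⟩
    simp [h1]

theorem mem_LL {S : Finset Q} {y : Q → Wc rk c → E} :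
    y ∈ LL rk G c S ↔ ∀ e, y e ∈ ZZ rk G c e ∧ (y e ≠ 0 → e ∈ S) := Iff.rfl

/-- the form `∑ FB (y e) (T (y' e))`, over `e ∈ S` -/
noncomputable def YB (rk : Q → ℕ) (t : Q → K) (B : Q → E →ₗ[K] E →ₗ[K] K) (c : ℕ) (S : Finset Q) :
    (Q → Wc rk c → E) →ₗ[K] (Q → Wc rk c → E) →ₗ[K] K :=
  ∑ e ∈ S, (FB rk B c).compl₁₂ (LinearMap.proj e) ((TT E rk t c).comp (LinearMap.proj e))

theorem YB_apply {S : Finset Q} (y y' : Q → Wc rk c → E) :
    YB rk t B c S y y' = ∑ e ∈ S, FB rk B c (y e) (TT E rk t c (y' e)) := by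
  simp [YB]

theorem YB_symm (hB : ∀ w x y, B w x y = B w y x) {S : Finset Q} (y y' : Q → Wc rk c → E) :
    YB rk t B c S y y' = YB rk t B c S y' y := by
  rw [YB_apply, YB_apply]
  refine Finset.sum_congr rfl fun e _ => ?_
  rw [FB_TT, FB_symm hB]

/-- the families over the elements `w ≥ v` whose restrictions to all `e` covering `v` lie in
`ZZ e` -/
def XX (rk : Q → ℕ) (G : Q → Submodule K E) (c : ℕ) (v : Q) : Submodule K (Wc rk c → E) where
  carrier := {g | g ∈ PM rk G c v ∧ ∀ e, v < e → rk e = rk v + 1 → res K rk c e g ∈ ZZ rk G c e}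
  zero_mem' := ⟨Submodule.zero_mem _, fun e _ _ => by
    rw [map_zero]
    exact Submodule.zero_mem _⟩
  add_mem' := by
    intro x y hx hy
    refine ⟨Submodule.add_mem _ hx.1 hy.1, fun e h1 h2 => ?_⟩
    rw [map_add]
    exact Submodule.add_mem _ (hx.2 e h1 h2) (hy.2 e h1 h2)
  smul_mem' := by
    intro r x hx
    refine ⟨Submodule.smul_mem _ _ hx.1, fun e h1 h2 => ?_⟩
    rw [map_smul]
    exact Submodule.smul_mem _ _ (hx.2 e h1 h2)

theorem mem_XX {v : Q} {g : Wc rk c → E} : g ∈ XX rk G c v ↔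
    g ∈ PM rk G c v ∧ ∀ e, v < e → rk e = rk v + 1 → res K rk c e g ∈ ZZ rk G c e := Iff.rfl

open Classical in
/-- the map `g ↦ (g|ₑ)` to the families over the elements `e` covering `v` -/
noncomputable def iot (K : Type) [Field K] {E : Type} [AddCommGroup E] [Module K E] (rk : Q → ℕ)
    (c : ℕ) (v : Q) : (Wc rk c → E) →ₗ[K] (Q → Wc rk c → E) where
  toFun g e := if e ∈ cov rk v then res K rk c e g else 0
  map_add' x y := by
    funext e
    by_cases h : e ∈ cov rk v <;> simp [h]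
  map_smul' r x := by
    funext e
    by_cases h : e ∈ cov rk v <;> simp [h]

open Classical in
theorem iot_apply {v : Q} (g : Wc rk c → E) (e : Q) :
    iot K rk c v g e = if e ∈ cov rk v then res K rk c e g else 0 := rfl

theorem iot_mem_LL {v : Q} {g : Wc rk c → E} (hg : g ∈ XX rk G c v) :
    iot K rk c v g ∈ LL rk G c (cov rk v) := by
  classical
  intro e
  rw [iot_apply]
  split_ifs with h
  · rw [mem_cov] at h
    exact ⟨hg.2 e h.1 h.2, fun _ => mem_cov.2 h⟩
  · exact ⟨Submodule.zero_mem _, fun h1 => absurd rfl h1⟩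

theorem pd_mem_ZZ {v : Q} {y : Q → Wc rk c → E} (hy : ∀ e, y e ∈ ZZ rk G c e) :
    pd rk y v ∈ ZZ rk G c v :=
  pd_mem fun e h _ => ZZ_mono h.le (hy e)

/-- `∂ (iot g) = 0` at `v`, as there are exactly two elements between `v` and an element of rank
`rk v + 2` -/
theorem pd_iot [CharP K 2] {n : ℕ} (hQ : GPos rk n) {v : Q} (hv : rk v + 2 = c) {g : Wc rk c → E}
    (hg : g ∈ PM rk G c v) : pd rk (iot K rk c v g) v = 0 := by
  classical
  funext w
  rw [pd_apply, Pi.zero_apply]
  have h2 := pd_pd (M := E) hQ (add_self_eq_zero' K) (Pi.single w.1 (g w)) v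
  rw [← h2]
  refine pd_congr fun e h1 h3 => ?_
  rw [iot_apply, if_pos (mem_cov.2 ⟨h1, h3⟩), res_apply, pd_eq]
  by_cases h : e ≤ w.1
  · rw [if_pos h, Finset.sum_eq_single w.1]
    · rw [Pi.single_eq_same]
    · intro b _ hb
      rw [Pi.single_eq_of_ne hb]
    · intro h4
      exfalso
      apply h4
      rw [mem_cov]
      have h5 := w.2
      refine ⟨lt_of_le_of_ne h ?_, by omega⟩
      intro h6
      have h7 : rk e = rk w.1 := by rw [h6]
      omega
  · rw [if_neg h]
    symm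
    refine Finset.sum_eq_zero fun b hb => ?_
    by_cases hbw : b = w.1
    · exact absurd (hbw ▸ (mem_cov.1 hb).1.le) h
    · rw [Pi.single_eq_of_ne hbw]

end Spaces

end Pool.Agent.H4.Singer2
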