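import Pool.Agent.H4.Singer2.GBasic

/-!
# Singer project, second part: stresses on chains with values in `E`
-/

set_option autoImplicit false
set_option linter.unusedSectionVars false

open Finset

namespace Pool.Agent.H4.Singer2

variable {Q : Type} [PartialOrder Q] [Fintype Q] [DecidableEq Q] {K : Type} [Field K] {E : Type}
  [AddCommGroup E] [Module K E]

/-- chains of `k + 1` elements of odd rank `≤ 2 k + 1` (so the ranks are `1, 3, …, 2 k + 1`) -/
def OddCh (rk : Q → ℕ) (k : ℕ) (φ : Finset Q) : Prop :=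
  φ.card = k + 1 ∧ (∀ u ∈ φ, ∀ v ∈ φ, u < v ∨ u = v ∨ v < u) ∧
    ∀ u ∈ φ, Odd (rk u) ∧ rk u ≤ 2 * k + 1

/-- stresses with values in `E` -/
structure EStress (rk : Q → ℕ) (t : Q → K) (k : ℕ) (G : Q → Submodule K E) (z : Finset Q → E) :
    Prop where
  supp : ∀ φ, z φ ≠ 0 → OddCh rk k φ
  mem : ∀ φ w, w ∈ φ → rk w = 2 * k + 1 → z φ ∈ G w
  sum : ∀ τ, ∑ v ∈ τᶜ, z (insert v τ) = 0
  wsum : ∀ τ, ∑ v ∈ τᶜ, t v • z (insert v τ) = 0

/-- a chain as in `OddCh` has an element of rank `2 k + 1`, which is larger than all others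
(pigeonhole) -/
theorem OddCh.exists_top {rk : Q → ℕ} (hlt : ∀ x y, x < y → rk x < rk y) {k : ℕ} {φ : Finset Q}
    (h : OddCh rk k φ) : ∃ w ∈ φ, rk w = 2 * k + 1 ∧ ∀ u ∈ φ, u ≠ w → u < w := by
  obtain ⟨hcard, hch, hodd⟩ := h
  have hex : ∃ w ∈ φ, rk w = 2 * k + 1 := by
    by_contra hcon
    push Not at hcon
    have h1 : φ.card ≤ (Finset.range k).card := by
      refine Finset.card_le_card_of_injOn (fun u => rk u / 2) ?_ ?_
      · intro u hu
        rw [Finset.mem_coe] at hu
        obtain ⟨⟨m, hm⟩, hle⟩ := hodd u hu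
        have hne := hcon u hu
        rw [Finset.mem_coe, Finset.mem_range]
        show rk u / 2 < k
        omega
      · intro u hu v hv huv
        rw [Finset.mem_coe] at hu hv
        obtain ⟨⟨m, hm⟩, -⟩ := hodd u hu
        obtain ⟨⟨m', hm'⟩, -⟩ := hodd v hv
        have huv' : rk u / 2 = rk v / 2 := huv
        rcases hch u hu v hv with h2 | h2 | h2
        · have := hlt _ _ h2
          omega
        · exact h2
        · have := hlt _ _ h2
          omega
    rw [Finset.card_range] at h1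
    omega
  obtain ⟨w, hw, hrw⟩ := hex
  refine ⟨w, hw, hrw, fun u hu hne => ?_⟩
  rcases hch u hu w hw with h2 | h2 | h2
  · exact h2
  · exact absurd h2 hne
  · have h3 := hlt _ _ h2
    have h4 := (hodd u hu).2
    omega

end Pool.Agent.H4.Singer2
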