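import Pool.Agent.H4.Singer2.GBasic

/-!
# Singer project, second part: the weighted sum is injective on `ZZ e`, `rk e = c - 1`
-/

set_option autoImplicit false
set_option linter.unusedSectionVars false

open Finset

namespace Pool.Agent.H4.Singer2

variable {Q : Type} [PartialOrder Q] [Fintype Q] {K : Type} [Field K] [CharP K 2] {E : Type}
  [AddCommGroup E] [Module K E]
  {rk : Q → ℕ} {t : Q → K} {c : ℕ} {G : Q → Submodule K E} {B : Q → E →ₗ[K] E →ₗ[K] K} {q : E → K}

/-- `T x ∈ PM e` has sum zero, so `T x ∈ ZZ e` and `FB x (T x) = 0` by `lag`; now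
`FB x (T x) = ∑ w, t w * q (x w)`, and `hA.an` for the function `{w} ↦ x w` gives `x = 0`. -/
theorem ZZ_inj (hS : Stage rk t c G B q) (hA : Aniso rk t c q) (hc : 1 ≤ c) (e : Q)
    (he : rk e + 1 = c) (x : Wc rk c → E) (hx : x ∈ ZZ rk G c e) (h : twL E rk t c x = 0) :
    x = 0 := by
  classical
  have hxP : x ∈ PM rk G c e := ZZ_le_PM hx
  have hT : TT E rk t c x ∈ ZZ rk G c e := by
    refine ⟨TT_mem_PM hxP, ?_⟩
    show TT E rk t c x ∈ LinearMap.ker (sumL K rk c)
    rw [LinearMap.mem_ker, sumL_TT, h]
  have h1 : FB rk B c x (TT E rk t c x) = 0 := (hS.lag e he x hxP).2 hx _ hT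
  have h2 : ∑ w : Wc rk c, t w.1 * q (x w) = 0 := by
    rw [FB_apply] at h1
    refine Eq.trans (Finset.sum_congr rfl fun w _ => ?_) h1
    rw [TT_apply, map_smul, hS.diag w.1 w.2 _ (hxP w).1, smul_eq_mul]
  let q' : E →+ K := ⟨⟨q, hA.zero⟩, hA.add⟩
  let X : Finset Q → E := fun S => ∑ w : Wc rk c, if S = {w.1} then x w else 0
  have hX : ∀ w : Wc rk c, X {w.1} = x w := by
    intro w
    show (∑ w' : Wc rk c, if ({w.1} : Finset Q) = {w'.1} then x w' else 0) = x w
    rw [Finset.sum_eq_single w]
    · rw [if_pos rfl]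
    · intro w' _ hw'
      rw [if_neg]
      intro h3
      exact hw' (Subtype.ext (Finset.singleton_injective h3).symm)
    · intro h3
      exact absurd (Finset.mem_univ _) h3
  have hX0 : X = 0 := by
    refine hA.an X ?_ ?_
    · intro S hS' u hu
      obtain ⟨w, _, hw⟩ := Finset.exists_ne_zero_of_sum_ne_zero hS'
      have h3 : S = {w.1} := by
        by_contra h4
        exact hw (if_neg h4)
      rw [h3, Finset.mem_singleton] at hu
      rw [hu, w.2]
      exact ⟨hc, le_rfl⟩
    · have h3 : ∀ S : Finset Q, q (X S) = ∑ w : Wc rk c, if S = {w.1} then q (x w) else 0 := by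
        intro S
        show q' (∑ w : Wc rk c, if S = {w.1} then x w else 0) = _
        rw [map_sum]
        refine Finset.sum_congr rfl fun w _ => ?_
        by_cases h4 : S = {w.1}
        · rw [if_pos h4, if_pos h4]
          rfl
        · rw [if_neg h4, if_neg h4, map_zero]
      simp only [h3, Finset.mul_sum]
      rw [Finset.sum_comm]
      refine Eq.trans (Finset.sum_congr rfl fun w _ => ?_) h2
      rw [Finset.sum_eq_single ({w.1} : Finset Q)]
      · rw [if_pos rfl, Finset.prod_singleton]
      · intro S _ hS'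
        rw [if_neg hS', mul_zero]
      · intro h4
        exact absurd (Finset.mem_univ _) h4
  funext w
  rw [← hX w, hX0]
  rfl

/-- the form `YB` is nondegenerate on `LL S`, if all elements of `S` have rank `c - 1`: test with
the families with one entry -/
theorem YB_nondeg (hS : Stage rk t c G B q) (hA : Aniso rk t c q) (hc : 1 ≤ c) (S : Finset Q)
    (hSr : ∀ e ∈ S, rk e + 1 = c) (y : Q → Wc rk c → E) (hy : y ∈ LL rk G c S)
    (h : ∀ y' ∈ LL rk G c S, YB rk t B c S y y' = 0) : y = 0 := by
  classical
  funext e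
  by_cases he : e ∈ S
  · have hye : y e ∈ ZZ rk G c e := (hy e).1
    have hTP : TT E rk t c (y e) ∈ PM rk G c e := TT_mem_PM (ZZ_le_PM hye)
    have h1 : TT E rk t c (y e) ∈ ZZ rk G c e := by
      rw [← hS.lag e (hSr e he) _ hTP]
      intro z hz
      have h2 := h (Pi.single e z) (by
        intro e'
        by_cases h3 : e' = e
        · subst h3
          rw [Pi.single_eq_same]
          exact ⟨hz, fun _ => he⟩
        · rw [Pi.single_eq_of_ne h3]
          exact ⟨Submodule.zero_mem _, fun h4 => absurd rfl h4⟩)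
      rw [YB_apply, Finset.sum_eq_single e] at h2
      · rw [Pi.single_eq_same, FB_TT] at h2
        exact h2
      · intro e' _ he'
        rw [Pi.single_eq_of_ne he', map_zero, map_zero]
      · intro h3
        exact absurd he h3
    have h2 : twL E rk t c (y e) = 0 := by
      rw [← sumL_TT]
      exact h1.2
    exact ZZ_inj hS hA hc e (hSr e he) (y e) hye h2
  · by_contra h1
    exact he ((hy e).2 h1)

end Pool.Agent.H4.Singer2
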