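import Pool.Agent.H4.Singer2.GChTop
import Pool.Agent.H4.Singer2.GInj

/-!
# Singer project, second part: stresses on chains, the end
-/

set_option autoImplicit false
set_option linter.unusedSectionVars false

open Finset

namespace Pool.Agent.H4.Singer2

variable {Q : Type} [PartialOrder Q] [Fintype Q] [DecidableEq Q] {K : Type} [Field K] {E : Type}
  [AddCommGroup E] [Module K E]

/-- the end: `x w = z {w}` is an element of `ZZ b` (`b` is the least element, of rank `0`) with
weighted sum zero; use `ZZ_inj` -/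
theorem chain_zero [CharP K 2] {rk : Q → ℕ} (hlt : ∀ x y, x < y → rk x < rk y) {t : Q → K}
    {G : Q → Submodule K E} {B : Q → E →ₗ[K] E →ₗ[K] K} {q : E → K} (hS : Stage rk t 1 G B q)
    (hA : Aniso rk t 1 q) (b : Q) (hb : ∀ x, b ≤ x) (hb0 : rk b = 0) (z : Finset Q → E)
    (hz : EStress rk t 0 G z) : z = 0 := by
  classical
  have hrk : ∀ v, z {v} ≠ 0 → rk v = 1 := by
    intro v hne
    obtain ⟨h1, h2⟩ := (hz.supp _ hne).2.2 v (Finset.mem_singleton_self v)
    obtain ⟨m, hm⟩ := h1
    omega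
  have hA' : ∀ (cf : Q → K), (∀ τ, ∑ v ∈ τᶜ, cf v • z (insert v τ) = 0) →
      ∑ w : Wc rk 1, cf w.1 • z {w.1} = 0 := by
    intro cf hcf
    have h1 := hcf ∅
    rw [Finset.compl_empty] at h1
    rw [← h1]
    have e1 : ∑ w : Wc rk 1, cf w.1 • z {w.1} =
        ∑ w ∈ univ.filter (fun w => rk w = 1), cf w • z {w} := by
      rw [← Finset.sum_subtype_eq_sum_filter (s := univ) (f := fun w => cf w • z {w})]
      rw [Finset.subtype_univ]
    rw [e1]
    rw [Finset.sum_filter]
    refine Finset.sum_congr rfl fun v _ => ?_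
    by_cases h2 : rk v = 1
    · rw [if_pos h2]
      rfl
    · rw [if_neg h2]
      have h3 : z {v} = 0 := by
        by_contra h4
        exact h2 (hrk v h4)
      have h4 : z (insert v ∅) = 0 := h3
      rw [h4, smul_zero]
  obtain ⟨x, hx⟩ : ∃ x : Wc rk 1 → E, ∀ w, x w = z {w.1} := ⟨_, fun _ => rfl⟩
  have hxZ : x ∈ ZZ rk G 1 b := by
    rw [mem_ZZ]
    refine ⟨?_, ?_⟩
    · intro w
      rw [hx]
      exact ⟨hz.mem _ _ (Finset.mem_singleton_self _) w.2, fun _ => hb _⟩
    · rw [← hA' (fun _ => (1 : K)) (fun τ => by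
        rw [← hz.sum τ]
        exact Finset.sum_congr rfl fun v _ => one_smul _ _)]
      refine Finset.sum_congr rfl fun w _ => ?_
      rw [hx]
      exact (one_smul K _).symm
  have h0 : x = 0 := by
    refine ZZ_inj hS hA (le_refl 1) b (by omega) x hxZ ?_
    rw [twL_apply, ← hA' t hz.wsum]
    refine Finset.sum_congr rfl fun w _ => ?_
    rw [hx]
  funext φ
  rw [Pi.zero_apply]
  by_contra hne
  have h1 := hz.supp φ hne
  obtain ⟨w, rfl⟩ := Finset.card_eq_one.1 (show φ.card = 1 from h1.1)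
  have h2 := hx ⟨w, hrk w hne⟩
  rw [h0] at h2
  exact hne h2.symm

end Pool.Agent.H4.Singer2
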