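import Pool.Agent.H4.Singer2.GChTop

/-!
# Singer project, second part: stresses on chains, the step
-/

set_option autoImplicit false
set_option linter.unusedSectionVars false

open Finset

namespace Pool.Agent.H4.Singer2

variable {Q : Type} [PartialOrder Q] [Fintype Q] [DecidableEq Q] {K : Type} [Field K] {E : Type}
  [AddCommGroup E] [Module K E]

private theorem GChain_erase {rk : Q → ℕ} (hlt : ∀ x y, x < y → rk x < rk y) {k : ℕ}
    {φ : Finset Q} (h : OddCh rk (k + 1) φ) (w : Q) (hw : w ∈ φ) (hr : rk w = 2 * k + 3) :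
    OddCh rk k (φ.erase w) ∧ ∀ u ∈ φ.erase w, u < w := by
  obtain ⟨w0, h1, h2, h3⟩ := h.exists_top hlt
  have hw0 : w0 = w := by
    by_contra hne
    have h4 := hlt _ _ (h3 w hw (Ne.symm hne))
    omega
  subst hw0
  have h5 : ∀ u ∈ φ.erase w0, u < w0 := fun u hu =>
    h3 u (Finset.mem_of_mem_erase hu) (Finset.ne_of_mem_erase hu)
  refine ⟨⟨?_, ?_, ?_⟩, h5⟩
  · rw [Finset.card_erase_of_mem hw, h.1]
    rfl
  · intro u hu v hv
    exact h.2.1 u (Finset.mem_of_mem_erase hu) v (Finset.mem_of_mem_erase hv)
  · intro u hu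
    have h6 := (h.2.2 u (Finset.mem_of_mem_erase hu)).1
    have h7 := hlt _ _ (h5 u hu)
    refine ⟨h6, ?_⟩
    obtain ⟨m, hm⟩ := h6
    omega

/-- Proof. For `φ` with `OddCh rk k φ` and `w` of rank `2 k + 3` with `u < w` for all `u ∈ φ` put
`z' φ w = z (insert w φ)`, and `z' φ w = 0` in all other cases. Then `z'` is a stress with values in
`GG`: `mem` for `v ∈ φ` of rank `2 k + 1`: every `w > v` is larger than all elements of `φ`; the sums
over `w` are `hz.sum φ` and `hz.wsum φ` (if `z (insert v' φ) ≠ 0` with `v' ∉ φ` then `v'` has rank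
`2 k + 3` by `exists_top`, as the ranks of the elements of `φ` are at most `2 k + 1`). `sum`, `wsum`
at `(τ, w)`: if all elements of `τ` are `< w` these are `hz.sum (insert w τ)`,
`hz.wsum (insert w τ)`, otherwise all terms vanish. So `z' = 0` and `z = 0` by `exists_top`. -/
theorem chain_step {rk : Q → ℕ} (hlt : ∀ x y, x < y → rk x < rk y) {t : Q → K} {k : ℕ}
    {G : Q → Submodule K E} (z : Finset Q → E) (hz : EStress rk t (k + 1) G z)
    (h : ∀ z' : Finset Q → Wc rk (2 * k + 3) → E,
      EStress rk t k (GG rk t G (2 * k + 3)) z' → z' = 0) : z = 0 := by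
  classical
  obtain ⟨z', hz'⟩ : ∃ z' : Finset Q → Wc rk (2 * k + 3) → E, ∀ φ w, z' φ w =
      if OddCh rk k φ ∧ ∀ u ∈ φ, u < w.1 then z (insert w.1 φ) else 0 := ⟨_, fun _ _ => rfl⟩
  -- sums over the last element
  have hA : ∀ (cf : Q → K), (∀ τ, ∑ v ∈ τᶜ, cf v • z (insert v τ) = 0) → ∀ φ,
      ∑ w : Wc rk (2 * k + 3), cf w.1 • z' φ w = 0 := by
    intro cf hcf φ
    by_cases hφ : OddCh rk k φ
    · rw [← hcf φ]
      have e1 : ∑ w : Wc rk (2 * k + 3), cf w.1 • z' φ w =
          ∑ w ∈ univ.filter (fun w => rk w = 2 * k + 3),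
            cf w • (if ∀ u ∈ φ, u < w then z (insert w φ) else 0) := by
        rw [← Finset.sum_subtype_eq_sum_filter (s := univ)
          (f := fun w => cf w • (if ∀ u ∈ φ, u < w then z (insert w φ) else 0))]
        rw [Finset.subtype_univ]
        refine Finset.sum_congr rfl fun w _ => ?_
        rw [hz']
        by_cases h1 : ∀ u ∈ φ, u < w.1
        · rw [if_pos ⟨hφ, h1⟩, if_pos h1]
        · rw [if_neg fun h2 => h1 h2.2, if_neg h1]
      rw [e1]
      have hsub : univ.filter (fun w => rk w = 2 * k + 3) ⊆ φᶜ := by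
        intro w hw
        rw [Finset.mem_filter] at hw
        rw [Finset.mem_compl]
        intro h1
        have h2 := (hφ.2.2 w h1).2
        omega
      have key : ∀ v ∈ φᶜ, z (insert v φ) ≠ 0 → rk v = 2 * k + 3 ∧ ∀ u ∈ φ, u < v := by
        intro v hv hne
        rw [Finset.mem_compl] at hv
        obtain ⟨w0, h1, h2, h3⟩ := (hz.supp _ hne).exists_top hlt
        have hw0 : w0 = v := by
          rcases Finset.mem_insert.1 h1 with h4 | h4
          · exact h4
          · have h5 := (hφ.2.2 w0 h4).2
            omega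
        subst hw0
        refine ⟨by omega, fun u hu => h3 u (Finset.mem_insert_of_mem hu) ?_⟩
        rintro rfl
        exact hv hu
      rw [← Finset.sum_subset hsub]
      · refine Finset.sum_congr rfl fun w hw => ?_
        by_cases h1 : ∀ u ∈ φ, u < w
        · rw [if_pos h1]
        · rw [if_neg h1]
          by_cases h2 : z (insert w φ) = 0
          · rw [h2]
          · exact absurd (key w (hsub hw) h2).2 h1
      · intro v hv hv2
        by_cases h2 : z (insert v φ) = 0
        · rw [h2, smul_zero]
        · exfalso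
          apply hv2
          rw [Finset.mem_filter]
          exact ⟨Finset.mem_univ _, (key v hv h2).1⟩
    · refine Finset.sum_eq_zero fun w _ => ?_
      rw [hz', if_neg fun h1 => hφ h1.1, smul_zero]
  have hB : ∀ (cf : Q → K), (∀ τ, ∑ v ∈ τᶜ, cf v • z (insert v τ) = 0) → ∀ τ,
      ∑ v ∈ τᶜ, cf v • z' (insert v τ) = 0 := by
    intro cf hcf τ
    funext w
    rw [Finset.sum_apply, Pi.zero_apply]
    have e1 : ∑ v ∈ τᶜ, (cf v • z' (insert v τ)) w = ∑ v ∈ τᶜ, cf v • z' (insert v τ) w :=
      Finset.sum_congr rfl fun v _ => rfl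
    rw [e1]
    by_cases hτ : ∀ u ∈ τ, u < w.1
    · have hw : w.1 ∉ τ := fun h1 => lt_irrefl _ (hτ _ h1)
      rw [← hcf (insert w.1 τ)]
      have hsub : (insert w.1 τ)ᶜ ⊆ τᶜ := by
        intro v hv
        rw [Finset.mem_compl] at hv ⊢
        exact fun h1 => hv (Finset.mem_insert_of_mem h1)
      rw [← Finset.sum_subset hsub]
      · refine Finset.sum_congr rfl fun v hv => ?_
        congr 1
        rw [hz', Finset.insert_comm w.1 v τ]
        by_cases h2 : z (insert v (insert w.1 τ)) = 0
        · rw [h2, ite_self]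
        · rw [if_pos]
          have h3 := GChain_erase hlt (hz.supp _ h2) w.1
            (Finset.mem_insert_of_mem (Finset.mem_insert_self _ _)) w.2
          have h4 : (insert v (insert w.1 τ)).erase w.1 = insert v τ := by
            rw [Finset.insert_comm v w.1 τ, Finset.erase_insert]
            rw [Finset.mem_insert]
            rintro (h5 | h5)
            · rw [Finset.mem_compl] at hv
              exact hv (by rw [h5]; exact Finset.mem_insert_self _ _)
            · exact hw h5
          rw [h4] at h3
          exact h3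
      · intro v hv hv2
        have hvw : v = w.1 := by
          rw [Finset.mem_compl] at hv hv2
          by_contra hne
          apply hv2
          intro h5
          rcases Finset.mem_insert.1 h5 with h6 | h6
          · exact hne h6
          · exact hv h6
        rw [hz', if_neg, smul_zero]
        rintro ⟨-, h5⟩
        have h6 := h5 v (Finset.mem_insert_self _ _)
        rw [hvw] at h6
        exact lt_irrefl _ h6
    · refine Finset.sum_eq_zero fun v _ => ?_
      rw [hz', if_neg, smul_zero]
      rintro ⟨-, h5⟩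
      exact hτ fun u hu => h5 u (Finset.mem_insert_of_mem hu)
  have hone : ∀ τ, ∑ v ∈ τᶜ, (fun _ => (1 : K)) v • z (insert v τ) = 0 := by
    intro τ
    rw [← hz.sum τ]
    exact Finset.sum_congr rfl fun v _ => one_smul _ _
  have hst : EStress rk t k (GG rk t G (2 * k + 3)) z' := by
    refine ⟨?_, ?_, ?_, ?_⟩
    · intro φ hne
      by_contra h1
      apply hne
      funext w
      rw [hz', if_neg fun h2 => h1 h2.1]
      rfl
    · intro φ v hv hr
      rw [mem_GG]
      refine ⟨⟨?_, ?_⟩, hA t hz.wsum φ⟩
      · intro w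
        rw [hz']
        by_cases h1 : OddCh rk k φ ∧ ∀ u ∈ φ, u < w.1
        · rw [if_pos h1]
          exact ⟨hz.mem _ _ (Finset.mem_insert_self _ _) w.2, fun _ => (h1.2 v hv).le⟩
        · rw [if_neg h1]
          exact ⟨Submodule.zero_mem _, fun h2 => absurd rfl h2⟩
      · rw [← hA (fun _ => (1 : K)) hone φ]
        exact Finset.sum_congr rfl fun w _ => (one_smul _ _).symm
    · intro τ
      rw [← hB (fun _ => (1 : K)) hone τ]
      exact Finset.sum_congr rfl fun v _ => (one_smul _ _).symm
    · exact hB t hz.wsum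
  have h0 := h z' hst
  funext φ
  rw [Pi.zero_apply]
  by_contra hne
  have h1 := hz.supp φ hne
  obtain ⟨w, h2, h3, -⟩ := h1.exists_top hlt
  have h4 := GChain_erase hlt h1 w h2 (by omega)
  have h5 := hz' (φ.erase w) ⟨w, by omega⟩
  rw [if_pos h4, h0] at h5
  simp only [Finset.insert_erase h2] at h5
  exact hne h5.symm

end Pool.Agent.H4.Singer2
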