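import Pool.Agent.H4.Singer2.GBasic

/-!
# Singer project, second part: exactness with coefficients
-/

set_option autoImplicit false
set_option linter.unusedSectionVars false

open Finset

namespace Pool.Agent.H4.Singer2

variable {Q : Type} [PartialOrder Q] [Fintype Q]

private theorem coef_aux (rk : Q → ℕ) (A B C : Q → Prop)
    (h : ∀ z : Q → ZMod 2, (∀ y, z y ≠ 0 → A y) → (∀ x, C x → pd rk z x = 0) →
      ∃ y : Q → ZMod 2, (∀ x, y x ≠ 0 → B x) ∧ ∀ x, C x → pd rk y x = z x)
    (M : Type) [AddCommGroup M] (hM : ∀ m : M, m + m = 0) (z : Q → M)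
    (hz : ∀ y, z y ≠ 0 → A y) (hz' : ∀ x, C x → pd rk z x = 0) :
    ∃ y : Q → M, (∀ x, y x ≠ 0 → B x) ∧ ∀ x, C x → pd rk y x = z x := by
  classical
  let _ : Module (ZMod 2) M := AddCommGroup.zmodModule (n := 2) (fun m => by
    rw [two_nsmul]
    exact hM m)
  let b := Module.Basis.ofVectorSpace (ZMod 2) M
  have hc : ∀ i, ∃ y : Q → ZMod 2, (∀ x, y x ≠ 0 → B x) ∧
      ∀ x, C x → pd rk y x = b.repr (z x) i := by
    intro i
    refine h (fun x => b.repr (z x) i) ?_ ?_
    · intro y hy
      refine hz y fun h0 => hy ?_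
      show b.repr (z y) i = 0
      rw [h0, map_zero]
      rfl
    · intro x hx
      have h1 := map_pd (b.coord i).toAddMonoidHom rk z x
      rw [hz' x hx, map_zero] at h1
      exact h1.symm
  choose Y hY1 hY2 using hc
  let S : Finset _ := Finset.univ.biUnion fun x : Q => (b.repr (z x)).support
  refine ⟨fun x => ∑ i ∈ S, Y i x • b i, ?_, ?_⟩
  · intro x hx
    by_contra hB
    apply hx
    refine Finset.sum_eq_zero fun i _ => ?_
    have : Y i x = 0 := by
      by_contra h0
      exact hB (hY1 i x h0)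
    rw [this, zero_smul]
  · intro x hx
    have h1 : pd rk (fun x => ∑ i ∈ S, Y i x • b i) x = ∑ i ∈ S, pd rk (Y i) x • b i := by
      simp only [pd_eq]
      rw [Finset.sum_comm]
      refine Finset.sum_congr rfl fun i _ => ?_
      rw [Finset.sum_smul]
    rw [h1]
    have h2 : ∑ i ∈ S, pd rk (Y i) x • b i = ∑ i ∈ S, b.repr (z x) i • b i :=
      Finset.sum_congr rfl fun i _ => by rw [hY2 i x hx]
    rw [h2]
    have h3 : (b.repr (z x)).support ⊆ S :=
      Finset.subset_biUnion_of_mem (fun x : Q => (b.repr (z x)).support) (Finset.mem_univ x)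
    have h4 := b.linearCombination_repr (z x)
    rw [Finsupp.linearCombination_apply, Finsupp.sum] at h4
    rw [← Finset.sum_subset h3, h4]
    intro i _ hi
    rw [Finsupp.notMem_support_iff.1 hi, zero_smul]

/-- Exactness over `𝔽₂` implies exactness with coefficients in every `𝔽₂`-vector space `M`: write
`z y = ∑ i, (z i y) • b i` with a basis `b` of `M` (a module over `ZMod 2` by
`AddCommGroup.zmodModule`), where only finitely many `i` occur; every `z i : Q → ZMod 2` satisfies
the hypotheses. -/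
theorem exI_coef (rk : Q → ℕ) (h : ExI rk (ZMod 2)) (M : Type) [AddCommGroup M]
    (hM : ∀ m : M, m + m = 0) : ExI rk M := by
  intro a w r h1 h2 z hz hz'
  exact coef_aux rk (fun y => a ≤ y ∧ y ≤ w ∧ rk y = r) (fun x => a ≤ x ∧ x ≤ w ∧ rk x = r + 1)
    (fun x => a ≤ x) (h a w r h1 h2) M hM z hz hz'

theorem exT_coef (rk : Q → ℕ) (n : ℕ) (h : ExT rk n (ZMod 2)) (M : Type) [AddCommGroup M]
    (hM : ∀ m : M, m + m = 0) : ExT rk n M := by
  intro a r h1 h2 z hz hz'
  exact coef_aux rk (fun y => a ≤ y ∧ rk y = r) (fun x => a ≤ x ∧ rk x = r + 1)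
    (fun x => a ≤ x) (h a r h1 h2) M hM z hz hz'

end Pool.Agent.H4.Singer2
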