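import Pool.Agent.H4.Singer.StressMap

/-!
# Singer project, second part: graded posets with local exactness, and the spaces of the induction

`Q` is a finite poset with a rank function `rk`, `K` is a field of characteristic two, `E` is a
vector space over `K`.
-/

set_option autoImplicit false
set_option linter.unusedSectionVars false

open Finset

namespace Pool.Agent.H4.Singer2

section Poset

variable {Q : Type} [PartialOrder Q] [Fintype Q]

open Classical in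
/-- the boundary of a function on `Q`: the sum over the elements `y > x` with `rk y = rk x + 1` -/
noncomputable def pd (rk : Q → ℕ) {M : Type} [AddCommMonoid M] (f : Q → M) (x : Q) : M :=
  ∑ y ∈ univ.filter (fun y => x < y ∧ rk y = rk x + 1), f y

/-- all closed intervals `[a, w]` are acyclic, with coefficients in `M` -/
def ExI (rk : Q → ℕ) (M : Type) [AddCommMonoid M] : Prop :=
  ∀ (a w : Q) (r : ℕ), rk a ≤ r → r < rk w → ∀ z : Q → M,
    (∀ y, z y ≠ 0 → a ≤ y ∧ y ≤ w ∧ rk y = r) → (∀ x, a ≤ x → pd rk z x = 0) →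
    ∃ y : Q → M, (∀ x, y x ≠ 0 → a ≤ x ∧ x ≤ w ∧ rk x = r + 1) ∧ ∀ x, a ≤ x → pd rk y x = z x

/-- the sets of all elements above `a` are acyclic below the top rank `n`, with coefficients in
`M` -/
def ExT (rk : Q → ℕ) (n : ℕ) (M : Type) [AddCommMonoid M] : Prop :=
  ∀ (a : Q) (r : ℕ), rk a ≤ r → r < n → ∀ z : Q → M,
    (∀ y, z y ≠ 0 → a ≤ y ∧ rk y = r) → (∀ x, a ≤ x → pd rk z x = 0) →
    ∃ y : Q → M, (∀ x, y x ≠ 0 → a ≤ x ∧ rk x = r + 1) ∧ ∀ x, a ≤ x → pd rk y x = z x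

/-- a finite graded poset (with all maximal elements of rank `n`) that looks like the set of faces
(with the empty face) of a regular cell complex which is an `𝔽₂`-homology sphere of dimension
`n - 1` -/
structure GPos (rk : Q → ℕ) (n : ℕ) : Prop where
  lt : ∀ x y, x < y → rk x < rk y
  le_n : ∀ x, rk x ≤ n
  mid : ∀ x y, x < y → ∃ z, x ≤ z ∧ z < y ∧ rk z + 1 = rk y
  up : ∀ x, ∃ w, x ≤ w ∧ rk w = n
  thin : ∀ x y, x < y → rk y = rk x + 2 → ∃ a b, a ≠ b ∧ ∀ z, (x < z ∧ z < y) ↔ (z = a ∨ z = b)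
  top : ∀ x, rk x + 1 = n → ∃ a b, a ≠ b ∧ ∀ z, x < z ↔ (z = a ∨ z = b)
  exI : ExI rk (ZMod 2)
  exT : ExT rk n (ZMod 2)

end Poset

section Spaces

variable {Q : Type} [PartialOrder Q] [Fintype Q] {K : Type} [Field K] {E : Type} [AddCommGroup E]
  [Module K E]

/-- the elements of rank `c` -/
abbrev Wc (rk : Q → ℕ) (c : ℕ) : Type := {w : Q // rk w = c}

/-- families `x w ∈ G w`, over the elements `w` of rank `c`, which vanish unless `w ≥ σ` -/
def PM (rk : Q → ℕ) (G : Q → Submodule K E) (c : ℕ) (σ : Q) : Submodule K (Wc rk c → E) where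
  carrier := {x | ∀ w : Wc rk c, x w ∈ G w.1 ∧ (x w ≠ 0 → σ ≤ w.1)}
  zero_mem' := fun _ => ⟨Submodule.zero_mem _, fun h => absurd rfl h⟩
  add_mem' := by
    intro x y hx hy w
    refine ⟨Submodule.add_mem _ (hx w).1 (hy w).1, fun h => ?_⟩
    by_cases h1 : x w = 0
    · by_cases h2 : y w = 0
      · exact absurd (by simp [h1, h2]) h
      · exact (hy w).2 h2
    · exact (hx w).2 h1
  smul_mem' := by
    intro r x hx w
    refine ⟨Submodule.smul_mem _ _ (hx w).1, fun h => (hx w).2 fun h1 => h ?_⟩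
    simp [h1]

/-- the sum of a family -/
def sumL (K : Type) [Field K] {E : Type} [AddCommGroup E] [Module K E] (rk : Q → ℕ) (c : ℕ) :
    (Wc rk c → E) →ₗ[K] E :=
  ∑ w, LinearMap.proj w

/-- the weighted sum of a family -/
def twL (E : Type) [AddCommGroup E] [Module K E] (rk : Q → ℕ) (t : Q → K) (c : ℕ) :
    (Wc rk c → E) →ₗ[K] E :=
  ∑ w : Wc rk c, t w.1 • LinearMap.proj w

/-- multiplication of a family by the weights -/
def TT (E : Type) [AddCommGroup E] [Module K E] (rk : Q → ℕ) (t : Q → K) (c : ℕ) :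
    (Wc rk c → E) →ₗ[K] (Wc rk c → E) where
  toFun x w := t w.1 • x w
  map_add' x y := by
    funext w
    simp
  map_smul' r x := by
    funext w
    simp only [Pi.smul_apply, RingHom.id_apply]
    rw [smul_comm]

/-- the sum of the spaces `G w`, `w ≥ σ` of rank `c` -/
def NN (rk : Q → ℕ) (G : Q → Submodule K E) (c : ℕ) (σ : Q) : Submodule K E :=
  (PM rk G c σ).map (sumL K rk c)

/-- families with sum zero -/
def ZZ (rk : Q → ℕ) (G : Q → Submodule K E) (c : ℕ) (σ : Q) : Submodule K (Wc rk c → E) :=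
  PM rk G c σ ⊓ LinearMap.ker (sumL K rk c)

/-- families with sum zero and weighted sum zero: the spaces of the next step -/
def GG (rk : Q → ℕ) (t : Q → K) (G : Q → Submodule K E) (c : ℕ) (σ : Q) :
    Submodule K (Wc rk c → E) :=
  ZZ rk G c σ ⊓ LinearMap.ker (twL E rk t c)

/-- the form on families -/
noncomputable def FB (rk : Q → ℕ) (B : Q → E →ₗ[K] E →ₗ[K] K) (c : ℕ) :
    (Wc rk c → E) →ₗ[K] (Wc rk c → E) →ₗ[K] K :=
  ∑ w : Wc rk c, (B w.1).compl₁₂ (LinearMap.proj w) (LinearMap.proj w)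

open Classical in
/-- the restriction of a family to the elements `w ≥ e` -/
noncomputable def res (K : Type) [Field K] {E : Type} [AddCommGroup E] [Module K E] (rk : Q → ℕ)
    (c : ℕ) (e : Q) : (Wc rk c → E) →ₗ[K] (Wc rk c → E) where
  toFun x w := if e ≤ w.1 then x w else 0
  map_add' x y := by
    funext w
    by_cases h : e ≤ w.1 <;> simp [h]
  map_smul' r x := by
    funext w
    by_cases h : e ≤ w.1 <;> simp [h]

theorem mem_PM {rk : Q → ℕ} {G : Q → Submodule K E} {c : ℕ} {σ : Q} {x : Wc rk c → E} :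
    x ∈ PM rk G c σ ↔ ∀ w : Wc rk c, x w ∈ G w.1 ∧ (x w ≠ 0 → σ ≤ w.1) := Iff.rfl

theorem sumL_apply {rk : Q → ℕ} {c : ℕ} (x : Wc rk c → E) : sumL K rk c x = ∑ w, x w := by
  simp [sumL]

theorem twL_apply {rk : Q → ℕ} {t : Q → K} {c : ℕ} (x : Wc rk c → E) :
    twL E rk t c x = ∑ w : Wc rk c, t w.1 • x w := by
  simp [twL]

theorem TT_apply {rk : Q → ℕ} {t : Q → K} {c : ℕ} (x : Wc rk c → E) (w : Wc rk c) :
    TT E rk t c x w = t w.1 • x w := rfl

theorem mem_NN {rk : Q → ℕ} {G : Q → Submodule K E} {c : ℕ} {σ : Q} {g : E} :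
    g ∈ NN rk G c σ ↔ ∃ x ∈ PM rk G c σ, ∑ w, x w = g := by
  simp only [NN, Submodule.mem_map, sumL_apply]

theorem mem_ZZ {rk : Q → ℕ} {G : Q → Submodule K E} {c : ℕ} {σ : Q} {x : Wc rk c → E} :
    x ∈ ZZ rk G c σ ↔ x ∈ PM rk G c σ ∧ ∑ w, x w = 0 := by
  simp only [ZZ, Submodule.mem_inf, LinearMap.mem_ker, sumL_apply]

theorem mem_GG {rk : Q → ℕ} {t : Q → K} {G : Q → Submodule K E} {c : ℕ} {σ : Q}
    {x : Wc rk c → E} :
    x ∈ GG rk t G c σ ↔ (x ∈ PM rk G c σ ∧ ∑ w, x w = 0) ∧ ∑ w : Wc rk c, t w.1 • x w = 0 := by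
  simp only [GG, ZZ, Submodule.mem_inf, LinearMap.mem_ker, sumL_apply, twL_apply]

theorem FB_apply {rk : Q → ℕ} {B : Q → E →ₗ[K] E →ₗ[K] K} {c : ℕ} (x y : Wc rk c → E) :
    FB rk B c x y = ∑ w : Wc rk c, B w.1 (x w) (y w) := by
  simp [FB]

open Classical in
theorem res_apply {rk : Q → ℕ} {c : ℕ} {e : Q} (x : Wc rk c → E) (w : Wc rk c) :
    res K rk c e x w = if e ≤ w.1 then x w else 0 := rfl

/-- exactness at rank `r` of the complex of the families `y σ ∈ N σ`, `σ ≥ τ` -/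
def ExactAt (rk : Q → ℕ) (N : Q → Submodule K E) (τ : Q) (r : ℕ) : Prop :=
  ∀ y : Q → E, (∀ σ, y σ ∈ N σ ∧ (y σ ≠ 0 → τ ≤ σ ∧ rk σ = r)) →
    (∀ ρ, τ ≤ ρ → pd rk y ρ = 0) →
    ∃ h : Q → E, (∀ σ, h σ ∈ N σ ∧ (h σ ≠ 0 → τ ≤ σ ∧ rk σ = r + 1)) ∧
      ∀ ρ, τ ≤ ρ → pd rk h ρ = y ρ

/-- anisotropy: `q` is a function on `E` (a diagonal quadratic form); the forms `tˢ q` for the
finite sets `S` of elements of rank between `1` and `c` are jointly anisotropic -/
structure Aniso (rk : Q → ℕ) (t : Q → K) (c : ℕ) (q : E → K) : Prop where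
  zero : q 0 = 0
  add : ∀ x y, q (x + y) = q x + q y
  an : ∀ x : Finset Q → E, (∀ S, x S ≠ 0 → ∀ u ∈ S, 1 ≤ rk u ∧ rk u ≤ c) →
    ∑ S, (∏ u ∈ S, t u) * q (x S) = 0 → x = 0

/-- the data of one step of the induction -/
structure Stage (rk : Q → ℕ) (t : Q → K) (c : ℕ) (G : Q → Submodule K E)
    (B : Q → E →ₗ[K] E →ₗ[K] K) (q : E → K) : Prop where
  ex : ∀ τ r, rk τ ≤ r → r < c → ExactAt rk (NN rk G c) τ r
  symm : ∀ w x y, B w x y = B w y x
  nondeg : ∀ w, rk w = c → ∀ x ∈ G w, (∀ y ∈ G w, B w x y = 0) → x = 0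
  diag : ∀ w, rk w = c → ∀ x ∈ G w, B w x x = q x
  lag : ∀ e, rk e + 1 = c → ∀ x ∈ PM rk G c e,
    (∀ y ∈ ZZ rk G c e, FB rk B c x y = 0) ↔ x ∈ ZZ rk G c e

end Spaces

end Pool.Agent.H4.Singer2
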