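import Pool.Agent.H4.Singer2.GLin

/-!
# Singer project, second part: the kernel of `∂` on `LL (cov v)`
-/

set_option autoImplicit false
set_option linter.unusedSectionVars false

open Finset

namespace Pool.Agent.H4.Singer2

variable {Q : Type} [PartialOrder Q] [Fintype Q] {K : Type} [Field K] [CharP K 2] {E : Type}
  [AddCommGroup E] [Module K E] {rk : Q → ℕ} {c : ℕ} {G : Q → Submodule K E}

/-- Let `y ∈ LL (cov v)` with `∂ y = 0` at `v`. For `w > v` of rank `c = rk v + 2` there are exactly
two elements `a, b` between `v` and `w` (`hQ.thin`), so `y a w + y b w = 0`, `y a w = y b w`; put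
`g w = y a w` (and `g w = 0` if `w` is not `> v`). Then `y = iot g`. -/
theorem ker_pd {n : ℕ} (hQ : GPos rk n) (v : Q) (hv : rk v + 2 = c) (y : Q → Wc rk c → E)
    (hy : y ∈ LL rk G c (cov rk v)) (h0 : pd rk y v = 0) :
    ∃ g ∈ XX rk G c v, iot K rk c v g = y := by
  classical
  -- `y e w` does not depend on `e` between `v` and `w`
  have key : ∀ (w : Wc rk c) (e e' : Q), v < e → e < w.1 → v < e' → e' < w.1 →
      y e w = y e' w := by
    intro w e e' h1 h2 h3 h4
    have hvw : v < w.1 := h1.trans h2
    have hrk : rk w.1 = rk v + 2 := by rw [w.2, hv]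
    obtain ⟨a, b, hab, h⟩ := hQ.thin v w.1 hvw hrk
    have hcov : ∀ z, (z ∈ cov rk v ∧ z < w.1) ↔ (z = a ∨ z = b) := by
      intro z
      rw [← h z, mem_cov]
      constructor
      · rintro ⟨⟨h5, -⟩, h6⟩
        exact ⟨h5, h6⟩
      · rintro ⟨h5, h6⟩
        have h7 := hQ.lt _ _ h5
        have h8 := hQ.lt _ _ h6
        exact ⟨⟨h5, by omega⟩, h6⟩
    have h7 : pd rk y v w = 0 := by rw [h0, Pi.zero_apply]
    rw [pd_apply, pd_eq] at h7
    have h8 : y a w + y b w = ∑ z ∈ cov rk v, y z w := by
      rw [← Finset.sum_pair (f := fun z => y z w) hab]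
      apply Finset.sum_subset
      · intro z hz
        rw [Finset.mem_insert, Finset.mem_singleton] at hz
        exact ((hcov z).2 hz).1
      · intro z hz hz'
        by_contra hne
        have h9 : z ≤ w.1 := ((mem_ZZ.1 (hy z).1).1 w).2 hne
        have h10 : z < w.1 := by
          refine lt_of_le_of_ne h9 fun h11 => ?_
          have h12 := (mem_cov.1 hz).2
          rw [h11] at h12
          omega
        apply hz'
        rw [Finset.mem_insert, Finset.mem_singleton]
        exact (hcov z).1 ⟨hz, h10⟩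
    have h9 : y a w = y b w :=
      add_right_cancel ((h8.trans h7).trans (add_self_eq_zero' K (y b w)).symm)
    rcases (h e).1 ⟨h1, h2⟩ with rfl | rfl <;> rcases (h e').1 ⟨h3, h4⟩ with rfl | rfl
    · rfl
    · exact h9
    · exact h9.symm
    · rfl
  let g : Wc rk c → E := fun w => if h : ∃ e, v < e ∧ e < w.1 then y h.choose w else 0
  have hg : ∀ (w : Wc rk c) (e : Q), v < e → e < w.1 → g w = y e w := by
    intro w e h1 h2
    have h : ∃ e, v < e ∧ e < w.1 := ⟨e, h1, h2⟩
    have h3 : g w = y h.choose w := dif_pos h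
    rw [h3]
    exact key w _ _ h.choose_spec.1 h.choose_spec.2 h1 h2
  have hres : ∀ e, e ∈ cov rk v → res K rk c e g = y e := by
    intro e he
    rw [mem_cov] at he
    funext w
    rw [res_apply]
    split_ifs with h
    · refine hg w e he.1 (lt_of_le_of_ne h fun h1 => ?_)
      have h2 := he.2
      rw [h1, w.2] at h2
      omega
    · by_contra h1
      exact h (((mem_ZZ.1 (hy e).1).1 w).2 fun h2 => h1 h2.symm)
  refine ⟨g, ?_, ?_⟩
  · rw [mem_XX]
    constructor
    · intro w
      by_cases h : ∃ e, v < e ∧ e < w.1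
      · obtain ⟨e, h1, h2⟩ := h
        rw [hg w e h1 h2]
        exact ⟨((mem_ZZ.1 (hy e).1).1 w).1, fun _ => (h1.trans h2).le⟩
      · have h1 : g w = 0 := dif_neg h
        rw [h1]
        exact ⟨Submodule.zero_mem _, fun h2 => absurd rfl h2⟩
    · intro e h1 h2
      rw [hres e (mem_cov.2 ⟨h1, h2⟩)]
      exact (hy e).1
  · funext e
    rw [iot_apply]
    split_ifs with h
    · exact hres e h
    · by_contra h1
      exact h ((hy e).2 fun h2 => h1 h2.symm)

end Pool.Agent.H4.Singer2
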