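import Pool.Agent.H4.Singer2.GOrth
import Pool.Agent.H4.Singer2.GKer

/-!
# Singer project, second part: the forms of the next step
-/

set_option autoImplicit false
set_option linter.unusedSectionVars false

open Finset

namespace Pool.Agent.H4.Singer2

variable {Q : Type} [PartialOrder Q] [Fintype Q] {K : Type} [Field K] [CharP K 2] {E : Type}
  [AddCommGroup E] [Module K E]

/-- the form `B'` on `GG v` is induced from the form `YB` via `∂` -/
def IsForm (rk : Q → ℕ) (t : Q → K) (c : ℕ) (G : Q → Submodule K E) (B : Q → E →ₗ[K] E →ₗ[K] K)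
    (v : Q) (B' : (Wc rk c → E) →ₗ[K] (Wc rk c → E) →ₗ[K] K) : Prop :=
  ∀ y ∈ LL rk G c (cov rk v), ∀ y' ∈ LL rk G c (cov rk v), pd rk y v ∈ GG rk t G c v →
    pd rk y' v ∈ GG rk t G c v → B' (pd rk y v) (pd rk y' v) = YB rk t B c (cov rk v) y y'

variable {rk : Q → ℕ} {t : Q → K} {c : ℕ} {G : Q → Submodule K E} {B : Q → E →ₗ[K] E →ₗ[K] K}
  {q : E → K}

/-- the boundary at `v` as a linear map -/
noncomputable def pdAt (K : Type) [Field K] (E : Type) [AddCommGroup E] [Module K E] (rk : Q → ℕ)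
    (c : ℕ) (v : Q) : (Q → Wc rk c → E) →ₗ[K] (Wc rk c → E) where
  toFun y := pd rk y v
  map_add' y y' := pd_add rk y y' v
  map_smul' r y := pd_smul rk r y v

theorem pdAt_apply (v : Q) (y : Q → Wc rk c → E) : pdAt K E rk c v y = pd rk y v := rfl

/-- Proof. `exists_section` for the linear map `y ↦ ∂ y` at `v` and the subspace `LL (cov v)` gives
`s`; put `B' x x' = YB (s x) (s x')`. For `y, y'` as in `IsForm`, `y - s (∂ y)` is in the kernel of
`∂`, so it is `iot g` with `g ∈ XX v` (`ker_pd`), and it is orthogonal to `y'` and to `s (∂ y')`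
by `mem_GG_iff_orth`. -/
theorem exists_form [FiniteDimensional K E] {n : ℕ} (hQ : GPos rk n) (hS : Stage rk t c G B q)
    (v : Q) (hv : rk v + 2 = c) : ∃ B' : (Wc rk c → E) →ₗ[K] (Wc rk c → E) →ₗ[K] K,
      (∀ x y, B' x y = B' y x) ∧ IsForm rk t c G B v B' := by
  obtain ⟨s, hs⟩ := exists_section (pdAt K E rk c v) (LL rk G c (cov rk v))
  refine ⟨(YB rk t B c (cov rk v)).compl₁₂ s s, ?_, ?_⟩
  · intro x y
    rw [LinearMap.compl₁₂_apply, LinearMap.compl₁₂_apply]
    exact YB_symm hS.symm _ _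
  · intro y hy y' hy' hG hG'
    rw [LinearMap.compl₁₂_apply]
    -- orthogonality of the differences
    have key : ∀ z ∈ LL rk G c (cov rk v), ∀ z' ∈ LL rk G c (cov rk v),
        pd rk z' v ∈ GG rk t G c v →
        YB rk t B c (cov rk v) (z - s (pd rk z v)) z' = 0 := by
      intro z hz z' hz' hzG
      have h1 := hs z hz
      rw [pdAt_apply] at h1
      have h2 : z - s (pd rk z v) ∈ LL rk G c (cov rk v) := Submodule.sub_mem _ hz h1.1
      have h3 : pd rk (z - s (pd rk z v)) v = 0 := by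
        rw [← pdAt_apply (K := K), map_sub, h1.2, pdAt_apply, sub_self]
      obtain ⟨g, hg, hgz⟩ := ker_pd hQ v hv _ h2 h3
      rw [← hgz]
      exact (mem_GG_iff_orth hQ hS v hv z' hz').1 hzG g hg
    have h1 := hs y hy
    rw [pdAt_apply] at h1
    have h3 : pd rk (s (pd rk y v)) v = pd rk y v := h1.2
    have e1 := key y hy y' hy' hG'
    have e2 := key y' hy' (s (pd rk y v)) h1.1 (by rw [h3]; exact hG)
    rw [map_sub, LinearMap.sub_apply, sub_eq_zero] at e1
    rw [map_sub, LinearMap.sub_apply, sub_eq_zero] at e2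
    rw [e1, YB_symm hS.symm (s (pd rk y v)) y', e2]
    exact YB_symm hS.symm _ _

end Pool.Agent.H4.Singer2
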