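import Pool.Agent.H4.Singer2.GForm
import Pool.Agent.H4.Singer2.GInj

/-!
# Singer project, second part: the forms of the next step are nondegenerate, their diagonal
-/

set_option autoImplicit false
set_option linter.unusedSectionVars false

open Finset

namespace Pool.Agent.H4.Singer2

variable {Q : Type} [PartialOrder Q] [Fintype Q] {K : Type} [Field K] [CharP K 2] {E : Type}
  [AddCommGroup E] [Module K E]
  {rk : Q → ℕ} {t : Q → K} {c : ℕ} {G : Q → Submodule K E} {B : Q → E →ₗ[K] E →ₗ[K] K} {q : E → K}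

/-- Proof. Let `x = ∂ y`, `y ∈ LL (cov v)` (`exists_lift`), be orthogonal to `GG v`. If
`y' ∈ LL (cov v)` is orthogonal to `iot (XX v)`, then `∂ y' ∈ GG v`, so `YB y y' = 0`. By `dbl_orth`
(for `YB` on `LL (cov v)`, nondegenerate by `YB_nondeg`) `y ∈ iot (XX v)`, and `x = ∂ y = 0` by
`pd_iot`. -/
theorem form_nondeg [FiniteDimensional K E] {n : ℕ} (hQ : GPos rk n) (hS : Stage rk t c G B q)
    (hA : Aniso rk t c q) (v : Q) (hv : rk v + 2 = c)
    (B' : (Wc rk c → E) →ₗ[K] (Wc rk c → E) →ₗ[K] K) (hB' : IsForm rk t c G B v B')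
    (x : Wc rk c → E) (hx : x ∈ GG rk t G c v) (h : ∀ x' ∈ GG rk t G c v, B' x x' = 0) :
    x = 0 := by
  have hN := hS.ex v (rk v + 1) (Nat.le_succ _) (by omega)
  obtain ⟨y, hy, rfl⟩ := exists_lift hQ G c v hv.le hN x hx.1
  have hc : 1 ≤ c := by omega
  have hr : ∀ e ∈ cov rk v, rk e + 1 = c := by
    intro e he
    have h1 := (mem_cov.1 he).2
    omega
  have h1 : y ∈ (XX rk G c v).map (iot K rk c v) := by
    refine dbl_orth (YB rk t B c (cov rk v)) (YB_symm hS.symm) (LL rk G c (cov rk v)) _ ?_ ?_ y hy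
      ?_
    · rintro _ ⟨g, hg, rfl⟩
      exact iot_mem_LL hg
    · intro z hz h2
      exact YB_nondeg hS hA hc _ hr z hz h2
    · intro y' hy' h2
      have h3 : pd rk y' v ∈ GG rk t G c v := by
        rw [mem_GG_iff_orth hQ hS v hv y' hy']
        intro g hg
        exact h2 _ (Submodule.mem_map_of_mem hg)
      rw [← hB' y hy y' hy' hx h3]
      exact h _ h3
  obtain ⟨g, hg, rfl⟩ := h1
  exact pd_iot hQ hv hg.1

/-- Proof. `x = ∂ y` with `y ∈ LL (cov v)`, and
`B' x x = ∑ e, ∑ w, t w * B w (y e w) (y e w) = ∑ w, t w * ∑ e, q (y e w) = ∑ w, t w * q (x w)`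
as `q` is additive. -/
theorem form_diag {n : ℕ} (hQ : GPos rk n) (hS : Stage rk t c G B q)
    (hA : Aniso rk t c q) (v : Q) (hv : rk v + 2 = c)
    (B' : (Wc rk c → E) →ₗ[K] (Wc rk c → E) →ₗ[K] K) (hB' : IsForm rk t c G B v B')
    (x : Wc rk c → E) (hx : x ∈ GG rk t G c v) :
    B' x x = ∑ w : Wc rk c, t w.1 * q (x w) := by
  classical
  have hN := hS.ex v (rk v + 1) (Nat.le_succ _) (by omega)
  obtain ⟨y, hy, rfl⟩ := exists_lift hQ G c v hv.le hN x hx.1
  rw [hB' y hy y hy hx hx, YB_apply]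
  have hq : ∀ (S : Finset Q) (f : Q → E), q (∑ e ∈ S, f e) = ∑ e ∈ S, q (f e) := by
    intro S f
    induction S using Finset.induction_on with
    | empty => simp [hA.zero]
    | insert a S ha ih => rw [Finset.sum_insert ha, Finset.sum_insert ha, hA.add, ih]
  have h1 : ∀ e ∈ cov rk v, FB rk B c (y e) (TT E rk t c (y e)) =
      ∑ w : Wc rk c, t w.1 * q (y e w) := by
    intro e _
    rw [FB_apply]
    refine Finset.sum_congr rfl fun w _ => ?_
    rw [TT_apply, map_smul, smul_eq_mul, hS.diag w.1 w.2 _ ((hy e).1.1 w).1]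
  rw [Finset.sum_congr rfl h1, Finset.sum_comm]
  refine Finset.sum_congr rfl fun w _ => ?_
  rw [pd_apply, pd_eq, hq, Finset.mul_sum]

end Pool.Agent.H4.Singer2
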