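import Pool.Agent.H4.Singer2.GCoef

/-!
# Singer project, second part: exactness of the complex of the spaces `ZZ`
-/

set_option autoImplicit false
set_option linter.unusedSectionVars false

open Finset

namespace Pool.Agent.H4.Singer2

variable {Q : Type} [PartialOrder Q] [Fintype Q] {K : Type} [Field K] [CharP K 2] {E : Type}
  [AddCommGroup E] [Module K E]

/-- Proof. Let `y` be a cycle. For every `w` of rank `c` the function `σ ↦ y σ w` has values in
`G w` and is a cycle at rank `r < c` in `[τ, w]`; `exI_coef` (for `M = G w`, `a = τ`) gives `h₀ σ w`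
at rank `r + 1` with `∂ (h₀ · w) = y · w`. So `h₀ σ ∈ PM σ`. Let `N σ = ∑ w, h₀ σ w ∈ NN σ`; it is a
cycle at rank `r + 1`, so `N = ∂ g` with `g π ∈ NN π` of rank `r + 2` by `hN`. Write
`g π = ∑ w, g' π w` with `g' π ∈ PM π` (`mem_NN`; choose `g' π = 0` if `g π = 0`) and put
`h = h₀ + ∂ g'` on the elements `σ ≥ τ` of rank `r + 1` (and `h σ = 0` for the other `σ`). Then
`∂ h = y` by `pd_pd` and `∑ w, h σ w = N σ + N σ = 0`, so `h σ ∈ ZZ σ`. -/
theorem ZZ_exact {rk : Q → ℕ} {n : ℕ} (hQ : GPos rk n) (G : Q → Submodule K E) (c : ℕ) (τ : Q)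
    (r : ℕ) (hr : rk τ ≤ r) (hrc : r + 2 ≤ c) (hN : ExactAt rk (NN rk G c) τ (r + 1)) :
    ExactAt rk (ZZ rk G c) τ r := by
  classical
  intro y hy hcyc
  -- the coefficient at `w`
  have step1 : ∀ w : Wc rk c, ∃ y0 : Q → G w.1,
      (∀ x, y0 x ≠ 0 → τ ≤ x ∧ x ≤ w.1 ∧ rk x = r + 1) ∧
      ∀ x, τ ≤ x → ((pd rk y0 x : G w.1) : E) = y x w := by
    intro w
    have hmem : ∀ σ, y σ w ∈ G w.1 := fun σ => (((mem_ZZ.1 (hy σ).1).1) w).1
    have hM : ∀ m : G w.1, m + m = 0 := fun m => Subtype.ext (by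
      rw [Submodule.coe_add, Submodule.coe_zero]
      exact add_self_eq_zero' K _)
    have hw := w.2
    obtain ⟨y0, h1, h2⟩ := exI_coef rk hQ.exI (G w.1) hM τ w.1 r hr (by omega)
      (fun σ => ⟨y σ w, hmem σ⟩) (by
        intro σ hσ
        have h3 : y σ w ≠ 0 := fun h => hσ (Subtype.ext h)
        have h4 : y σ ≠ 0 := fun h => h3 (by rw [h]; rfl)
        obtain ⟨h5, h6⟩ := (hy σ).2 h4
        exact ⟨h5, (((mem_ZZ.1 (hy σ).1).1) w).2 h3, h6⟩) (by
        intro x hx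
        apply Subtype.ext
        have h3 := map_pd (G w.1).subtype.toAddMonoidHom rk
          (fun σ => (⟨y σ w, hmem σ⟩ : G w.1)) x
        have h4 := congrFun (hcyc x hx) w
        rw [pd_apply] at h4
        exact h3.trans h4)
    exact ⟨y0, h1, fun x hx => by rw [h2 x hx]⟩
  choose y0 hy0 hpd0 using step1
  let h0 : Q → Wc rk c → E := fun σ w => (y0 w σ : E)
  have hh0 : ∀ σ, h0 σ ∈ PM rk G c σ := by
    intro σ w
    refine ⟨(y0 w σ).2, fun h => (hy0 w σ fun h1 => h ?_).2.1⟩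
    change ((y0 w σ : G w.1) : E) = 0
    rw [h1]
    rfl
  have hh0' : ∀ σ, h0 σ ≠ 0 → τ ≤ σ ∧ rk σ = r + 1 := by
    intro σ h
    obtain ⟨w, hw⟩ := Function.ne_iff.1 h
    have h1 := hy0 w σ fun h1 => hw (by
      change ((y0 w σ : G w.1) : E) = 0
      rw [h1]
      rfl)
    exact ⟨h1.1, h1.2.2⟩
  have hpdh0 : ∀ ρ, τ ≤ ρ → pd rk h0 ρ = y ρ := by
    intro ρ hρ
    funext w
    rw [pd_apply, ← hpd0 w ρ hρ]
    exact (map_pd (G w.1).subtype.toAddMonoidHom rk (y0 w) ρ).symm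
  -- the sums
  have hsumpd : ∀ (f : Q → Wc rk c → E) (ρ : Q),
      pd rk (fun σ => ∑ w, f σ w) ρ = ∑ w, pd rk f ρ w := by
    intro f ρ
    rw [pd_eq, Finset.sum_comm]
    refine Finset.sum_congr rfl fun w _ => ?_
    rw [pd_apply, pd_eq]
  obtain ⟨g, hg, hpdg⟩ := hN (fun σ => ∑ w, h0 σ w) (by
    intro σ
    refine ⟨mem_NN.2 ⟨h0 σ, hh0 σ, rfl⟩, fun h => hh0' σ fun h1 => h ?_⟩
    change ∑ w, h0 σ w = 0
    rw [h1]
    simp) (by
    intro ρ hρ
    rw [hsumpd, hpdh0 ρ hρ]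
    exact (mem_ZZ.1 (hy ρ).1).2)
  have step3 : ∀ π, ∃ g' : Wc rk c → E, g' ∈ PM rk G c π ∧ ∑ w, g' w = g π := by
    intro π
    obtain ⟨x, hx, hx'⟩ := mem_NN.1 (hg π).1
    exact ⟨x, hx, hx'⟩
  choose g' hg' hsum' using step3
  refine ⟨fun σ => if τ ≤ σ ∧ rk σ = r + 1 then h0 σ + pd rk g' σ else 0, ?_, ?_⟩
  · intro σ
    constructor
    · change (if τ ≤ σ ∧ rk σ = r + 1 then h0 σ + pd rk g' σ else 0) ∈ ZZ rk G c σ
      split_ifs with h
      · rw [mem_ZZ]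
        refine ⟨Submodule.add_mem _ (hh0 σ) (pd_mem fun π h1 _ => PM_mono h1.le (hg' π)), ?_⟩
        have h2 : ∑ w, (h0 σ + pd rk g' σ) w = ∑ w, h0 σ w + ∑ w, pd rk g' σ w := by
          rw [← Finset.sum_add_distrib]
          rfl
        rw [h2, ← hsumpd g' σ]
        have h3 : pd rk (fun π => ∑ w, g' π w) σ = ∑ w, h0 σ w := by
          rw [← hpdg σ h.1]
          exact pd_congr fun π _ _ => hsum' π
        rw [h3]
        exact add_self_eq_zero' K _
      · exact Submodule.zero_mem _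
    · intro h
      by_contra h1
      exact h (if_neg h1)
  · intro ρ hρ
    by_cases h : rk ρ = r
    · have h1 : pd rk (fun σ => if τ ≤ σ ∧ rk σ = r + 1 then h0 σ + pd rk g' σ else 0) ρ =
          pd rk (h0 + fun σ => pd rk g' σ) ρ := by
        refine pd_congr fun σ h2 h3 => ?_
        rw [if_pos ⟨hρ.trans h2.le, by omega⟩]
        rfl
      rw [h1, pd_add, hpdh0 ρ hρ,
        pd_pd hQ (fun m : Wc rk c → E => add_self_eq_zero' K m) g' ρ, add_zero]
    · have h1 : pd rk (fun σ => if τ ≤ σ ∧ rk σ = r + 1 then h0 σ + pd rk g' σ else 0) ρ =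
          0 := by
        rw [pd_eq]
        refine Finset.sum_eq_zero fun σ hσ => ?_
        rw [mem_cov] at hσ
        rw [if_neg]
        rintro ⟨-, h2⟩
        omega
      rw [h1]
      by_contra h2
      exact h ((hy ρ).2 fun h3 => h2 h3.symm).2

/-- the special case `r = rk τ`: lifting an element of `ZZ v` -/
theorem exists_lift {rk : Q → ℕ} {n : ℕ} (hQ : GPos rk n) (G : Q → Submodule K E) (c : ℕ) (v : Q)
    (hv : rk v + 2 ≤ c) (hN : ExactAt rk (NN rk G c) v (rk v + 1)) (u : Wc rk c → E)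
    (hu : u ∈ ZZ rk G c v) : ∃ y ∈ LL rk G c (cov rk v), pd rk y v = u := by
  classical
  obtain ⟨h, h1, h2⟩ := ZZ_exact hQ G c v (rk v) le_rfl hv hN (Pi.single v u) (by
    intro σ
    by_cases hσ : σ = v
    · subst hσ
      rw [Pi.single_eq_same]
      exact ⟨hu, fun _ => ⟨le_rfl, rfl⟩⟩
    · rw [Pi.single_eq_of_ne hσ]
      exact ⟨Submodule.zero_mem _, fun h => absurd rfl h⟩) (by
    intro ρ hρ
    rw [pd_eq]
    refine Finset.sum_eq_zero fun y hy => ?_
    rw [Pi.single_eq_of_ne]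
    rintro rfl
    exact absurd (mem_cov.1 hy).1 (not_lt_of_ge hρ))
  refine ⟨h, fun e => ⟨(h1 e).1, fun he => ?_⟩, ?_⟩
  · obtain ⟨h3, h4⟩ := (h1 e).2 he
    rw [mem_cov]
    refine ⟨lt_of_le_of_ne h3 ?_, h4⟩
    rintro rfl
    omega
  · rw [h2 v le_rfl, Pi.single_eq_same]

end Pool.Agent.H4.Singer2
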