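import Pool.Agent.H4.Singer2.GSurj
import Pool.Agent.H4.Singer2.GZExact

/-!
# Singer project, second part: exactness of the complex of the spaces `GG`
-/

set_option autoImplicit false
set_option linter.unusedSectionVars false

open Finset

namespace Pool.Agent.H4.Singer2

variable {Q : Type} [PartialOrder Q] [Fintype Q] {K : Type} [Field K] [CharP K 2] {E : Type}
  [AddCommGroup E] [Module K E]
  {rk : Q → ℕ} {t : Q → K} {c : ℕ} {G : Q → Submodule K E} {B : Q → E →ₗ[K] E →ₗ[K] K} {q : E → K}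

/-- Proof. Let `y σ ∈ GG σ` be a cycle at rank `r`. By `ZZ_exact` there is `h₀` with `h₀ σ ∈ ZZ σ`
at rank `r + 1` and `∂ h₀ = y`. Then `u σ = twL (h₀ σ) ∈ NN σ` is a cycle at rank `r + 1 < c`, so
`u = ∂ g`, `g π ∈ NN π` of rank `r + 2 ≤ c - 1`. Write `g π = twL (g' π)` with `g' π ∈ ZZ π`
(`ZZ_surj_low`; `g' π = 0` if `g π = 0`) and put `h = h₀ + ∂ g'` on the elements `σ ≥ τ` of rank
`r + 1`, `h σ = 0` for the others. -/
theorem GG_exact [FiniteDimensional K E] {n : ℕ} (hQ : GPos rk n) (hS : Stage rk t c G B q)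
    (hA : Aniso rk t c q) (τ : Q) (r : ℕ) (hr : rk τ ≤ r) (hrc : r + 3 ≤ c) :
    ExactAt rk (GG rk t G c) τ r := by
  classical
  intro y hy hcyc
  obtain ⟨h₀, h₀1, h₀2⟩ := ZZ_exact hQ G c τ r hr (by omega) (hS.ex τ (r + 1) (by omega) (by omega))
    y (fun σ => ⟨GG_le_ZZ (hy σ).1, (hy σ).2⟩) hcyc
  have hpdtw : ∀ (f : Q → Wc rk c → E) (ρ : Q),
      twL E rk t c (pd rk f ρ) = pd rk (fun σ => twL E rk t c (f σ)) ρ := fun f ρ =>
    map_pd (twL E rk t c).toAddMonoidHom rk f ρ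
  obtain ⟨g, g1, g2⟩ := hS.ex τ (r + 1) (by omega) (by omega)
    (fun σ => twL E rk t c (h₀ σ)) (by
      intro σ
      constructor
      · rw [mem_NN]
        refine ⟨TT E rk t c (h₀ σ), TT_mem_PM (ZZ_le_PM (h₀1 σ).1), ?_⟩
        rw [← sumL_apply (K := K), sumL_TT]
      · intro hne
        refine (h₀1 σ).2 fun h0 => hne ?_
        simp only [h0, map_zero]) (by
      intro ρ hρ
      rw [← hpdtw, h₀2 ρ hρ]
      have h3 := mem_GG.1 (hy ρ).1
      rw [twL_apply]
      exact h3.2)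
  have hex : ∀ π : Q, ∃ z ∈ ZZ rk G c π, twL E rk t c z = g π ∧ (z ≠ 0 → g π ≠ 0) := by
    intro π
    by_cases hg : g π = 0
    · exact ⟨0, Submodule.zero_mem _, by rw [map_zero, hg], fun h => absurd rfl h⟩
    · have h3 := (g1 π).2 hg
      obtain ⟨z, hz1, hz2⟩ := ZZ_surj_low hQ hS hA π (by omega) (g π) (g1 π).1
      exact ⟨z, hz1, hz2, fun _ => hg⟩
  choose g' hg'1 hg'2 hg'3 using hex
  refine ⟨fun σ => if τ ≤ σ ∧ rk σ = r + 1 then h₀ σ + pd rk g' σ else 0, ?_, ?_⟩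
  · intro σ
    by_cases hσ : τ ≤ σ ∧ rk σ = r + 1
    · simp only [if_pos hσ]
      refine ⟨?_, fun _ => hσ⟩
      have h4 : h₀ σ + pd rk g' σ ∈ ZZ rk G c σ :=
        Submodule.add_mem _ (h₀1 σ).1 (pd_mem_ZZ hg'1)
      refine ⟨h4, ?_⟩
      change _ = _
      rw [map_add, hpdtw]
      have h5 : pd rk (fun σ => twL E rk t c (g' σ)) σ = pd rk g σ := by
        congr 1
        funext π
        exact hg'2 π
      rw [h5, g2 σ hσ.1]
      exact add_self_eq_zero' K _
    · simp only [if_neg hσ]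
      exact ⟨Submodule.zero_mem _, fun h => absurd rfl h⟩
  · intro ρ hρ
    by_cases hrk : rk ρ = r
    · have h6 : pd rk (fun σ => if τ ≤ σ ∧ rk σ = r + 1 then h₀ σ + pd rk g' σ else 0) ρ =
          pd rk (h₀ + fun σ => pd rk g' σ) ρ := by
        refine pd_congr fun z hz1 hz2 => ?_
        rw [if_pos ⟨hρ.trans hz1.le, by omega⟩]
        rfl
      rw [h6, pd_add, h₀2 ρ hρ, pd_pd hQ (add_self_eq_zero' K), add_zero]
    · have h7 : y ρ = 0 := by
        by_contra h8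
        exact hrk ((hy ρ).2 h8).2
      rw [h7]
      refine pd_eq_zero_of_rk (r := r + 1) ?_ (by omega)
      intro z hz
      by_contra h9
      apply hz
      rw [if_neg]
      exact fun h => h9 h.2

end Pool.Agent.H4.Singer2
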