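import Pool.Agent.H4.Singer2.GForm

/-!
# Singer project, second part: the Lagrangian property for the next step, isotropy
-/

set_option autoImplicit false
set_option linter.unusedSectionVars false

open Finset

namespace Pool.Agent.H4.Singer2

variable {Q : Type} [PartialOrder Q] [Fintype Q] {K : Type} [Field K] [CharP K 2] {E : Type}
  [AddCommGroup E] [Module K E]
  {rk : Q → ℕ} {t : Q → K} {c : ℕ} {G : Q → Submodule K E} {B : Q → E →ₗ[K] E →ₗ[K] K} {q : E → K}

/-- a cycle `x ∈ ZZ e` of the next step is the boundary of a family `h f ∈ ZZ f` -/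
private theorem lagiso_lift {n : ℕ} (hQ : GPos rk n) (hS : Stage rk t c G B q) (c' : ℕ)
    (hc : c' + 2 = c) (e : Q) (he : rk e + 1 = c') (x : Wc rk c' → Wc rk c → E)
    (hx : x ∈ ZZ rk (GG rk t G c) c' e) :
    ∃ h : Q → Wc rk c → E, (∀ σ, h σ ∈ ZZ rk G c σ) ∧
      ∀ v : Wc rk c', e ≤ v.1 → pd rk h v.1 = x v := by
  classical
  let X : Q → Wc rk c → E := fun v => if h : rk v = c' then x ⟨v, h⟩ else 0
  have hX1 : ∀ v : Wc rk c', X v.1 = x v := by
    intro v
    have h1 : X v.1 = x ⟨v.1, v.2⟩ := dif_pos v.2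
    rw [h1]
  have hX2 : ∀ v, rk v ≠ c' → X v = 0 := fun v h => dif_neg h
  rw [mem_ZZ] at hx
  obtain ⟨hx1, hx2⟩ := hx
  have hXrk : ∀ v, X v ≠ 0 → rk v = c' := fun v h => by
    by_contra h1
    exact h (hX2 v h1)
  have hXle : ∀ v, X v ≠ 0 → e ≤ v := by
    intro v h
    have h1 := hXrk v h
    have h2 := hX1 ⟨v, h1⟩
    refine (hx1 ⟨v, h1⟩).2 fun h3 => h ?_
    rw [← h3, ← h2]
  have hXG : ∀ v, X v ∈ ZZ rk G c v := by
    intro v
    by_cases h : rk v = c'
    · have h2 := hX1 ⟨v, h⟩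
      rw [show X v = x ⟨v, h⟩ from h2]
      exact GG_le_ZZ (hx1 ⟨v, h⟩).1
    · rw [hX2 v h]
      exact Submodule.zero_mem _
  have hpd : ∀ ρ, e ≤ ρ → pd rk X ρ = 0 := by
    intro ρ hρ
    by_cases h : rk ρ + 1 = c'
    · have hρe : ρ = e := by
        by_contra h1
        have h2 := hQ.lt _ _ (lt_of_le_of_ne hρ (Ne.symm h1))
        omega
      subst hρe
      have h3 : ∑ w : Wc rk c', x w = ∑ v ∈ univ.filter (fun v => rk v = c'), X v := by
        rw [Finset.sum_subtype (univ.filter (fun v => rk v = c')) (p := fun v => rk v = c')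
          (by simp) X]
        exact Finset.sum_congr rfl fun w _ => (hX1 w).symm
      rw [pd_eq, ← hx2, h3]
      apply Finset.sum_subset
      · intro v hv
        rw [mem_cov] at hv
        rw [Finset.mem_filter]
        exact ⟨Finset.mem_univ _, by omega⟩
      · intro v hv hv'
        by_contra h4
        apply hv'
        rw [Finset.mem_filter] at hv
        rw [mem_cov]
        refine ⟨lt_of_le_of_ne (hXle v h4) ?_, by omega⟩
        rintro rfl
        omega
    · exact pd_eq_zero_of_rk hXrk h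
  obtain ⟨h, h1, h2⟩ := ZZ_exact hQ G c e c' (by omega) (by omega)
    (hS.ex e (c' + 1) (by omega) (by omega)) X
    (fun σ => ⟨hXG σ, fun h => ⟨hXle σ h, hXrk σ h⟩⟩) hpd
  exact ⟨h, fun σ => (h1 σ).1, fun v hv => by rw [h2 v.1 hv, hX1]⟩

/-- Isotropy. Proof. Let `x, x' ∈ ZZ e` (for the next step). The family `v ↦ x v` is a cycle for the
spaces `ZZ v` at rank `c'` above `e`, so by `ZZ_exact` (`τ = e`, `r = c' = rk e + 1`) there is `h`
with `h f ∈ ZZ f`, `f ≥ e` of rank `c' + 1`, and `∂ h = x`. Similarly `h'` for `x'`. For `v` of rank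
`c'`, `v > e`, `B' v (x v) (x' v) = YB (cov v) h h'` (restrict `h`, `h'` to `cov v`), which is
`∂ φ` at `v` for `φ f = FB (h f) (T (h' f))`. The sum over `v` is `∂ ∂ φ` at `e`, which is zero. -/
theorem lag_iso {n : ℕ} (hQ : GPos rk n) (hS : Stage rk t c G B q) (c' : ℕ)
    (hc : c' + 2 = c) (B' : Q → (Wc rk c → E) →ₗ[K] (Wc rk c → E) →ₗ[K] K)
    (hB' : ∀ v, rk v = c' → IsForm rk t c G B v (B' v)) (e : Q) (he : rk e + 1 = c')
    (x x' : Wc rk c' → Wc rk c → E) (hx : x ∈ ZZ rk (GG rk t G c) c' e)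
    (hx' : x' ∈ ZZ rk (GG rk t G c) c' e) : FB rk B' c' x x' = 0 := by
  classical
  obtain ⟨h, h1, h2⟩ := lagiso_lift hQ hS c' hc e he x hx
  obtain ⟨h', h1', h2'⟩ := lagiso_lift hQ hS c' hc e he x' hx'
  rw [mem_ZZ] at hx hx'
  let φ : Q → K := fun f => FB rk B c (h f) (TT E rk t c (h' f))
  have key : ∀ v : Wc rk c', B' v.1 (x v) (x' v) = if e ≤ v.1 then pd rk φ v.1 else 0 := by
    intro v
    split_ifs with hev
    · have hr : ∀ g : Q → Wc rk c → E, (∀ σ, g σ ∈ ZZ rk G c σ) →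
          (fun f => if f ∈ cov rk v.1 then g f else 0) ∈ LL rk G c (cov rk v.1) := by
        intro g hg f
        show (if f ∈ cov rk v.1 then g f else 0) ∈ ZZ rk G c f ∧
          ((if f ∈ cov rk v.1 then g f else 0) ≠ 0 → f ∈ cov rk v.1)
        split_ifs with hf
        · exact ⟨hg f, fun _ => hf⟩
        · exact ⟨Submodule.zero_mem _, fun h3 => absurd rfl h3⟩
      have hr2 : ∀ g : Q → Wc rk c → E,
          pd rk (fun f => if f ∈ cov rk v.1 then g f else 0) v.1 = pd rk g v.1 := by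
        intro g
        refine pd_congr fun f h3 h4 => ?_
        rw [if_pos (mem_cov.2 ⟨h3, h4⟩)]
      have h5 := hB' v.1 v.2 _ (hr h h1) _ (hr h' h1') (by
        rw [hr2, h2 v hev]
        exact (hx.1 v).1) (by
        rw [hr2, h2' v hev]
        exact (hx'.1 v).1)
      rw [hr2, hr2, h2 v hev, h2' v hev] at h5
      rw [h5, YB_apply, pd_eq]
      refine Finset.sum_congr rfl fun f hf => ?_
      rw [if_pos hf, if_pos hf]
    · have h3 : x v = 0 := by
        by_contra h4
        exact hev ((hx.1 v).2 h4)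
      rw [h3, map_zero, LinearMap.zero_apply]
  rw [FB_apply, Finset.sum_congr rfl fun v _ => key v]
  have h3 : ∑ v : Wc rk c', (if e ≤ v.1 then pd rk φ v.1 else 0) =
      ∑ v ∈ univ.filter (fun v => rk v = c'), (if e ≤ v then pd rk φ v else 0) := by
    rw [Finset.sum_subtype (univ.filter (fun v => rk v = c')) (p := fun v => rk v = c')
      (by simp) (fun v => if e ≤ v then pd rk φ v else 0)]
  rw [h3]
  refine Eq.trans ?_ (pd_pd hQ (add_self_eq_zero' K) φ e)
  rw [pd_eq]
  symm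
  have h4 : ∀ v ∈ cov rk e, pd rk φ v = if e ≤ v then pd rk φ v else 0 := by
    intro v hv
    rw [if_pos (mem_cov.1 hv).1.le]
  rw [Finset.sum_congr rfl h4]
  apply Finset.sum_subset
  · intro v hv
    rw [mem_cov] at hv
    rw [Finset.mem_filter]
    exact ⟨Finset.mem_univ _, by omega⟩
  · intro v hv hv'
    rw [Finset.mem_filter] at hv
    rw [if_neg]
    intro h5
    apply hv'
    rw [mem_cov]
    refine ⟨lt_of_le_of_ne h5 ?_, by omega⟩
    rintro rfl
    omega

end Pool.Agent.H4.Singer2
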