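import Pool.Agent.H4.Singer2.GForm
import Pool.Agent.H4.Singer2.GInj

/-!
# Singer project, second part: the Lagrangian property for the next step, maximality
-/

set_option autoImplicit false
set_option linter.unusedSectionVars false

open Finset

namespace Pool.Agent.H4.Singer2

variable {Q : Type} [PartialOrder Q] [Fintype Q] {K : Type} [Field K] [CharP K 2] {E : Type}
  [AddCommGroup E] [Module K E]
  {rk : Q → ℕ} {t : Q → K} {c : ℕ} {G : Q → Submodule K E} {B : Q → E →ₗ[K] E →ₗ[K] K} {q : E → K}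

/-- sums over the elements of rank `c'` that are supported above `e` -/
private theorem sum_wc {M : Type} [AddCommMonoid M] {c' : ℕ} {e : Q} (he : rk e + 1 = c')
    (F : Q → M) (hF : ∀ v, rk v = c' → F v ≠ 0 → e ≤ v) : ∑ w : Wc rk c', F w.1 = pd rk F e := by
  classical
  rw [pd_eq]
  have h1 : ∑ w : Wc rk c', F w.1 = ∑ v ∈ univ.filter (fun v => rk v = c'), F v := by
    rw [← Finset.sum_subtype_of_mem (p := fun v => rk v = c') F (fun x hx => (mem_filter.1 hx).2)]
    refine Finset.sum_congr ?_ fun _ _ => rfl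
    ext w
    simp [w.2]
  rw [h1]
  symm
  refine Finset.sum_subset ?_ ?_
  · intro v hv
    rw [mem_cov] at hv
    rw [mem_filter]
    exact ⟨mem_univ _, by omega⟩
  · intro v hv hv2
    rw [mem_filter] at hv
    by_contra h0
    have h2 := hF v hv.2 h0
    apply hv2
    rw [mem_cov]
    refine ⟨lt_of_le_of_ne h2 ?_, by omega⟩
    intro h3
    have h4 : rk e = rk v := by rw [h3]
    omega

open Classical in
/-- restriction of a family to `S` -/
private noncomputable def rst (S : Finset Q) (y : Q → Wc rk c → E) : Q → Wc rk c → E :=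
  fun f => if f ∈ S then y f else 0

private theorem rst_mem {S S' : Finset Q} {y : Q → Wc rk c → E} (hy : y ∈ LL rk G c S') :
    rst S y ∈ LL rk G c S := by
  classical
  intro f
  unfold rst
  split_ifs with h
  · exact ⟨(hy f).1, fun _ => h⟩
  · exact ⟨Submodule.zero_mem _, fun h1 => absurd rfl h1⟩

private theorem pd_rst (v : Q) (y : Q → Wc rk c → E) : pd rk (rst (cov rk v) y) v = pd rk y v := by
  classical
  refine pd_congr fun f h1 h2 => ?_
  unfold rst
  rw [if_pos (mem_cov.2 ⟨h1, h2⟩)]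

private theorem YB_rst {S S' : Finset Q} (hS : S ⊆ S') {a : Q → Wc rk c → E}
    (ha : ∀ f, a f ≠ 0 → f ∈ S) (y : Q → Wc rk c → E) :
    YB rk t B c S' a y = YB rk t B c S a (rst S y) := by
  classical
  rw [YB_apply, YB_apply]
  symm
  rw [← Finset.sum_subset hS]
  · refine Finset.sum_congr rfl fun f hf => ?_
    unfold rst
    rw [if_pos hf]
  · intro f _ hf
    have h0 : a f = 0 := by
      by_contra h1
      exact hf (ha f h1)
    rw [h0, map_zero, LinearMap.zero_apply]

private theorem cov_sub_cov2 {e v : Q} (hv : v ∈ cov rk e) : cov rk v ⊆ cov2 rk e := by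
  intro f hf
  rw [mem_cov] at hv hf
  rw [mem_cov2]
  exact ⟨hv.1.trans hf.1, by omega⟩

/-- Maximality. Proof. Let `u ∈ PM e` (for the next step) be orthogonal to `ZZ e`. For `v > e` of
rank `c'` let `u v = ∂ (Y v)` at `v`, `Y v ∈ LL (cov v)` (`exists_lift`). Put
`d = ∑ v, Y v ∈ LL (cov2 e)`.
(1) For `y ∈ LL (cov2 e)` orthogonal to all `iot v (XX v)` (`v > e` of rank `c'`) the family
`x v = ∂ y` at `v` is in `GG v` (`mem_GG_iff_orth` for the restriction of `y` to `cov v`) and its sum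
is zero by `pd_pd`; so `x ∈ ZZ e` and `0 = ∑ v, B' v (u v) (x v) = ∑ v, YB (cov v) (Y v) y =
YB (cov2 e) d y`.
(2) By `dbl_orth` (for `YB` on `LL (cov2 e)`, `YB_nondeg`) `d = ∑ v, iot v (g v)` with
`g v ∈ XX v`. Put `Y' v = Y v + iot v (g v)`; then `∂ (Y' v) = u v` at `v` (`pd_iot`) and
`∑ v, Y' v = d + d = 0`. Hence `∑ v, u v = ∑ v, ∑ f, Y' v f = 0`. -/
theorem lag_max [FiniteDimensional K E] {n : ℕ} (hQ : GPos rk n) (hS : Stage rk t c G B q)
    (hA : Aniso rk t c q) (c' : ℕ) (hc : c' + 2 = c)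
    (B' : Q → (Wc rk c → E) →ₗ[K] (Wc rk c → E) →ₗ[K] K)
    (hB' : ∀ v, rk v = c' → IsForm rk t c G B v (B' v)) (e : Q) (he : rk e + 1 = c')
    (u : Wc rk c' → Wc rk c → E) (hu : u ∈ PM rk (GG rk t G c) c' e)
    (h : ∀ x ∈ ZZ rk (GG rk t G c) c' e, FB rk B' c' u x = 0) :
    u ∈ ZZ rk (GG rk t G c) c' e := by
  classical
  -- `u` as a function on `Q`
  obtain ⟨U, hU⟩ : ∃ U : Q → Wc rk c → E, ∀ w : Wc rk c', U w.1 = u w :=
    ⟨fun v => if hv : rk v = c' then u ⟨v, hv⟩ else 0, fun w => dif_pos w.2⟩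
  have hUG : ∀ v, rk v = c' → U v ∈ GG rk t G c v := by
    intro v hv
    rw [hU ⟨v, hv⟩]
    exact (hu ⟨v, hv⟩).1
  have hUe : ∀ v, rk v = c' → U v ≠ 0 → e ≤ v := by
    intro v hv h0
    rw [hU ⟨v, hv⟩] at h0
    exact (hu ⟨v, hv⟩).2 h0
  have hlift : ∀ v, ∃ Y : Q → Wc rk c → E, rk v = c' → (Y ∈ LL rk G c (cov rk v) ∧
      pd rk Y v = U v) := by
    intro v
    by_cases hv : rk v = c'
    · obtain ⟨Y, h1, h2⟩ := exists_lift hQ G c v (by omega)
        (hS.ex v (rk v + 1) (by omega) (by omega)) (U v) (GG_le_ZZ (hUG v hv))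
      exact ⟨Y, fun _ => ⟨h1, h2⟩⟩
    · exact ⟨0, fun h1 => absurd h1 hv⟩
  choose Y hY using hlift
  have hrk : ∀ v ∈ cov rk e, rk v = c' := by
    intro v hv
    rw [mem_cov] at hv
    omega
  have hYL : ∀ v ∈ cov rk e, Y v ∈ LL rk G c (cov2 rk e) := by
    intro v hv f
    exact ⟨((hY v (hrk v hv)).1 f).1, fun h1 => cov_sub_cov2 hv (((hY v (hrk v hv)).1 f).2 h1)⟩
  obtain ⟨d, hd⟩ : ∃ d : Q → Wc rk c → E, d = ∑ v ∈ cov rk e, Y v := ⟨_, rfl⟩
  have hdL : d ∈ LL rk G c (cov2 rk e) := by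
    rw [hd]
    exact Submodule.sum_mem _ fun v hv => hYL v hv
  -- step (1)
  have key : ∀ y ∈ LL rk G c (cov2 rk e),
      (∀ v ∈ cov rk e, ∀ g ∈ XX rk G c v, YB rk t B c (cov2 rk e) (iot K rk c v g) y = 0) →
      YB rk t B c (cov2 rk e) d y = 0 := by
    intro y hy hyo
    have h1 : ∀ v ∈ cov rk e, pd rk y v ∈ GG rk t G c v := by
      intro v hv
      rw [← pd_rst v y]
      rw [mem_GG_iff_orth hQ hS v (by have := hrk v hv; omega) _ (rst_mem hy)]
      intro g hg
      rw [← YB_rst (cov_sub_cov2 hv) (fun f hf => (iot_mem_LL hg f).2 hf) y]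
      exact hyo v hv g hg
    obtain ⟨x, hx⟩ : ∃ x : Wc rk c' → Wc rk c → E, ∀ w, x w = if e ≤ w.1 then pd rk y w.1 else 0 :=
      ⟨_, fun _ => rfl⟩
    have hcov : ∀ w : Wc rk c', e ≤ w.1 → w.1 ∈ cov rk e := by
      intro w hw
      rw [mem_cov]
      have h5 := w.2
      refine ⟨lt_of_le_of_ne hw ?_, by omega⟩
      intro h3
      have h4 : rk e = rk w.1 := by rw [h3]
      omega
    have hxP : x ∈ PM rk (GG rk t G c) c' e := by
      intro w
      rw [hx w]
      split_ifs with hw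
      · exact ⟨h1 w.1 (hcov w hw), fun _ => hw⟩
      · exact ⟨Submodule.zero_mem _, fun h0 => absurd rfl h0⟩
    have hxZ : x ∈ ZZ rk (GG rk t G c) c' e := by
      rw [mem_ZZ]
      refine ⟨hxP, ?_⟩
      have h2 : ∑ w : Wc rk c', x w = ∑ w : Wc rk c', (fun v => if e ≤ v then pd rk y v else 0) w.1 :=
        Finset.sum_congr rfl fun w _ => hx w
      rw [h2, sum_wc he (fun v => if e ≤ v then pd rk y v else 0)]
      · rw [← pd_pd hQ (add_self_eq_zero' K) y e]
        refine pd_congr fun v h3 _ => ?_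
        rw [if_pos h3.le]
      · intro v _ h0
        by_contra h3
        exact h0 (by simp only [if_neg h3])
    have h3 := h x hxZ
    rw [FB_apply] at h3
    have h4 : ∑ w : Wc rk c', B' w.1 (u w) (x w) =
        ∑ w : Wc rk c', (fun v => if e ≤ v then B' v (U v) (pd rk y v) else 0) w.1 := by
      refine Finset.sum_congr rfl fun w _ => ?_
      rw [hx w]
      dsimp only
      split_ifs
      · rw [hU w]
      · rw [map_zero]
    rw [h4, sum_wc he (fun v => if e ≤ v then B' v (U v) (pd rk y v) else 0), pd_eq] at h3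
    · rw [hd, map_sum, LinearMap.sum_apply, ← h3]
      refine Finset.sum_congr rfl fun v hv => ?_
      rw [if_pos (mem_cov.1 hv).1.le]
      have h5 := hY v (hrk v hv)
      rw [YB_rst (cov_sub_cov2 hv) (fun f hf => (h5.1 f).2 hf) y]
      rw [← hB' v (hrk v hv) (Y v) h5.1 (rst (cov rk v) y) (rst_mem hy)
        (by rw [h5.2]; exact hUG v (hrk v hv)) (by rw [pd_rst]; exact h1 v hv), h5.2, pd_rst]
    · intro v _ h0
      by_contra h5
      exact h0 (by simp only [if_neg h5])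
  -- step (2)
  have hmem : d ∈ ⨆ v ∈ cov rk e, (XX rk G c v).map (iot K rk c v) := by
    refine dbl_orth (YB rk t B c (cov2 rk e)) (YB_symm hS.symm) (LL rk G c (cov2 rk e)) _ ?_ ?_ d
      hdL ?_
    · refine iSup₂_le fun v hv => ?_
      rw [Submodule.map_le_iff_le_comap]
      intro g hg f
      exact ⟨(iot_mem_LL hg f).1, fun h1 => cov_sub_cov2 hv ((iot_mem_LL hg f).2 h1)⟩
    · intro y hy h1
      refine YB_nondeg hS hA (by omega) (cov2 rk e) (fun f hf => ?_) y hy h1
      rw [mem_cov2] at hf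
      omega
    · intro y hy h1
      refine key y hy fun v hv g hg => h1 _ ?_
      exact Submodule.mem_iSup_of_mem v (Submodule.mem_iSup_of_mem hv
        (Submodule.mem_map_of_mem hg))
  rw [Submodule.mem_iSup_finset_iff_exists_sum] at hmem
  obtain ⟨μ, hμ⟩ := hmem
  have hg : ∀ v, ∃ g ∈ XX rk G c v, iot K rk c v g = (μ v : Q → Wc rk c → E) := fun v =>
    Submodule.mem_map.1 (μ v).2
  choose g hgX hgμ using hg
  rw [mem_ZZ]
  refine ⟨hu, ?_⟩
  have h1 : ∑ w : Wc rk c', u w = ∑ w : Wc rk c', U w.1 :=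
    Finset.sum_congr rfl fun w _ => (hU w).symm
  rw [h1, sum_wc he U hUe, pd_eq]
  have h2 : ∀ v ∈ cov rk e, U v = ∑ f ∈ cov2 rk e, (Y v f + iot K rk c v (g v) f) := by
    intro v hv
    have h3 := hY v (hrk v hv)
    have h4 : pd rk (iot K rk c v (g v)) v = 0 :=
      pd_iot hQ (by have := hrk v hv; omega) (mem_XX.1 (hgX v)).1
    rw [← h3.2, ← add_zero (pd rk (Y v) v), ← h4, ← pd_add, pd_eq]
    refine Finset.sum_subset (cov_sub_cov2 hv) fun f _ hf => ?_
    have h5 : Y v f = 0 := by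
      by_contra h6
      exact hf ((h3.1 f).2 h6)
    rw [Pi.add_apply, h5, iot_apply, if_neg hf, add_zero]
  rw [Finset.sum_congr rfl h2, Finset.sum_comm]
  refine Finset.sum_eq_zero fun f _ => ?_
  rw [Finset.sum_add_distrib]
  have h5 : ∑ v ∈ cov rk e, Y v f = d f := by
    rw [hd, Finset.sum_apply]
  have h6 : ∑ v ∈ cov rk e, iot K rk c v (g v) f = d f := by
    rw [← hμ, Finset.sum_apply]
    exact Finset.sum_congr rfl fun v _ => by rw [hgμ]
  rw [h5, h6]
  exact add_self_eq_zero' K _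

end Pool.Agent.H4.Singer2
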