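import Pool.Agent.H4.Singer2.GBasic

/-!
# Singer project, second part: two lemmas of linear algebra
-/

set_option autoImplicit false

namespace Pool.Agent.H4.Singer2

/-- Double orthogonal in a subspace `Y` on which the symmetric form `b` is nondegenerate. (Restrict
`b` to `Y`, use `LinearMap.BilinForm.orthogonal_orthogonal` or a dimension count.) -/
theorem dbl_orth {K M : Type} [Field K] [AddCommGroup M] [Module K M] [FiniteDimensional K M]
    (b : M →ₗ[K] M →ₗ[K] K) (hs : ∀ x y, b x y = b y x) (Y A : Submodule K M) (hA : A ≤ Y)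
    (hnd : ∀ x ∈ Y, (∀ y ∈ Y, b x y = 0) → x = 0) (d : M) (hd : d ∈ Y)
    (h : ∀ y ∈ Y, (∀ a ∈ A, b a y = 0) → b d y = 0) : d ∈ A := by
  let B : LinearMap.BilinForm K Y := b.compl₁₂ Y.subtype Y.subtype
  have hB : ∀ x y : Y, B x y = b x y := fun x y => rfl
  have hsymm : B.IsSymm := ⟨fun x y => by simp [hB, hs (x : M) (y : M)]⟩
  have hn : B.Nondegenerate := by
    refine (LinearMap.IsRefl.nondegenerate_iff_separatingLeft hsymm.isRefl).2 ?_
    intro x hx
    have := hnd x x.2 (fun y hy => hx ⟨y, hy⟩)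
    exact Subtype.ext this
  have key := LinearMap.BilinForm.orthogonal_orthogonal hn hsymm.isRefl (A.comap Y.subtype)
  have hmem : (⟨d, hd⟩ : Y) ∈ B.orthogonal (B.orthogonal (A.comap Y.subtype)) := by
    rw [LinearMap.BilinForm.mem_orthogonal_iff]
    intro y hy
    rw [LinearMap.BilinForm.mem_orthogonal_iff] at hy
    show b (y : M) d = 0
    rw [hs]
    refine h y y.2 fun a ha => ?_
    exact hy ⟨a, hA ha⟩ (by simpa using ha)
  rw [key] at hmem
  simpa using hmem

/-- a linear map has a section over the image of a subspace -/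
theorem exists_section {K M N : Type} [Field K] [AddCommGroup M] [Module K M] [AddCommGroup N]
    [Module K N] (f : M →ₗ[K] N) (A : Submodule K M) :
    ∃ s : N →ₗ[K] M, ∀ a ∈ A, s (f a) ∈ A ∧ f (s (f a)) = f a := by
  let g : A →ₗ[K] N := f.comp A.subtype
  obtain ⟨t, ht⟩ := LinearMap.exists_rightInverse_of_surjective g.rangeRestrict g.range_rangeRestrict
  obtain ⟨u, hu⟩ := LinearMap.exists_extend t
  refine ⟨A.subtype.comp u, fun a ha => ?_⟩
  have h1 : f a = (g.rangeRestrict ⟨a, ha⟩ : N) := rfl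
  have h2 : u (f a) = t (g.rangeRestrict ⟨a, ha⟩) := by
    rw [h1]
    exact LinearMap.congr_fun hu (g.rangeRestrict ⟨a, ha⟩)
  refine ⟨by simp, ?_⟩
  simp only [LinearMap.comp_apply, Submodule.subtype_apply]
  rw [h2]
  have h3 := LinearMap.congr_fun ht (g.rangeRestrict ⟨a, ha⟩)
  have h4 := congrArg Subtype.val h3
  exact h4

end Pool.Agent.H4.Singer2
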