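import Pool.Agent.H4.Singer2.GGExact

/-!
# Singer project, second part: exactness for the next step
-/

set_option autoImplicit false
set_option linter.unusedSectionVars false

open Finset

namespace Pool.Agent.H4.Singer2

variable {Q : Type} [PartialOrder Q] [Fintype Q] {K : Type} [Field K] [CharP K 2] {E : Type}
  [AddCommGroup E] [Module K E]
  {rk : Q → ℕ} {t : Q → K} {c : ℕ} {G : Q → Submodule K E} {B : Q → E →ₗ[K] E →ₗ[K] K} {q : E → K}

/-- `GG σ` is the sum of the `GG v`, `v ≥ σ` of rank `c' = c - 2`: by downward induction on the rank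
of `σ`; if `rk σ < c'`, apply `GG_exact` with `τ = σ`, `r = rk σ` to the family `Pi.single σ x`. -/
theorem NN_GG [FiniteDimensional K E] {n : ℕ} (hQ : GPos rk n) (hS : Stage rk t c G B q)
    (hA : Aniso rk t c q) (c' : ℕ) (hc : c' + 2 = c) (σ : Q) (hσ : rk σ ≤ c') :
    NN rk (GG rk t G c) c' σ = GG rk t G c σ := by
  classical
  apply le_antisymm
  · intro g hg
    obtain ⟨x, hx, rfl⟩ := mem_NN.1 hg
    refine Submodule.sum_mem _ fun w _ => ?_
    by_cases h : x w = 0
    · rw [h]; exact Submodule.zero_mem _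
    · exact GG_mono ((hx w).2 h) (hx w).1
  · have key : ∀ k : ℕ, ∀ σ : Q, rk σ + k = c' → GG rk t G c σ ≤ NN rk (GG rk t G c) c' σ := by
      intro k
      induction k with
      | zero =>
        intro σ h g hg
        rw [mem_NN]
        refine ⟨Pi.single (⟨σ, by omega⟩ : Wc rk c') g, single_mem_PM _ le_rfl g hg, ?_⟩
        rw [Finset.sum_eq_single (⟨σ, by omega⟩ : Wc rk c')]
        · rw [Pi.single_eq_same]
        · intro w _ hw
          rw [Pi.single_eq_of_ne hw]
        · intro h1
          exact absurd (Finset.mem_univ _) h1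
      | succ k ih =>
        intro σ h g hg
        obtain ⟨f, hf, hf2⟩ := GG_exact hQ hS hA σ (rk σ) le_rfl (by omega)
          (Pi.single σ g) (fun ρ => by
            by_cases h1 : ρ = σ
            · subst h1
              rw [Pi.single_eq_same]
              exact ⟨hg, fun _ => ⟨le_rfl, rfl⟩⟩
            · rw [Pi.single_eq_of_ne h1]
              exact ⟨Submodule.zero_mem _, fun h2 => absurd rfl h2⟩) (fun ρ hρ => by
            rw [pd_eq]
            refine Finset.sum_eq_zero fun y hy => ?_
            rw [mem_cov] at hy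
            rw [Pi.single_eq_of_ne]
            intro h1
            rw [h1] at hy
            exact absurd (hy.1.trans_le hρ) (lt_irrefl _))
        have h1 := hf2 σ le_rfl
        rw [Pi.single_eq_same] at h1
        rw [← h1]
        refine pd_mem fun y h2 h3 => ?_
        exact NN_mono h2.le (ih y (by omega) (hf y).1)
    exact key (c' - rk σ) σ (by omega)

/-- from `GG_exact` and `NN_GG` -/
theorem new_ex [FiniteDimensional K E] {n : ℕ} (hQ : GPos rk n) (hS : Stage rk t c G B q)
    (hA : Aniso rk t c q) (c' : ℕ) (hc : c' + 2 = c) (τ : Q) (r : ℕ) (hr : rk τ ≤ r)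
    (hrc : r < c') : ExactAt rk (NN rk (GG rk t G c) c') τ r := by
  intro y hy hpd
  obtain ⟨f, hf, hf2⟩ := GG_exact hQ hS hA τ r hr (by omega) y (fun σ => by
    refine ⟨?_, (hy σ).2⟩
    by_cases h : y σ = 0
    · rw [h]; exact Submodule.zero_mem _
    · have h1 := ((hy σ).2 h).2
      rw [← NN_GG hQ hS hA c' hc σ (by omega)]
      exact (hy σ).1) hpd
  refine ⟨f, fun σ => ⟨?_, (hf σ).2⟩, hf2⟩
  by_cases h : f σ = 0
  · rw [h]; exact Submodule.zero_mem _
  · have h1 := ((hf σ).2 h).2
    rw [NN_GG hQ hS hA c' hc σ (by omega)]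
    exact (hf σ).1

end Pool.Agent.H4.Singer2
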