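import Pool.Agent.H4.Singer2.GLin
import Pool.Agent.H4.Singer2.GZExact

/-!
# Singer project, second part: orthogonality relations
-/

set_option autoImplicit false
set_option linter.unusedSectionVars false

open Finset

namespace Pool.Agent.H4.Singer2

variable {Q : Type} [PartialOrder Q] [Fintype Q] {K : Type} [Field K] [CharP K 2] {E : Type}
  [AddCommGroup E] [Module K E]
  {rk : Q → ℕ} {t : Q → K} {c : ℕ} {G : Q → Submodule K E} {B : Q → E →ₗ[K] E →ₗ[K] K} {q : E → K}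

/-- `XX v` is the orthogonal of `ZZ v` in `PM v`.
(→) `dbl_orth` for `FB`, `Y = PM v`, `A = ⨆ (e ∈ cov v), ZZ e`: if `y ∈ PM v` is orthogonal to all
`ZZ e`, then `res e y ∈ PM e` is orthogonal to `ZZ e` (`FB_res`), so `res e y ∈ ZZ e` by `lag`,
`y ∈ XX v`, `FB u y = 0`. Hence `u ∈ A ≤ ZZ v`.
(←) `u = ∂ y` at `v` with `y ∈ LL (cov v)` (`exists_lift`), and
`FB g (y e) = FB (res e g) (y e) = 0` by `FB_res` and `lag`. -/
theorem orth_XX [FiniteDimensional K E] {n : ℕ} (hQ : GPos rk n) (hS : Stage rk t c G B q)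
    (v : Q) (hv : rk v + 2 = c) (u : Wc rk c → E) (hu : u ∈ PM rk G c v) :
    (∀ g ∈ XX rk G c v, FB rk B c g u = 0) ↔ u ∈ ZZ rk G c v := by
  classical
  have hlag : ∀ e ∈ cov rk v, ∀ x ∈ PM rk G c e,
      (∀ y ∈ ZZ rk G c e, FB rk B c x y = 0) ↔ x ∈ ZZ rk G c e := by
    intro e he
    have h1 := (mem_cov.1 he).2
    exact hS.lag e (by omega)
  constructor
  · intro h
    have hA : (⨆ e ∈ cov rk v, ZZ rk G c e) ≤ PM rk G c v :=
      iSup₂_le fun e he => ZZ_le_PM.trans (PM_mono (mem_cov.1 he).1.le)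
    have h1 := dbl_orth (FB rk B c) (FB_symm hS.symm) (PM rk G c v) (⨆ e ∈ cov rk v, ZZ rk G c e)
      hA (FB_nondeg hS.nondeg v) u hu (by
        intro y hy hy'
        have hyX : y ∈ XX rk G c v := by
          rw [mem_XX]
          refine ⟨hy, fun e h2 h3 => ?_⟩
          have he : e ∈ cov rk v := mem_cov.2 ⟨h2, h3⟩
          refine (hlag e he _ (res_mem_PM hy)).1 fun z hz => ?_
          rw [FB_res y (ZZ_le_PM hz), FB_symm hS.symm]
          exact hy' z ((le_iSup₂ (f := fun e (_ : e ∈ cov rk v) => ZZ rk G c e) e he) hz)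
        rw [FB_symm hS.symm]
        exact h y hyX)
    exact (iSup₂_le fun e he => ZZ_mono (mem_cov.1 he).1.le) h1
  · intro h g hg
    obtain ⟨y, hy, rfl⟩ := exists_lift hQ G c v (by omega)
      (hS.ex v (rk v + 1) (by omega) (by omega)) u h
    rw [pd_eq, map_sum]
    refine Finset.sum_eq_zero fun e he => ?_
    have h1 := (hy e).1
    rw [← FB_res g (ZZ_le_PM h1)]
    have h2 := (mem_XX.1 hg).2 e (mem_cov.1 he).1 (mem_cov.1 he).2
    exact (hlag e he _ (ZZ_le_PM h2)).2 h2 _ h1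

/-- `YB (iot g) y = FB g (T (∂ y))` at `v`, by `FB_res` -/
theorem YB_iot (v : Q) (g : Wc rk c → E) (y : Q → Wc rk c → E)
    (hy : y ∈ LL rk G c (cov rk v)) :
    YB rk t B c (cov rk v) (iot K rk c v g) y = FB rk B c g (TT E rk t c (pd rk y v)) := by
  classical
  rw [YB_apply, pd_eq, map_sum, map_sum]
  refine Finset.sum_congr rfl fun e he => ?_
  rw [iot_apply, if_pos he, FB_res g (TT_mem_PM (ZZ_le_PM (hy e).1))]

/-- `∂ y ∈ GG v` iff `y` is orthogonal to `iot (XX v)`: `∂ y ∈ ZZ v`, and `T (∂ y) ∈ ZZ v` iff the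
weighted sum of `∂ y` is zero (`sumL_TT`); use `orth_XX` for `u = T (∂ y)` and `YB_iot`. -/
theorem mem_GG_iff_orth [FiniteDimensional K E] {n : ℕ} (hQ : GPos rk n)
    (hS : Stage rk t c G B q) (v : Q) (hv : rk v + 2 = c) (y : Q → Wc rk c → E)
    (hy : y ∈ LL rk G c (cov rk v)) :
    pd rk y v ∈ GG rk t G c v ↔
      ∀ g ∈ XX rk G c v, YB rk t B c (cov rk v) (iot K rk c v g) y = 0 := by
  have h1 : pd rk y v ∈ ZZ rk G c v := pd_mem_ZZ fun e => (hy e).1
  have h2 : TT E rk t c (pd rk y v) ∈ PM rk G c v := TT_mem_PM (ZZ_le_PM h1)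
  have h3 : pd rk y v ∈ GG rk t G c v ↔ TT E rk t c (pd rk y v) ∈ ZZ rk G c v := by
    rw [GG, Submodule.mem_inf, LinearMap.mem_ker]
    constructor
    · rintro ⟨-, h4⟩
      rw [ZZ, Submodule.mem_inf, LinearMap.mem_ker, sumL_TT]
      exact ⟨h2, h4⟩
    · intro h4
      rw [ZZ, Submodule.mem_inf, LinearMap.mem_ker, sumL_TT] at h4
      exact ⟨h1, h4.2⟩
  rw [h3, ← orth_XX hQ hS v hv _ h2]
  constructor
  · intro h g hg
    rw [YB_iot v g y hy]
    exact h g hg
  · intro h g hg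
    rw [← YB_iot v g y hy]
    exact h g hg

end Pool.Agent.H4.Singer2
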