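import Pool.Agent.H4.Singer2.GCoef

/-!
# Singer project, second part: the start of the induction
-/

set_option autoImplicit false
set_option linter.unusedSectionVars false

open Finset

namespace Pool.Agent.H4.Singer2

variable {Q : Type} [PartialOrder Q] [Fintype Q] {K : Type} [Field K] [CharP K 2]

theorem NN_base {rk : Q → ℕ} {n : ℕ} (hQ : GPos rk n) (σ : Q) (g : K) :
    g ∈ NN rk (fun _ => (⊤ : Submodule K K)) n σ := by
  classical
  obtain ⟨w, hw, hwn⟩ := hQ.up σ
  rw [mem_NN]
  refine ⟨Pi.single ⟨w, hwn⟩ g, single_mem_PM (G := fun _ => (⊤ : Submodule K K)) ⟨w, hwn⟩ hw g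
    Submodule.mem_top, ?_⟩
  rw [Finset.sum_pi_single']
  simp

/-- The first stage: `c = n`, `E = K`, `G w = K` for all `w`. `NN σ = K` for all `σ` by `hQ.up`, so
`ex` is `exT_coef` for `M = K`. For `rk e + 1 = n` there are exactly two `w > e` (`hQ.top`), `PM e`
consists of the families supported on them, `ZZ e` of those with equal entries. -/
theorem stage_base {rk : Q → ℕ} {n : ℕ} (hQ : GPos rk n) (t : Q → K) :
    Stage rk t n (fun _ => (⊤ : Submodule K K)) (fun _ => LinearMap.mul K K)
      (fun x => x ^ 2) := by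
  classical
  refine ⟨?_, ?_, ?_, ?_, ?_⟩
  · intro τ r hr hrn y hy hcyc
    obtain ⟨h, h1, h2⟩ := exT_coef rk n hQ.exT K (add_self_eq_zero' K) τ r hr hrn y
      (fun σ hσ => (hy σ).2 hσ) hcyc
    exact ⟨h, fun σ => ⟨NN_base hQ σ _, h1 σ⟩, h2⟩
  · intro w x y
    simp [mul_comm]
  · intro w _ x _ h
    have h1 := h 1 Submodule.mem_top
    simpa using h1
  · intro w _ x _
    simp [sq]
  · intro e he x hx
    obtain ⟨a, b, hab, hz⟩ := hQ.top e he
    have hea : e < a := (hz a).2 (Or.inl rfl)
    have heb : e < b := (hz b).2 (Or.inr rfl)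
    have hra : rk a = n := by
      have h1 := hQ.lt _ _ hea
      have h2 := hQ.le_n a
      omega
    have hrb : rk b = n := by
      have h1 := hQ.lt _ _ heb
      have h2 := hQ.le_n b
      omega
    have hne : (⟨a, hra⟩ : Wc rk n) ≠ ⟨b, hrb⟩ := fun h => hab (congrArg Subtype.val h)
    have hsum : ∀ f : Wc rk n → K, (∀ w, f w ≠ 0 → e ≤ w.1) →
        ∑ w, f w = f ⟨a, hra⟩ + f ⟨b, hrb⟩ := by
      intro f hf
      rw [← Finset.sum_pair hne]
      symm
      refine Finset.sum_subset (Finset.subset_univ _) fun w _ hw => ?_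
      by_contra h
      have h1 := hf w h
      have h2 : e < w.1 := by
        refine lt_of_le_of_ne h1 fun h3 => ?_
        have h4 := w.2
        rw [← h3] at h4
        omega
      apply hw
      rw [Finset.mem_insert, Finset.mem_singleton]
      rcases (hz w.1).1 h2 with h5 | h5
      · exact Or.inl (Subtype.ext h5)
      · exact Or.inr (Subtype.ext h5)
    have hchar : ∀ u v : K, u + v = 0 → u = v := by
      intro u v h
      have h1 := add_self_eq_zero' K v
      exact add_right_cancel (h.trans h1.symm)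
    have hPM : ∀ y ∈ PM rk (fun _ => (⊤ : Submodule K K)) n e, ∀ z ∈ PM rk
        (fun _ => (⊤ : Submodule K K)) n e, FB rk (fun _ => LinearMap.mul K K) n y z =
        y ⟨a, hra⟩ * z ⟨a, hra⟩ + y ⟨b, hrb⟩ * z ⟨b, hrb⟩ := by
      intro y hy z _
      rw [FB_apply, hsum]
      · simp
      · intro w hw
        refine (hy w).2 fun h => hw ?_
        simp [h]
    constructor
    · intro h
      rw [mem_ZZ]
      refine ⟨hx, ?_⟩
      have hyP : (fun w : Wc rk n => if e ≤ w.1 then (1 : K) else 0) ∈
          PM rk (fun _ => (⊤ : Submodule K K)) n e := by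
        intro w
        refine ⟨Submodule.mem_top, fun hw => ?_⟩
        by_contra h1
        exact hw (if_neg h1)
      have hyZ : (fun w : Wc rk n => if e ≤ w.1 then (1 : K) else 0) ∈
          ZZ rk (fun _ => (⊤ : Submodule K K)) n e := by
        rw [mem_ZZ]
        refine ⟨hyP, ?_⟩
        rw [hsum _ fun w => (hyP w).2]
        simp only [hea.le, heb.le, if_true]
        exact add_self_eq_zero' K 1
      have h1 := h _ hyZ
      rw [hPM x hx _ hyP] at h1
      simp only [hea.le, heb.le, if_true, mul_one] at h1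
      rw [hsum x fun w => (hx w).2]
      exact h1
    · intro h y hy
      rw [mem_ZZ] at h hy
      have h1 := h.2
      have h2 := hy.2
      rw [hsum x fun w => (hx w).2] at h1
      rw [hsum y fun w => (hy.1 w).2] at h2
      rw [hPM x hx y hy.1, hchar _ _ h1, hchar _ _ h2]
      exact add_self_eq_zero' K _

end Pool.Agent.H4.Singer2
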