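import Pool.Agent.H4.Singer2.GStep
import Pool.Agent.H4.Singer2.GStart
import Pool.Agent.H4.Singer2.GAnBase
import Pool.Agent.H4.Singer2.GChain
import Pool.Agent.H4.Singer2.GChZero

/-!
# Singer project, second part: flags of odd rank have no stresses
-/

set_option autoImplicit false
set_option linter.unusedSectionVars false

open Finset

namespace Pool.Agent.H4.Singer2

variable {Q : Type} [PartialOrder Q] [Fintype Q] [DecidableEq Q]

theorem sf_induct {K : Type} [Field K] [CharP K 2] {rk : Q → ℕ} {n : ℕ} (hQ : GPos rk n)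
    (t : Q → K) (b : Q) (hb : ∀ x, b ≤ x) (hb0 : rk b = 0) (k : ℕ) :
    ∀ (E : Type) [AddCommGroup E] [Module K E] [FiniteDimensional K E] (G : Q → Submodule K E)
      (B : Q → E →ₗ[K] E →ₗ[K] K) (q : E → K), Stage rk t (2 * k + 1) G B q →
      Aniso rk t (2 * k + 1) q → ∀ z : Finset Q → E, EStress rk t k G z → z = 0 := by
  induction k with
  | zero =>
    intro E _ _ _ G B q hS hA z hz
    exact chain_zero hQ.lt hS hA b hb hb0 z hz
  | succ k ih =>
    intro E _ _ _ G B q hS hA z hz
    refine chain_step hQ.lt z hz fun z' hz' => ?_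
    have hS' : Stage rk t (2 * k + 3) G B q := hS
    have hA' : Aniso rk t (2 * k + 3) q := hA
    obtain ⟨B', hB'⟩ := stage_step hQ hS' hA' (2 * k + 1) rfl
    exact ih (Wc rk (2 * k + 3) → E) (GG rk t G (2 * k + 3)) B' (qn rk t (2 * k + 3) q) hB'
      (aniso_step hA' (2 * k + 1) rfl) z' hz'

open Classical in
/-- **No stresses.** Let `Q` be a graded poset as in `GPos`, of odd rank `2 m + 1`, with least
element `b`. For independent variables as parameters there are no stresses on the flags of
elements of odd rank. -/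
theorem sf_odd {rk : Q → ℕ} {m : ℕ} (hQ : GPos rk (2 * m + 1)) (b : Q) (hb : ∀ x, b ≤ x)
    (hb0 : rk b = 0) {I : Type} (f : Q → I) (hf : Set.InjOn f {u | 1 ≤ rk u}) (t : Q → RF I)
    (ht : ∀ u, 1 ≤ rk u → t u = xv (f u)) :
    Singer.StressFree t (univ.filter fun φ => OddCh rk m φ) := by
  intro z hz
  refine sf_induct hQ t b hb hb0 m (RF I) _ _ _ (stage_base hQ t)
    (aniso_base f hf t ht (2 * m + 1)) z ⟨fun φ hφ => ?_, fun _ _ _ _ => Submodule.mem_top,
      hz.sum, hz.wsum⟩
  exact (mem_filter.1 (hz.supp φ hφ)).2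

end Pool.Agent.H4.Singer2
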