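import Pool.Agent.H4.Singer2.GNewN
import Pool.Agent.H4.Singer2.GFormNd
import Pool.Agent.H4.Singer2.GLagIso
import Pool.Agent.H4.Singer2.GLagMax
import Pool.Agent.H4.Singer2.GAnStep

/-!
# Singer project, second part: the step of the induction
-/

set_option autoImplicit false
set_option linter.unusedSectionVars false

open Finset

namespace Pool.Agent.H4.Singer2

variable {Q : Type} [PartialOrder Q] [Fintype Q] {K : Type} [Field K] [CharP K 2] {E : Type}
  [AddCommGroup E] [Module K E]
  {rk : Q → ℕ} {t : Q → K} {c : ℕ} {G : Q → Submodule K E} {B : Q → E →ₗ[K] E →ₗ[K] K} {q : E → K}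


theorem stage_step [FiniteDimensional K E] {n : ℕ} (hQ : GPos rk n) (hS : Stage rk t c G B q)
    (hA : Aniso rk t c q) (c' : ℕ) (hc : c' + 2 = c) :
    ∃ B' : Q → (Wc rk c → E) →ₗ[K] (Wc rk c → E) →ₗ[K] K,
      Stage rk t c' (GG rk t G c) B' (qn rk t c q) := by
  classical
  have h1 : ∀ v : Q, ∃ B' : (Wc rk c → E) →ₗ[K] (Wc rk c → E) →ₗ[K] K,
      (∀ x y, B' x y = B' y x) ∧ (rk v = c' → IsForm rk t c G B v B') := by
    intro v
    by_cases hv : rk v = c'
    · obtain ⟨B', h2, h3⟩ := exists_form hQ hS v (by omega)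
      exact ⟨B', h2, fun _ => h3⟩
    · exact ⟨0, fun _ _ => rfl, fun h => absurd h hv⟩
  choose B' h2 h3 using h1
  refine ⟨B', ?_, h2, ?_, ?_, ?_⟩
  · intro τ r hr hrc
    exact new_ex hQ hS hA c' hc τ r hr hrc
  · intro v hv x hx h
    exact form_nondeg hQ hS hA v (by omega) (B' v) (h3 v hv) x hx h
  · intro v hv x hx
    exact form_diag hQ hS hA v (by omega) (B' v) (h3 v hv) x hx
  · intro e he x hx
    constructor
    · intro h
      exact lag_max hQ hS hA c' hc B' h3 e he x hx h
    · intro h y hy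
      exact lag_iso hQ hS c' hc B' h3 e he x y h hy

end Pool.Agent.H4.Singer2
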