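import Pool.Agent.H4.Singer2.GInj
import Pool.Agent.H4.Singer2.GLin

/-!
# Singer project, second part: the weighted sum is surjective on `ZZ e`, `rk e = c - 1`
-/

set_option autoImplicit false
set_option linter.unusedSectionVars false

open Finset

namespace Pool.Agent.H4.Singer2

variable {Q : Type} [PartialOrder Q] [Fintype Q] {K : Type} [Field K] [CharP K 2] {E : Type}
  [AddCommGroup E] [Module K E]
  {rk : Q → ℕ} {t : Q → K} {c : ℕ} {G : Q → Submodule K E} {B : Q → E →ₗ[K] E →ₗ[K] K} {q : E → K}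

/-- `ZZ e + T (ZZ e) = PM e` by `dbl_orth` (for `FB` on `PM e`, `FB_nondeg`): if `y ∈ PM e` is
orthogonal to both, then `y ∈ ZZ e` and `T y ∈ ZZ e` by `lag`, so `y = 0` by `ZZ_inj`. -/
theorem ZZ_surj [FiniteDimensional K E] (hS : Stage rk t c G B q) (hA : Aniso rk t c q)
    (hc : 1 ≤ c) (e : Q) (he : rk e + 1 = c) (g : E) (hg : g ∈ NN rk G c e) :
    ∃ z ∈ ZZ rk G c e, twL E rk t c z = g := by
  obtain ⟨x, hx, hxg⟩ := mem_NN.1 hg
  have hAY : ZZ rk G c e ⊔ (ZZ rk G c e).map (TT E rk t c) ≤ PM rk G c e := by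
    refine sup_le ZZ_le_PM ?_
    rintro _ ⟨z, hz, rfl⟩
    exact TT_mem_PM (ZZ_le_PM hz)
  have hmem : x ∈ ZZ rk G c e ⊔ (ZZ rk G c e).map (TT E rk t c) := by
    refine dbl_orth (FB rk B c) (FB_symm hS.symm) (PM rk G c e) _ hAY
      (fun x hx h => FB_nondeg hS.nondeg e x hx h) x hx ?_
    intro y hy h
    have h1 : y ∈ ZZ rk G c e := by
      refine (hS.lag e he y hy).1 fun z hz => ?_
      rw [FB_symm hS.symm]
      exact h z (Submodule.mem_sup_left hz)
    have h2 : TT E rk t c y ∈ ZZ rk G c e := by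
      refine (hS.lag e he _ (TT_mem_PM hy)).1 fun z hz => ?_
      rw [FB_symm hS.symm, FB_TT]
      exact h _ (Submodule.mem_sup_right (Submodule.mem_map_of_mem hz))
    have h3 : twL E rk t c y = 0 := by
      rw [← sumL_TT, sumL_apply]
      exact (mem_ZZ.1 h2).2
    rw [ZZ_inj hS hA hc e he y h1 h3, map_zero]
  obtain ⟨z1, hz1, w, hw, h12⟩ := Submodule.mem_sup.1 hmem
  obtain ⟨z2, hz2, rfl⟩ := hw
  refine ⟨z2, hz2, ?_⟩
  rw [← sumL_TT, ← hxg, ← sumL_apply (K := K), ← h12, map_add]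
  have h4 : sumL K rk c z1 = 0 := by
    rw [sumL_apply]
    exact (mem_ZZ.1 hz1).2
  rw [h4, zero_add]

/-- For `x w ∈ G w`, `w > π`, choose `e` with `π ≤ e < w` and `rk e + 1 = c` (`hQ.mid`) and use
`ZZ_surj` for `e`; add over `w`. -/
theorem ZZ_surj_low [FiniteDimensional K E] {n : ℕ} (hQ : GPos rk n) (hS : Stage rk t c G B q)
    (hA : Aniso rk t c q) (π : Q) (hπ : rk π + 1 ≤ c) (g : E) (hg : g ∈ NN rk G c π) :
    ∃ z ∈ ZZ rk G c π, twL E rk t c z = g := by
  classical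
  obtain ⟨x, hx, rfl⟩ := mem_NN.1 hg
  have key : ∀ w : Wc rk c, ∃ z ∈ ZZ rk G c π, twL E rk t c z = x w := by
    intro w
    by_cases h0 : x w = 0
    · exact ⟨0, Submodule.zero_mem _, by rw [map_zero, h0]⟩
    · have h1 : π ≤ w.1 := (hx w).2 h0
      have h2 : π < w.1 := by
        refine lt_of_le_of_ne h1 fun h3 => ?_
        have h4 : rk π = rk w.1 := by rw [h3]
        have h5 := w.2
        omega
      obtain ⟨e, he1, he2, he3⟩ := hQ.mid π w.1 h2
      have h5 := w.2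
      have h6 : x w ∈ NN rk G c e := by
        refine mem_NN.2 ⟨Pi.single w (x w), single_mem_PM w he2.le (x w) (hx w).1, ?_⟩
        rw [Finset.sum_eq_single w]
        · rw [Pi.single_eq_same]
        · intro w' _ hw'
          rw [Pi.single_eq_of_ne hw']
        · intro h7
          exact absurd (Finset.mem_univ _) h7
      obtain ⟨z, hz, hz'⟩ := ZZ_surj hS hA (by omega) e (by omega) (x w) h6
      exact ⟨z, ZZ_mono he1 hz, hz'⟩
  choose z hz hz' using key
  refine ⟨∑ w, z w, Submodule.sum_mem _ fun w _ => hz w, ?_⟩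
  rw [map_sum]
  exact Finset.sum_congr rfl fun w _ => hz' w

end Pool.Agent.H4.Singer2
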