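import Pool.Agent.H4.Singer2.PRank

/-!
# Singer project, second part: intervals in spherical posets
-/

set_option autoImplicit false
set_option linter.unusedSectionVars false

open Finset

namespace Pool.Agent.H4.Singer2

variable {B : Type} [PartialOrder B] [Fintype B] {rk : B → ℕ}

private theorem pinterval_mono (h : IsSpherical rk) {x y : B} (hxy : x ≤ y) : rk x ≤ rk y := by
  rcases hxy.lt_or_eq with h1 | h1
  · exact (h.lt h1).le
  · rw [h1]

open Classical in
private theorem pinterval_bdI (h : IsSpherical rk) (w : B) (y0 y : B → ZMod 2) (x : B)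
    (hy : ∀ v, x < v → rk v = rk x + 1 → y v = if v ≤ w then y0 v else 0) :
    bdI w y0 x = pd rk y x := by
  classical
  rw [pd_eq]
  have h1 : ∑ v ∈ cov rk x, y v = ∑ v ∈ cov rk x, if v ≤ w then y0 v else 0 :=
    Finset.sum_congr rfl fun v hv => hy v (mem_cov.1 hv).1 (mem_cov.1 hv).2
  rw [h1, ← Finset.sum_filter]
  unfold bdI
  refine Finset.sum_congr ?_ fun _ _ => rfl
  ext v
  rw [Finset.mem_filter, Finset.mem_filter, mem_cov, h.covBy_iff]
  exact ⟨fun hv => hv.2, fun hv => ⟨Finset.mem_univ _, hv⟩⟩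

/-- graded version of `exact` -/
theorem IsSpherical.graded (h : IsSpherical rk) {a w : B} (r : ℕ) (hr : rk a ≤ r)
    (hrw : r < rk w) (z : B → ZMod 2) (hz : ∀ y, z y ≠ 0 → a ≤ y ∧ y ≤ w ∧ rk y = r)
    (hd : ∀ x, a ≤ x → pd rk z x = 0) :
    ∃ y : B → ZMod 2, (∀ x, y x ≠ 0 → a ≤ x ∧ x ≤ w ∧ rk x = r + 1) ∧
      ∀ x, a ≤ x → pd rk y x = z x := by
  classical
  by_cases hz0 : ∀ v, z v = 0
  · refine ⟨0, fun x hx => absurd rfl hx, fun x _ => ?_⟩
    rw [pd_zero, hz0]
  · push Not at hz0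
    obtain ⟨v, hv⟩ := hz0
    obtain ⟨hav, hvw, -⟩ := hz v hv
    have haw : a < w := by
      refine lt_of_le_of_ne (hav.trans hvw) ?_
      intro he
      rw [he] at hr
      omega
    have hker : ∀ x, a ≤ x → x ≤ w → bdI w z x = 0 := by
      intro x hx _
      rw [pinterval_bdI h w z z x, hd x hx]
      intro u _ _
      by_cases hu : u ≤ w
      · rw [if_pos hu]
      · rw [if_neg hu]
        by_contra hne
        exact hu (hz u hne).2.1
    obtain ⟨y0, hy0⟩ := (h.exact a w haw z).1 hker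
    refine ⟨fun x => if a ≤ x ∧ x ≤ w ∧ rk x = r + 1 then y0 x else 0, ?_, ?_⟩
    · intro x hx
      by_contra hne
      exact hx (if_neg hne)
    · intro x hx
      by_cases hrx : rk x = r
      · by_cases hxw : x ≤ w
        · rw [← pinterval_bdI h w y0 _ x, hy0 x hx hxw]
          intro u hu hur
          by_cases huw : u ≤ w
          · rw [if_pos huw, if_pos ⟨hx.trans hu.le, huw, by omega⟩]
          · rw [if_neg huw, if_neg fun hc => huw hc.2.1]
        · have h1 : z x = 0 := by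
            by_contra hne
            exact hxw (hz x hne).2.1
          rw [h1, pd_eq]
          refine Finset.sum_eq_zero fun u hu => if_neg fun hc => ?_
          exact hxw ((mem_cov.1 hu).1.le.trans hc.2.1)
      · have h1 : z x = 0 := by
          by_contra hne
          exact hrx (hz x hne).2.2
        rw [h1]
        refine pd_eq_zero_of_rk (r := r + 1) ?_ (by omega)
        intro u hu
        by_contra hne
        exact hu (if_neg fun hc => hne hc.2.2)

/-- the half-open interval `[a, b)` -/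
abbrev Ivl (a b : B) : Type := {x : B // a ≤ x ∧ x < b}

noncomputable instance (a b : B) : Fintype (Ivl a b) := Fintype.ofFinite _

private theorem pinterval_pd (h : IsSpherical rk) {a b : B} (g : B → ZMod 2)
    (hg : ∀ y, g y ≠ 0 → y < b) (x : Ivl a b) :
    pd (fun x : Ivl a b => rk x.1 - rk a) (fun y => g y.1) x = pd rk g x.1 := by
  classical
  rw [pd_eq, pd_eq]
  have hax := pinterval_mono h x.2.1
  have h1 : ∑ y ∈ cov (fun x : Ivl a b => rk x.1 - rk a) x, g y.1 =
      ∑ y ∈ (cov (fun x : Ivl a b => rk x.1 - rk a) x).map (Function.Embedding.subtype _), g y := by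
    rw [Finset.sum_map]
    rfl
  rw [h1]
  refine Finset.sum_subset ?_ ?_
  · intro y hy
    obtain ⟨v, hv, rfl⟩ := Finset.mem_map.1 hy
    rw [mem_cov] at hv ⊢
    have hav := pinterval_mono h v.2.1
    have h2 : rk v.1 - rk a = rk x.1 - rk a + 1 := hv.2
    exact ⟨hv.1, by show rk v.1 = rk x.1 + 1; omega⟩
  · intro y hy hn
    by_contra hne
    apply hn
    rw [mem_cov] at hy
    rw [Finset.mem_map]
    refine ⟨⟨y, x.2.1.trans hy.1.le, hg y hne⟩, ?_, rfl⟩
    rw [mem_cov]
    refine ⟨hy.1, ?_⟩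
    show rk y - rk a = rk x.1 - rk a + 1
    omega

private theorem pinterval_ext (h : IsSpherical rk) {a b : B} (a' : Ivl a b) (w : B) (r : ℕ)
    (hw : w ≤ b) (hr : rk a'.1 - rk a ≤ r) (hrw : r + rk a < rk w)
    (hb : r + rk a + 1 < rk b ∨ w < b) (z : Ivl a b → ZMod 2)
    (hz : ∀ y, z y ≠ 0 → a' ≤ y ∧ y.1 ≤ w ∧ rk y.1 - rk a = r)
    (hd : ∀ x, a' ≤ x → pd (fun x : Ivl a b => rk x.1 - rk a) z x = 0) :
    ∃ y : Ivl a b → ZMod 2, (∀ x, y x ≠ 0 → a' ≤ x ∧ x.1 ≤ w ∧ rk x.1 - rk a = r + 1) ∧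
      ∀ x, a' ≤ x → pd (fun x : Ivl a b => rk x.1 - rk a) y x = z x := by
  classical
  set zt : B → ZMod 2 := fun y => if hy : a ≤ y ∧ y < b then z ⟨y, hy⟩ else 0 with hzt
  have hzt1 : ∀ y : Ivl a b, zt y.1 = z y := by
    intro y
    show (if hy : a ≤ y.1 ∧ y.1 < b then z ⟨y.1, hy⟩ else 0) = z y
    rw [dif_pos y.2]
  have hzt2 : ∀ y, zt y ≠ 0 → ∃ hy : a ≤ y ∧ y < b, z ⟨y, hy⟩ ≠ 0 := by
    intro y hy
    by_cases h1 : a ≤ y ∧ y < b
    · refine ⟨h1, ?_⟩
      rwa [← hzt1 ⟨y, h1⟩]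
    · exact absurd (dif_neg h1) hy
  have haa' := pinterval_mono h a'.2.1
  have hzf : (fun y : Ivl a b => zt y.1) = z := funext hzt1
  obtain ⟨y0, hy0, hy1⟩ := h.graded (a := a'.1) (w := w) (r + rk a) (by omega) hrw zt
    (by
      intro y hy
      obtain ⟨hy', hne⟩ := hzt2 y hy
      obtain ⟨h1, h2, h3⟩ := hz _ hne
      have h4 := pinterval_mono h hy'.1
      have h3' : rk y - rk a = r := h3
      exact ⟨h1, h2, by omega⟩)
    (by
      intro x hx
      by_cases hxb : x < b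
      · have h1 := hd ⟨x, a'.2.1.trans hx, hxb⟩ hx
        rw [← hzf, pinterval_pd h zt (fun y hy => (hzt2 y hy).choose.2)] at h1
        exact h1
      · rw [pd_eq]
        refine Finset.sum_eq_zero fun y hy => ?_
        by_contra hne
        exact hxb ((mem_cov.1 hy).1.trans (hzt2 y hne).choose.2))
  have hy0b : ∀ y, y0 y ≠ 0 → y < b := by
    intro y hy
    obtain ⟨-, h2, h3⟩ := hy0 y hy
    rcases hb with hb | hb
    · refine lt_of_le_of_ne (h2.trans hw) ?_
      rintro rfl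
      omega
    · exact lt_of_le_of_lt h2 hb
  refine ⟨fun x => y0 x.1, ?_, ?_⟩
  · intro x hx
    obtain ⟨h1, h2, h3⟩ := hy0 x.1 hx
    exact ⟨h1, h2, by omega⟩
  · intro x hx
    rw [pinterval_pd h y0 hy0b, hy1 x.1 hx, hzt1]

/-- the half-open interval `[a, b)`, with the relative rank, is a poset as in `GPos`: use the lemmas
above for `B`; `exT` is `graded` with `w = b`. -/
theorem IsSpherical.gpos (h : IsSpherical rk) {a b : B} (hab : a < b) :
    GPos (fun x : Ivl a b => rk x.1 - rk a) (rk b - rk a - 1) := by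
  have hm : ∀ x : Ivl a b, rk a ≤ rk x.1 := fun x => pinterval_mono h x.2.1
  have hM : ∀ x : Ivl a b, rk x.1 < rk b := fun x => h.lt x.2.2
  refine ⟨?_, ?_, ?_, ?_, ?_, ?_, ?_, ?_⟩
  · intro x y hxy
    have h1 : rk x.1 < rk y.1 := h.lt hxy
    have h2 := hm x
    show rk x.1 - rk a < rk y.1 - rk a
    omega
  · intro x
    have h1 := hm x
    have h2 := hM x
    show rk x.1 - rk a ≤ rk b - rk a - 1
    omega
  · intro x y hxy
    obtain ⟨z, h1, h2, h3⟩ := h.exists_lower (show x.1 < y.1 from hxy)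
    have h4 : a ≤ z ∧ z < b := ⟨x.2.1.trans h1, h2.lt.trans y.2.2⟩
    refine ⟨⟨z, h4⟩, h1, h2.lt, ?_⟩
    have h5 := hm ⟨z, h4⟩
    show rk z - rk a + 1 = rk y.1 - rk a
    have h5' : rk a ≤ rk z := h5
    omega
  · intro x
    obtain ⟨z, h1, h2, h3⟩ := h.exists_lower x.2.2
    have h4 : a ≤ z ∧ z < b := ⟨x.2.1.trans h1, h2.lt⟩
    refine ⟨⟨z, h4⟩, h1, ?_⟩
    have h5' : rk a ≤ rk z := hm ⟨z, h4⟩
    show rk z - rk a = rk b - rk a - 1
    omega
  · intro x y hxy hr
    have hr' : rk y.1 - rk a = rk x.1 - rk a + 2 := hr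
    have h1 := hm x
    have h2 := hm y
    obtain ⟨c, d, hcd, hz⟩ := h.thin (show x.1 < y.1 from hxy) (by omega)
    have hc := (hz c).2 (Or.inl rfl)
    have hd := (hz d).2 (Or.inr rfl)
    refine ⟨⟨c, x.2.1.trans hc.1.le, hc.2.trans y.2.2⟩, ⟨d, x.2.1.trans hd.1.le, hd.2.trans y.2.2⟩,
      fun he => hcd (congrArg Subtype.val he), fun z => ?_⟩
    have h3 := hz z.1
    constructor
    · rintro ⟨h4, h5⟩
      rcases h3.1 ⟨h4, h5⟩ with h6 | h6
      · exact Or.inl (Subtype.ext h6)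
      · exact Or.inr (Subtype.ext h6)
    · intro h4
      apply h3.2
      rcases h4 with h4 | h4
      · exact Or.inl (congrArg Subtype.val h4)
      · exact Or.inr (congrArg Subtype.val h4)
  · intro x hr
    have hr' : rk x.1 - rk a + 1 = rk b - rk a - 1 := hr
    have h1 := hm x
    have h2 := hM x
    obtain ⟨c, d, hcd, hz⟩ := h.thin x.2.2 (by omega)
    have hc := (hz c).2 (Or.inl rfl)
    have hd := (hz d).2 (Or.inr rfl)
    refine ⟨⟨c, x.2.1.trans hc.1.le, hc.2⟩, ⟨d, x.2.1.trans hd.1.le, hd.2⟩,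
      fun he => hcd (congrArg Subtype.val he), fun z => ?_⟩
    have h3 := hz z.1
    constructor
    · intro h4
      rcases h3.1 ⟨h4, z.2.2⟩ with h6 | h6
      · exact Or.inl (Subtype.ext h6)
      · exact Or.inr (Subtype.ext h6)
    · intro h4
      refine (h3.2 ?_).1
      rcases h4 with h4 | h4
      · exact Or.inl (congrArg Subtype.val h4)
      · exact Or.inr (congrArg Subtype.val h4)
  · intro a' w r hr hrw z hz hd
    have hrw' : r < rk w.1 - rk a := hrw
    have h1 := hm w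
    obtain ⟨y, hy1, hy2⟩ := pinterval_ext h a' w.1 r w.2.2.le hr (by omega) (Or.inr w.2.2) z
      (fun y hy => hz y hy) hd
    exact ⟨y, fun x hx => hy1 x hx, hy2⟩
  · intro a' r hr hrn z hz hd
    have h1 : rk a < rk b := h.lt hab
    obtain ⟨y, hy1, hy2⟩ := pinterval_ext h a' b r le_rfl hr (by omega) (Or.inl (by omega)) z
      (fun y hy => ⟨(hz y hy).1, y.2.2.le, (hz y hy).2⟩) hd
    exact ⟨y, fun x hx => ⟨(hy1 x hx).1, (hy1 x hx).2.2⟩, hy2⟩

end Pool.Agent.H4.Singer2
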