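import Pool.Agent.H4.Singer2.PDefs
import Pool.Agent.H4.Singer2.GBasic

/-!
# Singer project, second part: spherical posets are thin
-/

set_option autoImplicit false
set_option linter.unusedSectionVars false

open Finset

namespace Pool.Agent.H4.Singer2

variable {B : Type} [PartialOrder B] [Fintype B] {rk : B → ℕ}

/-- from `covBy`, by a chain of covers -/
theorem IsSpherical.lt (h : IsSpherical rk) {x y : B} (hxy : x < y) : rk x < rk y := by
  induction y using WellFoundedLT.induction with
  | ind y ih =>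
    obtain ⟨z, hxz, hzy⟩ := exists_le_covBy_of_lt hxy
    have h1 := h.covBy z y hzy
    rcases hxz.eq_or_lt with h2 | h2
    · rw [h2]
      omega
    · have := ih z hzy.lt h2
      omega

/-- below `y` there is an element covered by `y` (`exists_covBy_of_lt` or finiteness) -/
theorem IsSpherical.exists_lower (h : IsSpherical rk) {x y : B} (hxy : x < y) :
    ∃ z, x ≤ z ∧ z ⋖ y ∧ rk z + 1 = rk y := by
  obtain ⟨z, hxz, hzy⟩ := exists_le_covBy_of_lt hxy
  exact ⟨z, hxz, hzy, (h.covBy z y hzy).symm⟩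

/-- `y` covers `x` iff `x < y` and `rk y = rk x + 1` -/
theorem IsSpherical.covBy_iff (h : IsSpherical rk) {x y : B} :
    x ⋖ y ↔ x < y ∧ rk y = rk x + 1 := by
  constructor
  · intro hc
    exact ⟨hc.lt, h.covBy x y hc⟩
  · rintro ⟨h1, h2⟩
    refine ⟨h1, fun z hz1 hz2 => ?_⟩
    have h3 := h.lt hz1
    have h4 := h.lt hz2
    omega

theorem prank_bdI_eq_sum_of {b : B} {z : B → ZMod 2} {x : B} {S : Finset B}
    (hS : ∀ v, v ∈ S ↔ x ⋖ v ∧ v ≤ b) : bdI b z x = ∑ v ∈ S, z v := by
  classical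
  unfold bdI
  refine Finset.sum_congr ?_ fun _ _ => rfl
  ext v
  rw [hS, Finset.mem_filter]
  simp

/-- Proof. Let `M` be the set of the `z` with `x < z < y`, i.e. `x ⋖ z ⋖ y`. `δ_x` is in the kernel of
`∂`, so in the image, so `M` is not empty. `δ_y ↦ ∑ M ↦ |M| δ_x` is zero (an image is in the kernel),
so `|M|` is even. If `a ≠ b` are in `M`, `δ_a + δ_b` is in the kernel, so in the image, so it is
constant on `M`; hence `M = {a, b}`. -/
theorem IsSpherical.thin (h : IsSpherical rk) {x y : B} (hxy : x < y) (hr : rk y = rk x + 2) :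
    ∃ a b, a ≠ b ∧ ∀ z, (x < z ∧ z < y) ↔ (z = a ∨ z = b) := by
  classical
  have hE := h.exact x y hxy
  -- the middle elements
  have hmid : ∀ v, (x ⋖ v ∧ v ≤ y) ↔ (x < v ∧ v < y) := by
    intro v
    rw [h.covBy_iff]
    constructor
    · rintro ⟨⟨h1, h2⟩, h3⟩
      refine ⟨h1, lt_of_le_of_ne h3 ?_⟩
      rintro rfl
      omega
    · rintro ⟨h1, h2⟩
      have h3 := h.lt h1
      have h4 := h.lt h2
      exact ⟨⟨h1, by omega⟩, h2.le⟩
  have hup : ∀ u, x < u → u < y → ∀ v, v ∈ ({y} : Finset B) ↔ (u ⋖ v ∧ v ≤ y) := by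
    intro u h1 h2 v
    have h3 := h.lt h1
    have h4 := h.lt h2
    rw [Finset.mem_singleton, h.covBy_iff]
    constructor
    · rintro rfl
      exact ⟨⟨h2, by omega⟩, le_rfl⟩
    · rintro ⟨⟨h5, h6⟩, h7⟩
      rcases h7.eq_or_lt with h8 | h8
      · exact h8
      · have := h.lt h8
        omega
  have htop : ∀ v, v ∈ (∅ : Finset B) ↔ (y ⋖ v ∧ v ≤ y) := by
    intro v
    constructor
    · intro h1
      exact absurd h1 (Finset.notMem_empty v)
    · rintro ⟨h1, h2⟩
      exact absurd h1.lt (not_lt_of_ge h2)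
  obtain ⟨M, hM⟩ : ∃ M : Finset B, ∀ v, v ∈ M ↔ (x < v ∧ v < y) :=
    ⟨univ.filter fun v => x < v ∧ v < y, fun v => by simp⟩
  have hM' : ∀ v, v ∈ M ↔ (x ⋖ v ∧ v ≤ y) := fun v => by rw [hM, hmid]
  -- step one: there is an element
  obtain ⟨a, ha⟩ : ∃ a, a ∈ M := by
    obtain ⟨w, hw⟩ := (hE (fun u => if u = x then 1 else 0)).1 (by
      intro u hu1 hu2
      unfold bdI
      refine Finset.sum_eq_zero fun v hv => ?_
      rw [Finset.mem_filter] at hv
      have h1 : v ≠ x := by
        rintro rfl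
        exact absurd hv.2.1.lt (not_lt_of_ge hu1)
      simp [h1])
    have h1 := hw x le_rfl hxy.le
    rw [prank_bdI_eq_sum_of hM', if_pos rfl] at h1
    by_contra hne
    rw [not_exists] at hne
    rw [Finset.eq_empty_of_forall_notMem hne, Finset.sum_empty] at h1
    exact absurd h1 (by decide)
  -- step two: there are at least two elements
  obtain ⟨b, hb, hab⟩ : ∃ b, b ∈ M ∧ b ≠ a := by
    by_contra hne
    push Not at hne
    have h2 : M = {a} := by
      ext v
      rw [Finset.mem_singleton]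
      exact ⟨fun hv => hne v hv, fun hv => hv ▸ ha⟩
    have h1 := (hE (fun u => bdI y (fun v => if v = y then 1 else 0) u)).2
      ⟨fun v => if v = y then 1 else 0, fun u _ _ => rfl⟩ x le_rfl hxy.le
    rw [prank_bdI_eq_sum_of hM', h2, Finset.sum_singleton,
      prank_bdI_eq_sum_of (hup a ((hM a).1 ha).1 ((hM a).1 ha).2), Finset.sum_singleton,
      if_pos rfl] at h1
    exact absurd h1 (by decide)
  -- step three
  refine ⟨a, b, hab.symm, fun z => ?_⟩
  constructor
  · intro hz
    obtain ⟨w, hw⟩ := (hE (fun u => (if u = a then 1 else 0) + (if u = b then 1 else 0))).1 (by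
      intro u hu1 hu2
      rcases hu1.eq_or_lt with h1 | h1
      · rw [← h1, prank_bdI_eq_sum_of hM', Finset.sum_add_distrib, Finset.sum_ite_eq' M a,
          Finset.sum_ite_eq' M b, if_pos ha, if_pos hb]
        decide
      · rcases hu2.eq_or_lt with h2 | h2
        · rw [h2, prank_bdI_eq_sum_of htop, Finset.sum_empty]
        · rw [prank_bdI_eq_sum_of (hup u h1 h2), Finset.sum_singleton,
            if_neg ((hM a).1 ha).2.ne', if_neg ((hM b).1 hb).2.ne', add_zero])
    have h1 := hw a ((hM a).1 ha).1.le ((hM a).1 ha).2.le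
    have h2 := hw z hz.1.le hz.2.le
    rw [prank_bdI_eq_sum_of (hup a ((hM a).1 ha).1 ((hM a).1 ha).2), Finset.sum_singleton,
      if_pos rfl, if_neg hab.symm, add_zero] at h1
    rw [prank_bdI_eq_sum_of (hup z hz.1 hz.2), Finset.sum_singleton, h1] at h2
    by_contra hne
    rw [not_or] at hne
    rw [if_neg hne.1, if_neg hne.2, add_zero] at h2
    exact absurd h2 (by decide)
  · rintro (rfl | rfl)
    · exact (hM z).1 ha
    · exact (hM z).1 hb

end Pool.Agent.H4.Singer2
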