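import Pool.Agent.H4.Singer2.PDefs

/-!
# Singer project, second part: face posets of simplicial complexes are spherical
-/

set_option autoImplicit false
set_option linter.unusedSectionVars false

open Finset

namespace Pool.Agent.H4.Singer2

section

variable {B α : Type} [PartialOrder B] [Fintype B] [DecidableEq α]

/-- `φ` identifies `B` with a set of finite sets that contains all subsets of its members -/
structure SetEmb (φ : B → Finset α) : Prop where
  le_iff : ∀ x y, φ x ⊆ φ y ↔ x ≤ y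
  down : ∀ y, ∀ τ ⊆ φ y, ∃ x, φ x = τ

variable {φ : B → Finset α}

theorem SetEmb.inj (h : SetEmb φ) : Function.Injective φ := fun x y hxy =>
  le_antisymm ((h.le_iff x y).1 hxy.subset) ((h.le_iff y x).1 hxy.symm.subset)

theorem SetEmb.covBy (h : SetEmb φ) {x y : B} (hxy : x ⋖ y) :
    ∃ a ∈ φ y, a ∉ φ x ∧ φ y = insert a (φ x) := by
  have h1 : φ x ⊂ φ y := by
    rw [Finset.ssubset_iff_subset_ne]
    exact ⟨(h.le_iff x y).2 hxy.1.le, fun h2 => hxy.1.ne (h.inj h2)⟩
  obtain ⟨a, ha, hax⟩ := Finset.exists_of_ssubset h1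
  refine ⟨a, ha, hax, ?_⟩
  obtain ⟨z, hz⟩ := h.down y (insert a (φ x)) (Finset.insert_subset ha h1.1)
  have h2 : x < z := by
    refine lt_of_le_of_ne ((h.le_iff x z).1 (by rw [hz]; exact Finset.subset_insert _ _)) ?_
    rintro rfl
    exact hax (hz ▸ Finset.mem_insert_self _ _)
  have h3 : z ≤ y := (h.le_iff z y).1 (by rw [hz]; exact Finset.insert_subset ha h1.1)
  rcases h3.lt_or_eq with h4 | h4
  · exact absurd h4 (hxy.2 h2)
  · rw [← h4, hz]

theorem SetEmb.covBy_of (h : SetEmb φ) {x y : B} {a : α} (ha : a ∉ φ x)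
    (hy : φ y = insert a (φ x)) : x ⋖ y := by
  have h1 : x ≤ y := (h.le_iff x y).1 (by rw [hy]; exact Finset.subset_insert _ _)
  refine ⟨lt_of_le_of_ne h1 ?_, fun z h2 h3 => ?_⟩
  · rintro rfl
    exact ha (hy ▸ Finset.mem_insert_self _ _)
  · have h4 : φ x ⊂ φ z := by
      rw [Finset.ssubset_iff_subset_ne]
      exact ⟨(h.le_iff x z).2 h2.le, fun h5 => h2.ne (h.inj h5)⟩
    have h6 : φ z ⊂ φ y := by
      rw [Finset.ssubset_iff_subset_ne]
      exact ⟨(h.le_iff z y).2 h3.le, fun h5 => h3.ne (h.inj h5)⟩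
    have h7 := Finset.card_lt_card h4
    have h8 := Finset.card_lt_card h6
    rw [hy, Finset.card_insert_of_notMem ha] at h8
    omega

theorem SetEmb.bdI_eq (h : SetEmb φ) {b : B} {ψ : Finset α → B}
    (hψ : ∀ τ ⊆ φ b, φ (ψ τ) = τ) (z : B → ZMod 2) (x : B) (hx : x ≤ b) :
    bdI b z x = ∑ a ∈ φ b \ φ x, z (ψ (insert a (φ x))) := by
  classical
  have hxb := (h.le_iff x b).2 hx
  have hsub : ∀ a ∈ φ b \ φ x, insert a (φ x) ⊆ φ b := fun a ha =>
    Finset.insert_subset (mem_sdiff.1 ha).1 hxb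
  unfold bdI
  symm
  refine Finset.sum_bij (fun a _ => ψ (insert a (φ x))) ?_ ?_ ?_ ?_
  · intro a ha
    rw [mem_filter]
    refine ⟨mem_univ _, h.covBy_of (mem_sdiff.1 ha).2 (hψ _ (hsub a ha)), ?_⟩
    rw [← h.le_iff, hψ _ (hsub a ha)]
    exact hsub a ha
  · intro a ha a' ha' haa
    have h1 : insert a (φ x) = insert a' (φ x) := by
      rw [← hψ _ (hsub a ha), ← hψ _ (hsub a' ha')]
      exact congrArg φ haa
    have h2 : a ∈ insert a' (φ x) := h1 ▸ Finset.mem_insert_self _ _
    rw [Finset.mem_insert] at h2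
    exact h2.resolve_right (mem_sdiff.1 ha).2
  · intro y hy
    rw [mem_filter] at hy
    obtain ⟨a, ha, hax, hya⟩ := h.covBy hy.2.1
    have hab : a ∈ φ b \ φ x := mem_sdiff.2 ⟨(h.le_iff y b).2 hy.2.2 ha, hax⟩
    refine ⟨a, hab, h.inj ?_⟩
    rw [hψ _ (hsub a hab), hya]
  · intro a _
    rfl

theorem SetEmb.exact (h : SetEmb φ) {a b : B} (hab : a < b) : ExactInterval a b := by
  classical
  have h1 : φ a ⊂ φ b := by
    rw [Finset.ssubset_iff_subset_ne]
    exact ⟨(h.le_iff a b).2 hab.le, fun h5 => hab.ne (h.inj h5)⟩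
  obtain ⟨x₀, hx0, hx0a⟩ := Finset.exists_of_ssubset h1
  have hψ' : ∀ τ : Finset α, ∃ x : B, τ ⊆ φ b → φ x = τ := by
    intro τ
    by_cases hτ : τ ⊆ φ b
    · obtain ⟨x, hx⟩ := h.down b τ hτ
      exact ⟨x, fun _ => hx⟩
    · exact ⟨a, fun h => absurd h hτ⟩
  choose ψ hψ using hψ'
  have hψφ : ∀ x, x ≤ b → ψ (φ x) = x := fun x hx =>
    h.inj (hψ _ ((h.le_iff x b).2 hx))
  intro z
  constructor
  · intro hz
    refine ⟨fun u => if x₀ ∈ φ u then z (ψ ((φ u).erase x₀)) else 0, fun x hax hxb => ?_⟩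
    have hxb' := (h.le_iff x b).2 hxb
    have hax' := (h.le_iff a x).2 hax
    rw [h.bdI_eq hψ _ x hxb]
    by_cases hx : x₀ ∈ φ x
    · -- `x₀` is in `x`
      have e1 : ∀ c ∈ φ b \ φ x, (if x₀ ∈ φ (ψ (insert c (φ x))) then
          z (ψ ((φ (ψ (insert c (φ x)))).erase x₀)) else 0) =
          z (ψ (insert c ((φ x).erase x₀))) := by
        intro c hc
        rw [mem_sdiff] at hc
        rw [hψ _ (Finset.insert_subset hc.1 hxb'), if_pos (Finset.mem_insert_of_mem hx),
          Finset.erase_insert_of_ne]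
        rintro rfl
        exact hc.2 hx
      rw [Finset.sum_congr rfl e1]
      have hsub : (φ x).erase x₀ ⊆ φ b := (Finset.erase_subset _ _).trans hxb'
      have hx' := hψ _ hsub
      have h2 := hz (ψ ((φ x).erase x₀))
        (by
          rw [← h.le_iff, hx']
          exact fun c hc => Finset.mem_erase.2 ⟨fun h3 => hx0a (h3 ▸ hc), hax' hc⟩)
        (by rw [← h.le_iff, hx']; exact hsub)
      rw [h.bdI_eq hψ _ _ (by rw [← h.le_iff, hx']; exact hsub), hx'] at h2
      have h3 : φ b \ (φ x).erase x₀ = insert x₀ (φ b \ φ x) := by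
        ext c
        simp only [mem_sdiff, mem_erase, mem_insert, not_and, ne_eq]
        constructor
        · rintro ⟨h4, h5⟩
          by_cases h6 : c = x₀
          · exact Or.inl h6
          · exact Or.inr ⟨h4, h5 h6⟩
        · rintro (rfl | ⟨h4, h5⟩)
          · exact ⟨hx0, fun h6 => absurd rfl h6⟩
          · exact ⟨h4, fun _ => h5⟩
      rw [h3, Finset.sum_insert (fun h4 => (mem_sdiff.1 h4).2 hx), Finset.insert_erase hx,
        hψφ x hxb] at h2
      have h4 : z x + z x = 0 := CharTwo.add_self_eq_zero _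
      calc ∑ c ∈ φ b \ φ x, z (ψ (insert c ((φ x).erase x₀)))
          = z x + (z x + ∑ c ∈ φ b \ φ x, z (ψ (insert c ((φ x).erase x₀)))) := by
            rw [← add_assoc, h4, zero_add]
        _ = z x := by rw [h2, add_zero]
    · -- `x₀` is not in `x`
      rw [Finset.sum_eq_single x₀]
      · rw [hψ _ (Finset.insert_subset hx0 hxb'), if_pos (Finset.mem_insert_self _ _),
          Finset.erase_insert hx, hψφ x hxb]
      · intro c hc hcx
        rw [mem_sdiff] at hc
        rw [hψ _ (Finset.insert_subset hc.1 hxb'), if_neg]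
        rw [Finset.mem_insert, not_or]
        exact ⟨fun h3 => hcx h3.symm, hx⟩
      · intro h3
        exact absurd (mem_sdiff.2 ⟨hx0, hx⟩) h3
  · rintro ⟨y, hy⟩ x hax hxb
    have hxb' := (h.le_iff x b).2 hxb
    rw [h.bdI_eq hψ _ x hxb]
    have e1 : ∀ c ∈ φ b \ φ x, z (ψ (insert c (φ x))) =
        ∑ c' ∈ φ b \ insert c (φ x), y (ψ (insert c' (insert c (φ x)))) := by
      intro c hc
      rw [mem_sdiff] at hc
      have hs := Finset.insert_subset hc.1 hxb'
      have hu : ψ (insert c (φ x)) ≤ b := by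
        rw [← h.le_iff, hψ _ hs]
        exact hs
      rw [← hy _ (hax.trans (by
        rw [← h.le_iff, hψ _ hs]
        exact Finset.subset_insert _ _)) hu, h.bdI_eq hψ _ _ hu, hψ _ hs]
    rw [Finset.sum_congr rfl e1, Finset.sum_sigma']
    refine Finset.sum_involution (fun p _ => ⟨p.2, p.1⟩) ?_ ?_ ?_ ?_
    · rintro ⟨c, c'⟩ _
      simp only
      rw [Finset.insert_comm]
      exact CharTwo.add_self_eq_zero _
    · rintro ⟨c, c'⟩ hc _ heq
      simp only [Finset.mem_sigma, mem_sdiff, Finset.mem_insert, not_or] at hc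
      simp only [Sigma.mk.injEq, heq_eq_eq] at heq
      exact hc.2.2.1 heq.1
    · rintro ⟨c, c'⟩ hc
      simp only [Finset.mem_sigma, mem_sdiff, Finset.mem_insert, not_or] at hc ⊢
      exact ⟨⟨hc.2.1, hc.2.2.2⟩, hc.1.1, fun h3 => hc.2.2.1 h3.symm, hc.1.2⟩
    · rintro ⟨c, c'⟩ _
      rfl

theorem SetEmb.spherical (h : SetEmb φ) : IsSpherical (fun x => (φ x).card) where
  covBy x y hxy := by
    obtain ⟨a, _, hax, hy⟩ := h.covBy hxy
    rw [hy, Finset.card_insert_of_notMem hax]
  exact a b hab := h.exact hab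

end

section

variable {α : Type} [DecidableEq α]

/-- the face of an element, the empty set for the added least element -/
def faceOf (K : Finset (Finset α)) : WithBot {σ : Finset α // σ ∈ K} → Finset α
  | ⊥ => ∅
  | (s : {σ : Finset α // σ ∈ K}) => s.1

theorem faceOf_setEmb (K : Finset (Finset α)) (hK : Singer.IsComplex K) :
    SetEmb (faceOf K) where
  le_iff x y := by
    induction x using WithBot.recBotCoe with
    | bot => exact ⟨fun _ => bot_le, fun _ => Finset.empty_subset _⟩
    | coe x =>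
      induction y using WithBot.recBotCoe with
      | bot =>
        constructor
        · intro h
          exact absurd (Finset.subset_empty.1 h) (hK x.1 x.2).1.ne_empty
        · intro h
          exact absurd h (WithBot.not_coe_le_bot x)
      | coe y => exact (WithBot.coe_le_coe (a := x) (b := y)).symm
  down y τ hτ := by
    induction y using WithBot.recBotCoe with
    | bot => exact ⟨⊥, (Finset.subset_empty.1 hτ).symm⟩
    | coe y =>
      by_cases h : τ.Nonempty
      · exact ⟨((⟨τ, (hK y.1 y.2).2 τ hτ h⟩ : {σ : Finset α // σ ∈ K}) :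
          WithBot {σ : Finset α // σ ∈ K}), rfl⟩
      · exact ⟨⊥, (Finset.not_nonempty_iff_eq_empty.1 h).symm⟩

/-- **Example.** For every finite simplicial complex `K` the poset of its faces (with the empty
face) is spherical. -/
theorem spherical_complex (K : Finset (Finset α)) (hK : Singer.IsComplex K) :
    IsSpherical (fun x => (faceOf K x).card) :=
  (faceOf_setEmb K hK).spherical

end

end Pool.Agent.H4.Singer2
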