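import Pool.Agent.H4.Singer2.PInterval
import Pool.Agent.H4.Singer2.GSF
import Pool.Agent.H4.Singer.JTop

/-!
# Singer project, second part: stress-freeness of the flags of odd rank in intervals
-/

set_option autoImplicit false
set_option linter.unusedSectionVars false

open Finset

namespace Pool.Agent.H4.Singer2

open Pool.Agent.H4.Singer

variable {B : Type} [PartialOrder B] [Fintype B] {rk : B → ℕ} {V C : Type} [PartialOrder V]
  [DecidableEq V] [Fintype V] [DecidableEq C]

/-- Let `ι : V → B` be injective and let `G` be a graph on `V` whose adjacent vertices are mapped to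
comparable elements. `U` is a set of `v` with `a < ι v < b` and `rk (ι v) - rk a` odd, where
`rk b - rk a = 2 m + 2`. Proof. `sf_odd` for the poset `[a, b)` (`IsSpherical.gpos`, least element
`a`, `f = Subtype.val`, `t x = xv x`) and `stressFree_comap` for the map
`v ↦ if a ≤ ι v < b then ⟨ι v, _⟩ else ⟨a, _⟩`, which is injective on `U`; then `StressFree.congr`. -/
theorem stressFree_interval (h : IsSpherical rk) {a b : B} (hab : a < b) (m : ℕ)
    (hm : rk b = rk a + 2 * m + 2) (ι : V → B) (hι : Function.Injective ι) (G : ColGraph V C)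
    (hG : ∀ u v, G.adj u v → ι u < ι v ∨ ι v < ι u) (U : Finset V)
    (hU : ∀ v ∈ U, a < ι v ∧ ι v < b ∧ Odd (rk (ι v) - rk a)) :
    StressFree (fun v => xv (ι v)) (clq G U (m + 1)) := by
  classical
  have hn : rk b - rk a - 1 = 2 * m + 1 := by omega
  have hQ : GPos (fun x : Ivl a b => rk x.1 - rk a) (2 * m + 1) := hn ▸ h.gpos hab
  have hsf := sf_odd hQ (⟨a, le_rfl, hab⟩ : Ivl a b) (fun x => x.2.1) (Nat.sub_self _)
    (fun x : Ivl a b => x.1) (fun x _ y _ hxy => Subtype.ext hxy) (fun x : Ivl a b => xv x.1)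
    (fun _ _ => rfl)
  have hι' : ∀ v ∈ U, a ≤ ι v ∧ ι v < b := fun v hv => ⟨(hU v hv).1.le, (hU v hv).2.1⟩
  let κ : V → Ivl a b := fun v => if hv : a ≤ ι v ∧ ι v < b then ⟨ι v, hv⟩ else ⟨a, le_rfl, hab⟩
  have hκ : ∀ v ∈ U, (κ v).1 = ι v := by
    intro v hv
    have : κ v = ⟨ι v, hι' v hv⟩ := dif_pos (hι' v hv)
    rw [this]
  have hκi : Set.InjOn κ U := by
    intro u hu v hv huv
    apply hι
    rw [← hκ u hu, ← hκ v hv, huv]
  have hlt : ∀ u ∈ U, ∀ v ∈ U, ι u < ι v → κ u < κ v := by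
    intro u hu v hv huv
    rw [← Subtype.coe_lt_coe, hκ u hu, hκ v hv]
    exact huv
  have hmain := stressFree_comap κ U hκi (clq G U (m + 1)) _ (fun φ hφ => ?_) _ hsf
  · refine hmain.congr fun φ hφ v hv => ?_
    show xv (κ v).1 = xv (ι v)
    rw [hκ v ((mem_clq.1 hφ).1 hv)]
  · obtain ⟨h1, h2, h3⟩ := mem_clq.1 hφ
    refine ⟨h1, mem_filter.2 ⟨mem_univ _, ?_, ?_, ?_⟩⟩
    · rw [card_image_of_injOn (hκi.mono (by exact_mod_cast h1)), h3]
    · intro x hx y hy
      obtain ⟨u, hu, rfl⟩ := mem_image.1 hx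
      obtain ⟨v, hv, rfl⟩ := mem_image.1 hy
      by_cases huv : u = v
      · exact Or.inr (Or.inl (by rw [huv]))
      · rcases hG u v (h2 u hu v hv huv) with h4 | h4
        · exact Or.inl (hlt u (h1 hu) v (h1 hv) h4)
        · exact Or.inr (Or.inr (hlt v (h1 hv) u (h1 hu) h4))
    · intro x hx
      obtain ⟨u, hu, rfl⟩ := mem_image.1 hx
      have h5 := hU u (h1 hu)
      have h6 := h.lt h5.2.1
      show Odd (rk (κ u).1 - rk a) ∧ rk (κ u).1 - rk a ≤ 2 * m + 1
      rw [hκ u (h1 hu)]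
      exact ⟨h5.2.2, by omega⟩

end Pool.Agent.H4.Singer2
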